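import Pool.Agent.Lib.MP_2af9b5_pr.Link

open MeasureTheory ProbabilityTheory Set Metric Real
open scoped ENNReal Classical

namespace Pool.Agent.Lib.MP_2af9b5_pr

theorem vball (c : ℂ) {r : ℝ} (hr : 0 ≤ r) : volume.real (ball c r) = π * r ^ 2 := by
  rw [Measure.real, Complex.volume_ball]
  simp [hr, mul_comm]

theorem vcball (c : ℂ) {r : ℝ} (hr : 0 ≤ r) : volume.real (closedBall c r) = π * r ^ 2 := by
  rw [Measure.real, Complex.volume_closedBall]
  simp [hr, mul_comm]

theorem vball_ne (c : ℂ) (r : ℝ) : volume (ball c r) ≠ ⊤ := measure_ball_lt_top.ne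

theorem fin_of_sub {A : Set ℂ} {c : ℂ} {r : ℝ} (h : A ⊆ ball c r) : volume A ≠ ⊤ :=
  measure_ne_top_of_subset h (vball_ne c r)

theorem vol_mul {c : ℂ} (hc : c ≠ 0) (L : Set ℂ) :
    volume {z : ℂ | z * c ∈ L} = ENNReal.ofReal (‖c‖ ^ 2)⁻¹ * volume L := by
  have hd : LinearMap.det (LinearMap.mul ℝ ℂ c) = ‖c‖ ^ 2 := by
    rw [← Complex.normSq_eq_norm_sq, ← Algebra.norm_complex_apply, Algebra.norm_apply]
    rfl
  have h := Measure.addHaar_preimage_linearMap (volume : Measure ℂ) (f := LinearMap.mul ℝ ℂ c)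
    (by rw [hd]; positivity) L
  rw [hd, abs_of_nonneg (by positivity)] at h
  rw [← h]
  congr 1
  ext z
  simp [mul_comm]

theorem vol_unit {c : ℂ} (hc : ‖c‖ = 1) (L : Set ℂ) :
    volume {z : ℂ | z * c ∈ L} = volume L := by
  rw [vol_mul (by rintro rfl; simp at hc), hc]
  simp

theorem vol_conj {L : Set ℂ} (hL : MeasurableSet L) :
    volume {z : ℂ | (starRingEnd ℂ) z ∈ L} = volume L :=
  Complex.conjLIE.measurePreserving.measure_preimage hL.nullMeasurableSet

theorem vol_slices {A : Set ℂ} (hA : MeasurableSet A) :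
    volume A = ∫⁻ x : ℝ, volume {y : ℝ | (⟨x, y⟩ : ℂ) ∈ A} := by
  have h := Complex.volume_preserving_equiv_real_prod.symm.measure_preimage hA.nullMeasurableSet
  rw [← h, Measure.volume_eq_prod,
    Measure.prod_apply (Complex.measurableEquivRealProd.symm.measurable hA)]
  rfl

/-- the area of a unit disc outside a unit disc centred on its boundary -/
noncomputable def Vc : ℝ := volume.real (ball (Complex.I : ℂ) 1 \ ball 0 1)

theorem Vc_le : Vc ≤ π := by
  have := measureReal_mono (μ := volume) (sdiff_subset : ball (Complex.I : ℂ) 1 \ ball 0 1 ⊆ _)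
    (vball_ne _ _)
  rwa [vball _ zero_le_one, one_pow, mul_one] at this

theorem Vc_ge : 1.86 ≤ Vc := by
  have hA : MeasurableSet (ball (Complex.I : ℂ) 1 \ ball 0 1) :=
    measurableSet_ball.diff measurableSet_ball
  have key : ∀ x w : ℝ, 0 ≤ w → w ≤ 1 → 4 * x ^ 2 + w ^ 2 ≤ 4 →
      ENNReal.ofReal w ≤ volume {y : ℝ | (⟨x, y⟩ : ℂ) ∈ ball (Complex.I : ℂ) 1 \ ball 0 1} := by
    intro x w h0 h1 h2
    have hx : 0 ≤ 1 - x ^ 2 := by nlinarith
    set s := √(1 - x ^ 2) with hs
    have s0 : 0 ≤ s := Real.sqrt_nonneg _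
    have s2 : s * s = 1 - x ^ 2 := Real.mul_self_sqrt hx
    have ws : w ≤ 2 * s := by nlinarith
    have : Ioo (1 + s - w) (1 + s) ⊆
        {y : ℝ | (⟨x, y⟩ : ℂ) ∈ ball (Complex.I : ℂ) 1 \ ball 0 1} := by
      rintro y ⟨h3, h4⟩
      simp only [mem_ofPred_eq, mem_sdiff, mem_ball, not_lt, Complex.dist_eq]
      constructor
      · rw [← sq_lt_one_iff₀ (norm_nonneg _), Complex.sq_norm, Complex.normSq_apply]
        simp only [Complex.sub_re, Complex.sub_im, Complex.I_re, Complex.I_im]
        nlinarith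
      · rw [← one_le_sq_iff₀ (norm_nonneg _), Complex.sq_norm, Complex.normSq_apply]
        simp only [Complex.sub_re, Complex.sub_im, Complex.zero_re, Complex.zero_im]
        nlinarith
    refine le_trans (le_of_eq ?_) (measure_mono this)
    rw [Real.volume_Ioo]
    congr 1
    ring
  have h1 : ENNReal.ofReal 1.86 ≤ volume (ball (Complex.I : ℂ) 1 \ ball 0 1) := by
    rw [vol_slices hA]
    have e : ∫⁻ x : ℝ, ((Icc (-0.866) 0.866).indicator (fun _ => ENNReal.ofReal 0.265) x +
        ((Icc (-0.93) 0.93).indicator (fun _ => ENNReal.ofReal 0.249) x +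
        (Icc (-0.97) 0.97).indicator (fun _ => ENNReal.ofReal 0.486) x)) =
        ENNReal.ofReal 1.86496 := by
      rw [lintegral_add_left (measurable_const.indicator measurableSet_Icc),
        lintegral_add_left (measurable_const.indicator measurableSet_Icc)]
      simp only [lintegral_indicator_const measurableSet_Icc, Real.volume_Icc]
      rw [← ENNReal.ofReal_mul (by norm_num), ← ENNReal.ofReal_mul (by norm_num),
        ← ENNReal.ofReal_mul (by norm_num), ← ENNReal.ofReal_add (by norm_num) (by norm_num),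
        ← ENNReal.ofReal_add (by norm_num) (by norm_num)]
      norm_num
    refine le_trans (ENNReal.ofReal_le_ofReal (by norm_num)) (e.symm.le.trans ?_)
    refine lintegral_mono fun x => ?_
    by_cases a3 : x ∈ Icc (-0.97 : ℝ) 0.97
    · by_cases a2 : x ∈ Icc (-0.93 : ℝ) 0.93
      · by_cases a1 : x ∈ Icc (-0.866 : ℝ) 0.866
        · simp only [indicator_of_mem a1, indicator_of_mem a2, indicator_of_mem a3]
          rw [← ENNReal.ofReal_add (by norm_num) (by norm_num),
            ← ENNReal.ofReal_add (by norm_num) (by norm_num)]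
          exact key x _ (by norm_num) (by norm_num) (by nlinarith [a1.1, a1.2])
        · simp only [indicator_of_notMem a1, indicator_of_mem a2, indicator_of_mem a3, zero_add]
          rw [← ENNReal.ofReal_add (by norm_num) (by norm_num)]
          exact key x _ (by norm_num) (by norm_num) (by nlinarith [a2.1, a2.2])
      · have a1 : x ∉ Icc (-0.866 : ℝ) 0.866 := fun h => a2 ⟨by linarith [h.1], by linarith [h.2]⟩
        simp only [indicator_of_notMem a1, indicator_of_notMem a2, indicator_of_mem a3, zero_add]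
        exact key x _ (by norm_num) (by norm_num) (by nlinarith [a3.1, a3.2])
    · have a2 : x ∉ Icc (-0.93 : ℝ) 0.93 := fun h => a3 ⟨by linarith [h.1], by linarith [h.2]⟩
      have a1 : x ∉ Icc (-0.866 : ℝ) 0.866 := fun h => a3 ⟨by linarith [h.1], by linarith [h.2]⟩
      simp [indicator_of_notMem a1, indicator_of_notMem a2, indicator_of_notMem a3]
  have := ENNReal.toReal_mono (fin_of_sub sdiff_subset) h1
  rwa [ENNReal.toReal_ofReal (by norm_num)] at this

theorem Vc_pos : 0 < Vc := by linarith [Vc_ge]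

theorem lune_eq (p q : ℂ) :
    volume.real (ball p (dist p q) \ ball q (dist p q)) = Vc * dist p q ^ 2 := by
  by_cases h : p = q
  · simp [h]
  have h1 : p - q ≠ 0 := sub_ne_zero.2 h
  have hn : 0 < ‖p - q‖ := norm_pos_iff.2 h1
  have hc : Complex.I / (p - q) ≠ 0 := div_ne_zero Complex.I_ne_zero h1
  have e : ball p (dist p q) \ ball q (dist p q) =
      {z | z - q ∈ {w : ℂ | w * (Complex.I / (p - q)) ∈ ball (Complex.I : ℂ) 1 \ ball 0 1}} := by
    ext z
    have e1 : (z - q) * (Complex.I / (p - q)) - Complex.I = (z - p) * Complex.I / (p - q) := by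
      field_simp; ring
    simp only [mem_sdiff, mem_ball, mem_ofPred_eq, Complex.dist_eq, e1, sub_zero, norm_div,
      norm_mul, Complex.norm_I, mul_one, mul_one_div, div_lt_one hn]
  rw [e, Measure.real, vol_shift, vol_mul hc, ENNReal.toReal_mul,
    ENNReal.toReal_ofReal (by positivity), Vc, Measure.real, Complex.dist_eq]
  simp [mul_comm]

theorem ann_le (c : ℂ) {r s : ℝ} (hr : 0 ≤ r) (hs : r ≤ s) :
    volume.real (ball c s \ ball c r) = π * s ^ 2 - π * r ^ 2 := by
  rw [measureReal_sdiff (ball_subset_ball hs) measurableSet_ball (vball_ne _ _),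
    vball _ hr, vball _ (hr.trans hs)]

theorem lune_le (p q : ℂ) {r s : ℝ} (hr : 0 ≤ r) (h1 : r ≤ dist p q) (h2 : dist p q ≤ s) :
    volume.real (ball p s \ ball q r) ≤ Vc * dist p q ^ 2 + π * (s ^ 2 - r ^ 2) := by
  have : ball p s \ ball q r ⊆ (ball p (dist p q) \ ball q (dist p q)) ∪
      ((ball p s \ ball p (dist p q)) ∪ (ball q (dist p q) \ ball q r)) := by
    intro z
    simp only [mem_sdiff, mem_union]
    tauto
  refine (measureReal_mono this (measure_union_ne_top (fin_of_sub sdiff_subset)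
    (measure_union_ne_top (fin_of_sub sdiff_subset) (fin_of_sub sdiff_subset)))).trans ?_
  refine (measureReal_union_le _ _).trans ?_
  have := measureReal_union_le (μ := volume) (ball p s \ ball p (dist p q))
    (ball q (dist p q) \ ball q r)
  rw [ann_le _ dist_nonneg h2, ann_le _ hr h1] at this
  rw [lune_eq]
  linarith

theorem lune_ge (p q : ℂ) {r s : ℝ} (hr : 0 ≤ r) (h1 : r ≤ dist p q) (h2 : dist p q ≤ s) :
    Vc * dist p q ^ 2 - π * (s ^ 2 - r ^ 2) ≤ volume.real (ball p r \ ball q s) := by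
  have : ball p (dist p q) \ ball q (dist p q) ⊆ (ball p r \ ball q s) ∪
      ((ball q s \ ball q (dist p q)) ∪ (ball p (dist p q) \ ball p r)) := by
    intro z
    simp only [mem_sdiff, mem_union]
    tauto
  have h3 := (measureReal_mono this (measure_union_ne_top (fin_of_sub sdiff_subset)
    (measure_union_ne_top (fin_of_sub sdiff_subset) (fin_of_sub sdiff_subset)))).trans
    (measureReal_union_le _ _)
  have := measureReal_union_le (μ := volume) (ball q s \ ball q (dist p q))
    (ball p (dist p q) \ ball p r)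
  rw [ann_le _ dist_nonneg h2, ann_le _ hr h1] at this
  rw [lune_eq] at h3
  linarith

theorem vol_polar {I J : Set ℝ} (hI : MeasurableSet I) (hJ : MeasurableSet J) :
    volume {w : ℂ | ‖w‖ ∈ J ∧ Complex.arg w ∈ I} =
      (∫⁻ r in J ∩ Ioi 0, ENNReal.ofReal r) * volume (I ∩ Ioo (-π) π) := by
  have hm : MeasurableSet {w : ℂ | ‖w‖ ∈ J ∧ Complex.arg w ∈ I} :=
    (measurable_norm hJ).inter (Complex.measurable_arg hI)
  rw [← lintegral_indicator_one hm, ← Complex.lintegral_comp_polarCoord_symm]
  have e : ∀ p ∈ polarCoord.target, ENNReal.ofReal p.1 •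
      {w : ℂ | ‖w‖ ∈ J ∧ Complex.arg w ∈ I}.indicator (1 : ℂ → ℝ≥0∞) (Complex.polarCoord.symm p) =
      J.indicator ENNReal.ofReal p.1 * I.indicator 1 p.2 := by
    intro p hp
    have h := Complex.polarCoord.right_inv (x := p) hp
    rw [Complex.polarCoord_apply, Prod.ext_iff] at h
    obtain ⟨k1, k2⟩ : ‖Complex.polarCoord.symm p‖ = p.1 ∧
      Complex.arg (Complex.polarCoord.symm p) = p.2 := h
    generalize Complex.polarCoord.symm p = z at k1 k2
    simp only [indicator, mem_ofPred_eq, k1, k2]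
    by_cases h1 : p.1 ∈ J <;> by_cases h2 : p.2 ∈ I <;> simp [h1, h2]
  rw [setLIntegral_congr_fun polarCoord.open_target.measurableSet e, polarCoord_target,
    Measure.volume_eq_prod, ← Measure.prod_restrict,
    lintegral_prod_mul (ENNReal.measurable_ofReal.indicator hJ).aemeasurable
      (measurable_one.indicator hI).aemeasurable,
    lintegral_indicator hJ, lintegral_indicator_one hI, Measure.restrict_restrict hJ,
    Measure.restrict_apply hI]

theorem lint_id {a b : ℝ} (ha : 0 ≤ a) (hab : a ≤ b) :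
    ∫⁻ r in Ioc a b, ENNReal.ofReal r = ENNReal.ofReal ((b ^ 2 - a ^ 2) / 2) := by
  rw [← integral_id, intervalIntegral.integral_of_le hab, ofReal_integral_eq_lintegral_ofReal]
  · exact (continuous_id.integrableOn_Icc).mono_set Ioc_subset_Icc_self
  · filter_upwards [ae_restrict_mem measurableSet_Ioc] with x hx using ha.trans hx.1.le

/-- open annular sector -/
def Sec (a b r s : ℝ) : Set ℂ := {w | ‖w‖ ∈ Ioo r s ∧ Complex.arg w ∈ Ioo a b}

/-- closed sector -/
def Fan (a b s : ℝ) : Set ℂ := {w | ‖w‖ ∈ Iic s ∧ Complex.arg w ∈ Icc a b}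

theorem meas_Sec (a b r s : ℝ) : MeasurableSet (Sec a b r s) :=
  (measurable_norm measurableSet_Ioo).inter (Complex.measurable_arg measurableSet_Ioo)

theorem meas_Fan (a b s : ℝ) : MeasurableSet (Fan a b s) :=
  (measurable_norm measurableSet_Iic).inter (Complex.measurable_arg measurableSet_Icc)

theorem vol_Sec {a b r s : ℝ} (ha : 0 ≤ a) (hab : a ≤ b) (hb : b ≤ π) (hr : 0 ≤ r) (hs : 0 ≤ s) :
    (b - a) * ((s ^ 2 - r ^ 2) / 2) ≤ volume.real (Sec a b r s) := by
  rcases le_total s r with h | h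
  · refine le_trans (mul_nonpos_of_nonneg_of_nonpos (by linarith) (by nlinarith))
      measureReal_nonneg
  have e0 : Ioo r s ∩ Ioi 0 = Ioo r s := inter_eq_left.2 fun x hx => lt_of_le_of_lt hr hx.1
  rw [Measure.real, Sec, vol_polar measurableSet_Ioo measurableSet_Ioo, e0,
    inter_eq_left.2 (Ioo_subset_Ioo (by linarith [pi_pos]) hb), setLIntegral_congr Ioo_ae_eq_Ioc,
    lint_id hr h, Real.volume_Ioo, ← ENNReal.ofReal_mul (by nlinarith),
    ENNReal.toReal_ofReal (mul_nonneg (by nlinarith) (by linarith)), mul_comm]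

theorem vol_Fan {a b s : ℝ} (hab : a ≤ b) (hs : 0 ≤ s) :
    volume.real (Fan a b s) ≤ (b - a) * (s ^ 2 / 2) := by
  rw [Measure.real, Fan, vol_polar measurableSet_Icc measurableSet_Iic, inter_comm (Iic s),
    Ioi_inter_Iic, lint_id le_rfl hs]
  refine ENNReal.toReal_le_of_le_ofReal (mul_nonneg (by linarith) (by positivity)) ?_
  rw [mul_comm (b - a), ENNReal.ofReal_mul (by positivity)]
  refine mul_le_mul' (le_of_eq (by norm_num)) ?_
  rw [← Real.volume_Icc]
  exact measure_mono inter_subset_left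

/-- The column lemma. -/
theorem column {U E D : Set ℂ} (hU : IsCompact U) (hE : MeasurableSet E) (hD : MeasurableSet D)
    {h h' : ℝ} (h0 : 0 ≤ h) (h0' : 0 ≤ h')
    (up : ∀ p ∈ U, ∀ t, 0 < t → t < h → p + t * Complex.I ∈ U ∪ E)
    (dn : ∀ p ∈ U, ∀ t, 0 < t → t < h' → p - t * Complex.I ∈ U ∪ E)
    (hDE : D ⊆ U ∪ E) (sl : ∀ x : ℝ, ∃ b : ℝ, ∀ z ∈ D, z.re = x → z.im ∈ Icc b (b + (h + h'))) :
    volume D ≤ volume E := by
  rw [vol_slices hE, vol_slices hD]
  refine lintegral_mono fun x => ?_
  have cont : Continuous fun y : ℝ => (⟨x, y⟩ : ℂ) := by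
    have : (fun y : ℝ => (⟨x, y⟩ : ℂ)) = fun y : ℝ => (x : ℂ) + y * Complex.I := by
      ext1 y; apply Complex.ext <;> simp
    rw [this]; fun_prop
  by_cases hne : {y : ℝ | (⟨x, y⟩ : ℂ) ∈ U}.Nonempty
  swap
  · refine measure_mono fun y hy => ?_
    rcases hDE hy with h1 | h1
    · exact absurd ⟨y, h1⟩ hne
    · exact h1
  have hc : IsCompact {y : ℝ | (⟨x, y⟩ : ℂ) ∈ U} := by
    refine (hU.image Complex.continuous_im).of_isClosed_subset (hU.isClosed.preimage cont) ?_
    exact fun y hy => ⟨_, hy, rfl⟩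
  obtain ⟨M, hM, hM'⟩ := hc.exists_isGreatest hne
  obtain ⟨m, hm, hm'⟩ := hc.exists_isLeast hne
  have mM : m ≤ M := hM' hm
  obtain ⟨b, hb⟩ := sl x
  calc volume {y : ℝ | (⟨x, y⟩ : ℂ) ∈ D} ≤ volume (Icc b (b + (h + h'))) :=
        measure_mono fun y hy => hb _ hy rfl
    _ = volume (Ioo M (M + h) ∪ Ioo (m - h') m) := by
        rw [measure_union _ measurableSet_Ioo, Real.volume_Icc, Real.volume_Ioo, Real.volume_Ioo,
          ← ENNReal.ofReal_add (by linarith) (by linarith)]
        · congr 1; ring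
        · exact Set.disjoint_left.2 fun y h1 h2 => by linarith [h1.1, h2.2]
    _ ≤ _ := by
        refine measure_mono ?_
        rintro y (hy | hy)
        · have := up _ hM (y - M) (by linarith [hy.1]) (by linarith [hy.2])
          have e : (⟨x, M⟩ : ℂ) + ((y - M : ℝ) : ℂ) * Complex.I = ⟨x, y⟩ := by
            apply Complex.ext <;> simp
          rw [e] at this
          rcases this with h1 | h1
          · exact absurd (hM' h1) (by linarith [hy.1])
          · exact h1
        · have := dn _ hm (m - y) (by linarith [hy.2]) (by linarith [hy.1])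
          have e : (⟨x, m⟩ : ℂ) - ((m - y : ℝ) : ℂ) * Complex.I = ⟨x, y⟩ := by
            apply Complex.ext <;> simp
          rw [e] at this
          rcases this with h1 | h1
          · exact absurd (hm' h1) (by linarith [hy.2])
          · exact h1

theorem vol_half (c : ℂ) {r : ℝ} (hr : 0 ≤ r) :
    π * r ^ 2 / 2 ≤ volume.real (ball c r ∩ {z | c.im ≤ z.im}) := by
  set H := ball c r ∩ {z : ℂ | c.im ≤ z.im} with hH
  have hf : volume H ≠ ⊤ := fin_of_sub inter_subset_left
  have e : volume {z : ℂ | z - 2 * c ∈ {w : ℂ | w * (-1) ∈ H}} = volume H := by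
    rw [vol_shift, vol_unit (by simp)]
  have : ball c r ⊆ H ∪ {z : ℂ | z - 2 * c ∈ {w : ℂ | w * (-1) ∈ H}} := by
    intro z hz
    rcases le_total c.im z.im with h | h
    · exact Or.inl ⟨hz, h⟩
    · refine Or.inr ⟨?_, ?_⟩
      · rw [mem_ball, Complex.dist_eq] at hz ⊢
        rwa [show (z - 2 * c) * (-1) - c = -(z - c) by ring, norm_neg]
      · simp
        linarith
  have h2 := (measureReal_mono this (measure_union_ne_top hf (by rwa [e]))).trans
    (measureReal_union_le _ _)
  rw [vball _ hr, Measure.real, Measure.real, e] at h2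
  rw [Measure.real]
  linarith

end Pool.Agent.Lib.MP_2af9b5_pr
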