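import Pool.Agent.Lib.MP_2af9b5_pr.Low

open MeasureTheory ProbabilityTheory Set Metric Real Filter Topology
open scoped ENNReal Classical

namespace Pool.Agent.Lib.MP_2af9b5_pr

/-- length scale -/
noncomputable def lg (n : ℝ) : ℝ := √(log n)

theorem tend_lg : Tendsto lg atTop atTop := tendsto_sqrt_atTop.comp tendsto_log_atTop

theorem ev_lg : ∀ᶠ n in atTop, 1 ≤ n ∧ 1 ≤ lg n ∧ lg n ^ 2 = log n ∧ √n = exp (1 / 2 * log n) := by
  filter_upwards [eventually_ge_atTop 1, tend_lg.eventually_ge_atTop 1] with n h1 h2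
  refine ⟨h1, h2, sq_sqrt (log_nonneg h1), ?_⟩
  rw [sqrt_eq_rpow, rpow_def_of_pos (by linarith), mul_comm]

theorem ev_sqrt (B : ℝ) : ∀ᶠ n in atTop, B * lg n ≤ √n := by
  filter_upwards [ev_lg, isLittleO_log_id_atTop.bound (show 0 < 1 / (B ^ 2 + 1) by positivity)]
    with n ⟨h1, h2, h3, _⟩ h
  refine le_sqrt_of_sq_le ?_
  rw [Real.norm_of_nonneg (log_nonneg h1), id, Real.norm_of_nonneg (by linarith), one_div,
    inv_mul_eq_div, le_div_iff₀ (by positivity)] at h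
  rw [mul_pow, h3]
  nlinarith [log_nonneg h1]

theorem van {f : ℝ → ℝ} (B : ℝ) {δ : ℝ} (hδ : δ < 0) (h0 : ∀ n, 0 ≤ f n)
    (h : ∀ᶠ n in atTop, f n ≤ B * exp (δ * log n)) : Tendsto f atTop (𝓝 0) := by
  refine squeeze_zero' (Eventually.of_forall h0) h ?_
  simpa using (tendsto_exp_atBot.comp (tendsto_log_atTop.const_mul_atTop_of_neg hδ)).const_mul B

theorem van2 {f a : ℝ → ℝ} {c t e α B B' : ℝ} (ht : 1 ≤ t) (hB' : 0 ≤ B')
    (hδ : α + e < c * log t) (h0 : ∀ n, 0 ≤ f n)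
    (ha : ∀ᶠ n in atTop, a n ≤ B * exp (α * log n))
    (h : ∀ᶠ n in atTop, f n ≤ a n * B' * (exp (e * log n) / t ^ ⌊c * log n⌋₊)) :
    Tendsto f atTop (𝓝 0) := by
  refine van (B * B' * t) (δ := α + e - c * log t) (by linarith) h0 ?_
  filter_upwards [ha, h] with n h1 h2
  have t0 : 0 < t := by linarith
  have B0 : 0 ≤ B * exp (α * log n) * B' := by
    by_contra hc
    have : a n * B' < 0 := lt_of_le_of_lt (by gcongr) (not_le.1 hc)
    have := mul_neg_of_neg_of_pos this (show 0 < exp (e * log n) / t ^ ⌊c * log n⌋₊ by positivity)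
    linarith [h0 n]
  have a1 : exp ((c * log n - 1) * log t) ≤ t ^ ⌊c * log n⌋₊ := by
    rw [← exp_log (show 0 < t ^ ⌊c * log n⌋₊ by positivity), log_pow, exp_le_exp]
    exact mul_le_mul_of_nonneg_right (Nat.sub_one_lt_floor _).le (log_nonneg ht)
  have a2 : a n * B' * (exp (e * log n) / t ^ ⌊c * log n⌋₊) ≤
      B * exp (α * log n) * B' * (exp (e * log n) / exp ((c * log n - 1) * log t)) :=
    mul_le_mul (by gcongr) (by gcongr) (by positivity) B0
  refine (h2.trans a2).trans (le_of_eq ?_)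
  rw [← exp_sub, show (α + e - c * log t) * log n =
    α * log n + (e * log n - (c * log n - 1) * log t) - log t by ring,
    exp_sub _ (log t), exp_add, exp_log t0]
  field_simp

theorem ev_one {τ : ℝ} (hτ : 0 < τ) :
    ∀ᶠ n in atTop, √n / (τ * lg n) + 2 ≤ (1 / τ + 2) * exp (1 / 2 * log n) := by
  filter_upwards [ev_lg] with n ⟨h1, h2, _, h4⟩
  have a1 : 1 ≤ √n := one_le_sqrt.2 h1
  have a2 : √n / (τ * lg n) ≤ √n / (τ * 1) := by gcongr
  rw [← h4, add_mul, div_mul_eq_mul_div, one_mul]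
  rw [mul_one] at a2
  linarith

theorem ev_two {τ : ℝ} (hτ : 0 < τ) :
    ∀ᶠ n in atTop, (√n / (τ * lg n) + 2) ^ 2 ≤ (1 / τ + 2) ^ 2 * exp (1 * log n) := by
  filter_upwards [ev_one hτ, ev_lg] with n h ⟨_, h2, _⟩
  refine (pow_le_pow_left₀ (by positivity) h 2).trans (le_of_eq ?_)
  rw [mul_pow, ← exp_nat_mul]
  congr 2
  push_cast
  ring

theorem ev_all {τ : ℝ} (hτ : 0 < τ) :
    ∀ᶠ n in atTop, ((allA (τ * lg n) n).card : ℝ) ≤ (1 / τ + 2) ^ 2 * exp (1 * log n) := by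
  filter_upwards [ev_two hτ, ev_lg] with n h ⟨_, h2, _⟩
  exact (card_allA (by positivity)).trans h

theorem ev_bd {τ K : ℝ} (hτ : 0 < τ) (hK : 0 ≤ K) : ∀ᶠ n in atTop,
    ((bdA (τ * lg n) n (K * lg n)).card : ℝ) ≤
      4 * (K / τ + 2) * (1 / τ + 2) * exp (1 / 2 * log n) := by
  filter_upwards [ev_one hτ, ev_lg] with n h ⟨_, h2, _⟩
  refine (card_bdA (by positivity) (by positivity)).trans ?_
  rw [mul_div_mul_right _ _ (by positivity), mul_assoc (4 * _)]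
  gcongr

theorem ev_co {τ K : ℝ} (hτ : 0 < τ) (hK : 0 ≤ K) : ∀ᶠ n in atTop,
    ((coA (τ * lg n) n (K * lg n)).card : ℝ) ≤ (2 * (K / τ + 2)) ^ 2 * exp (0 * log n) := by
  filter_upwards [ev_lg] with n ⟨_, h2, _⟩
  refine (card_coA (by positivity) (by positivity)).trans ?_
  rw [mul_div_mul_right _ _ (by positivity)]
  simp

theorem van_G1 {c L : ℝ} (hc : 0 ≤ c) (hL : 0 < L) (h : 1 + c < π * L ^ 2 / 128) :
    Tendsto (fun n => (PP n).real {ω | ¬G1 n ⌊c * log n⌋₊ (L * lg n) ω}) atTop (𝓝 0) := by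
  refine van ((1 / (L / 16) + 2) ^ 2) (δ := 1 + c - π * L ^ 2 / 128) (by linarith)
    (fun _ => measureReal_nonneg) ?_
  filter_upwards [ev_lg, ev_sqrt L, ev_two (show 0 < L / 16 by positivity)]
    with n ⟨h1, h2, h3, _⟩ h4 h5
  refine (G1_le _ (by positivity) h4).trans ?_
  have a1 : (2 : ℝ) ^ ⌊c * log n⌋₊ ≤ exp (c * log n) := by
    refine le_trans ?_ (exp_le_exp.2 (Nat.floor_le (mul_nonneg hc (log_nonneg h1))))
    rw [← mul_one (⌊c * log n⌋₊ : ℝ), exp_nat_mul]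
    gcongr
    linarith [add_one_le_exp 1]
  rw [show L * lg n / 16 = L / 16 * lg n by ring]
  refine (mul_le_mul h5 (mul_le_mul_of_nonneg_left a1 (exp_pos _).le) (by positivity)
    (by positivity)).trans (le_of_eq ?_)
  rw [mul_assoc, ← exp_add, ← exp_add, ← h3]
  congr 2
  ring

theorem van_G2 {c ρ : ℝ} (hρ : 0 < ρ) (h : 1 + 36 * π * ρ ^ 2 < c * log 5) :
    Tendsto (fun n => (PP n).real {ω | ¬G2 ⌊c * log n⌋₊ (ρ * lg n) ω}) atTop (𝓝 0) := by
  refine van2 (t := 5) (B' := 1) (by norm_num) zero_le_one h (fun _ => measureReal_nonneg)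
    (ev_two hρ) ?_
  filter_upwards [ev_lg] with n ⟨h1, h2, h3, _⟩
  refine (G2_le (t := 5) _ (by positivity) (by norm_num)).trans ?_
  rw [mul_one, ← h3, show (5 - 1) * (π * (3 * (ρ * lg n)) ^ 2) = 36 * π * ρ ^ 2 * lg n ^ 2 by ring]
  gcongr
  · norm_num
  · exact Nat.le_succ _

theorem van_Emp {ρ α B : ℝ} {m : ℕ} (R : ℕ) {A : ℝ → Finset (ℤ × ℤ)}
    (ha : ∀ᶠ n in atTop, ((A n).card : ℝ) ≤ B * exp (α * log n)) (h : α < m * π * ρ ^ 2 / 256) :
    Tendsto (fun n => (PP n).real (Emp n (ρ * lg n) m R (A n))) atTop (𝓝 0) := by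
  refine van2 (t := 1) (c := 0) (e := -(m * π * ρ ^ 2 / 256)) (B' := ((2 * R + 1) ^ 2) ^ m) le_rfl
    (by positivity) (by linarith) (fun _ => measureReal_nonneg) ha ?_
  filter_upwards [ev_lg] with n ⟨h1, h2, h3, _⟩
  refine (Emp_le _ _ _ _ _).trans (le_of_eq ?_)
  rw [one_pow, div_one, ← h3]
  congr 2
  ring

theorem van_Sink {c τ t α B : ℝ} (R P : ℕ) {A : ℝ → Finset (ℤ × ℤ)} (ht : 1 ≤ t)
    (ha : ∀ᶠ n in atTop, ((A n).card : ℝ) ≤ B * exp (α * log n))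
    (h : α + 104 * π * (P + 2) * τ ^ 2 < c * log t) :
    Tendsto (fun n => (PP n).real (SinkEv n (τ * lg n) t (104 * π * (P + 2) * (τ * lg n) ^ 2)
      ⌊c * log n⌋₊ R P (A n))) atTop (𝓝 0) := by
  refine van2 (B' := ((2 * R + 1) ^ 2) ^ 4 * (P + 1) ^ 4 * 64) ht (by positivity) h
    (fun _ => measureReal_nonneg) ha ?_
  filter_upwards [ev_lg] with n ⟨h1, h2, h3, _⟩
  refine (SinkEv_le _ _ ht _ _ _ _ _).trans (le_of_eq ?_)
  rw [mul_pow τ, h3, ← mul_assoc _ (τ ^ 2)]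

theorem van_Large {c τ t E T α B : ℝ} (R : ℕ) {A : ℝ → Finset (ℤ × ℤ)} (ht : 1 ≤ t)
    (ha : ∀ᶠ n in atTop, ((A n).card : ℝ) ≤ B * exp (α * log n))
    (h : α + 60 * E * τ * (T + 4 * τ) < c * log t) :
    Tendsto (fun n => (PP n).real (LargeEv n (τ * lg n) t
      (60 * E * (τ * lg n) * (T * lg n + 4 * (τ * lg n))) ⌊c * log n⌋₊ R (A n))) atTop (𝓝 0) := by
  refine van2 (B' := (2 * R + 1) ^ 2 * 2 ^ (2 * R + 1) ^ 2) ht (by positivity) h
    (fun _ => measureReal_nonneg) ha ?_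
  filter_upwards [ev_lg] with n ⟨h1, h2, h3, _⟩
  refine (LargeEv_le _ _ ht _ _ _ _).trans (le_of_eq ?_)
  rw [show 60 * E * (τ * lg n) * (T * lg n + 4 * (τ * lg n)) =
    60 * E * τ * (T + 4 * τ) * lg n ^ 2 by ring, h3]

theorem log_big : 2.74 / Vc ≤ log (1 + 2 * π / Vc) := by
  have v0 := Vc_pos
  rw [le_log_iff_exp_le (by positivity)]
  have h1 : exp 1.4733 ≤ 4.37 := by
    have a := Real.exp_bound' (x := 0.4733) (by norm_num) (by norm_num) (n := 4) (by norm_num)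
    simp only [Finset.sum_range_succ, Finset.range_zero, Finset.sum_empty, Nat.factorial] at a
    rw [show (1.4733 : ℝ) = 1 + 0.4733 by norm_num, exp_add]
    refine (mul_le_mul exp_one_lt_d9.le a (exp_pos _).le (by norm_num)).trans (by norm_num)
  have h2 : 2.74 / Vc / 1.4733 ≤ 1 := by
    rw [div_div, div_le_one (by positivity)]
    linarith [Vc_ge]
  have h3 := convexOn_exp.2 (mem_univ 0) (mem_univ 1.4733) (sub_nonneg.2 h2)
    (show 0 ≤ 2.74 / Vc / 1.4733 by positivity) (by ring)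
  simp only [smul_eq_mul, mul_zero, zero_add, exp_zero, mul_one] at h3
  rw [div_mul_cancel₀ _ (by norm_num)] at h3
  have h4 := mul_le_mul_of_nonneg_left h1 (show 0 ≤ 2.74 / Vc / 1.4733 by positivity)
  have h5 : 2 * 3.14 / Vc ≤ 2 * π / Vc := by gcongr; exact pi_gt_d2.le
  have h6 : 0 < 1 / Vc := by positivity
  simp only [div_eq_mul_inv] at *
  linarith

theorem log_big' : 1.37 / Vc ≤ log (1 + π / Vc) := by
  have v0 := Vc_pos
  have h1 : log (1 + 2 * π / Vc) ≤ log ((1 + π / Vc) ^ 2) := by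
    gcongr
    rw [mul_div_assoc]
    nlinarith [sq_nonneg (π / Vc)]
  rw [log_pow] at h1
  have := log_big
  simp only [div_eq_mul_inv] at *
  push_cast at h1
  linarith

theorem log45 : 1.386 ≤ log 4 ∧ 1.586 ≤ log 5 := by
  have h1 : log 4 = 2 * log 2 := by rw [show (4 : ℝ) = 2 ^ 2 by norm_num, log_pow]; norm_num
  have h2 := one_sub_inv_le_log_of_pos (show (0 : ℝ) < 5 / 4 by norm_num)
  rw [log_div (by norm_num) (by norm_num)] at h2
  constructor <;> linarith [log_two_gt_d9]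

end Pool.Agent.Lib.MP_2af9b5_pr
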