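import Pool.Agent.Lib.MP_2af9b5_pr.Defs

open MeasureTheory ProbabilityTheory Set
open scoped ENNReal Classical

namespace Pool.Agent.Lib.MP_2af9b5_pr

abbrev Cf := Multiset ℂ

/-- restriction of a configuration -/
noncomputable def res (B : Set ℂ) (ω : Cf) : Cf := ω.filter (· ∈ B)

/-- number of points in a set -/
noncomputable def N (B : Set ℂ) (ω : Cf) : ℕ := Multiset.card (res B ω)

@[simp] theorem mem_res {B : Set ℂ} {ω : Cf} {x : ℂ} : x ∈ res B ω ↔ x ∈ ω ∧ x ∈ B := by
  simp [res]

@[simp] theorem res_zero (B : Set ℂ) : res B 0 = 0 := by simp [res]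
@[simp] theorem N_zero (B : Set ℂ) : N B 0 = 0 := by simp [N]

theorem res_add (B : Set ℂ) (ω ω' : Cf) : res B (ω + ω') = res B ω + res B ω' := by
  simp [res]

theorem N_add (B : Set ℂ) (ω ω' : Cf) : N B (ω + ω') = N B ω + N B ω' := by
  simp [N, res_add]

theorem res_cons_mem {B : Set ℂ} {x : ℂ} (h : x ∈ B) (ω : Cf) :
    res B (x ::ₘ ω) = x ::ₘ res B ω := by
  simp [res, Multiset.filter_cons_of_pos, h]

theorem res_cons_not {B : Set ℂ} {x : ℂ} (h : x ∉ B) (ω : Cf) :
    res B (x ::ₘ ω) = res B ω := by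
  simp [res, Multiset.filter_cons_of_neg, h]

theorem N_cons (B : Set ℂ) (x : ℂ) (ω : Cf) :
    N B (x ::ₘ ω) = (if x ∈ B then 1 else 0) + N B ω := by
  by_cases h : x ∈ B
  · simp [N, res_cons_mem h, h, add_comm]
  · simp [N, res_cons_not h, h]

theorem res_res (B C : Set ℂ) (ω : Cf) : res B (res C ω) = res (B ∩ C) ω := by
  simp only [res, Multiset.filter_filter]
  congr 1

theorem N_res (B C : Set ℂ) (ω : Cf) : N B (res C ω) = N (B ∩ C) ω := by
  simp [N, res_res]

theorem res_add_compl (B : Set ℂ) (ω : Cf) : res B ω + res Bᶜ ω = ω := by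
  induction ω using Multiset.induction_on with
  | empty => simp
  | cons x ω ih =>
    by_cases h : x ∈ B
    · rw [res_cons_mem h, res_cons_not (by simpa using h), Multiset.cons_add, ih]
    · rw [res_cons_not h, res_cons_mem (by simpa using h), Multiset.add_cons, ih]

theorem res_eq_self {B : Set ℂ} {ω : Cf} (h : ∀ x ∈ ω, x ∈ B) : res B ω = ω := by
  simpa [res, Multiset.filter_eq_self] using h

theorem res_eq_zero {B : Set ℂ} {ω : Cf} : res B ω = 0 ↔ ∀ x ∈ ω, x ∉ B := by
  simp [res, Multiset.filter_eq_nil]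

theorem N_eq_zero {B : Set ℂ} {ω : Cf} : N B ω = 0 ↔ ∀ x ∈ ω, x ∉ B := by
  simp [N, res_eq_zero]

theorem res_congr {B C : Set ℂ} {ω : Cf} (h : ∀ x ∈ ω, x ∈ B ↔ x ∈ C) : res B ω = res C ω := by
  simp only [res]
  exact Multiset.filter_congr h

theorem N_mono {B C : Set ℂ} {ω : Cf} (h : ∀ x ∈ ω, x ∈ B → x ∈ C) : N B ω ≤ N C ω := by
  have : res B ω = res B (res C ω) := by
    rw [res_res]
    exact res_congr fun x hx => ⟨fun hb => ⟨hb, h x hx hb⟩, fun hb => hb.1⟩
  unfold N
  rw [this]
  exact Multiset.card_le_card (Multiset.filter_le _ _)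

theorem N_mono' {B C : Set ℂ} (ω : Cf) (h : B ⊆ C) : N B ω ≤ N C ω := N_mono fun _ _ hx => h hx

theorem N_le {B : Set ℂ} {ω ω' : Cf} (h : ω ≤ ω') : N B ω ≤ N B ω' :=
  Multiset.card_le_card (Multiset.filter_le_filter _ h)

theorem res_le (B : Set ℂ) (ω : Cf) : res B ω ≤ ω := Multiset.filter_le _ _

theorem N_union {B C : Set ℂ} (h : Disjoint B C) (ω : Cf) : N (B ∪ C) ω = N B ω + N C ω := by
  induction ω using Multiset.induction_on with
  | empty => simp
  | cons x ω ih =>
    simp only [N_cons, ih, mem_union]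
    by_cases hb : x ∈ B
    · have : x ∉ C := fun hc => Set.disjoint_left.1 h hb hc
      simp [hb, this]; omega
    · by_cases hc : x ∈ C <;> simp [hb, hc]; omega

theorem N_pos {B : Set ℂ} {ω : Cf} (h : 0 < N B ω) : ∃ x ∈ ω, x ∈ B := by
  by_contra hc
  push Not at hc
  have := N_eq_zero.2 hc
  omega

theorem N_map (f : ℂ → ℂ) (B : Set ℂ) (ω : Cf) : N B (ω.map f) = N (f ⁻¹' B) ω := by
  induction ω using Multiset.induction_on with
  | empty => simp
  | cons x ω ih => simp only [Multiset.map_cons, N_cons, ih, mem_preimage]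

noncomputable instance instMeasurableSpaceCf : MeasurableSpace Cf :=
  ⨆ (B : Set ℂ) (_ : MeasurableSet B), (inferInstance : MeasurableSpace ℕ).comap (N B)

theorem meas_N {B : Set ℂ} (hB : MeasurableSet B) : Measurable (N B) := by
  apply Measurable.of_comap_le
  exact le_iSup₂_of_le (f := fun (B : Set ℂ) (_ : MeasurableSet B) =>
    (inferInstance : MeasurableSpace ℕ).comap (N B)) B hB le_rfl

theorem meas_cf {α : Type*} [MeasurableSpace α] {f : α → Cf}
    (h : ∀ B, MeasurableSet B → Measurable fun a => N B (f a)) : Measurable f := by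
  rw [measurable_iff_comap_le]
  simp only [instMeasurableSpaceCf, MeasurableSpace.comap_iSup, iSup_le_iff,
    MeasurableSpace.comap_comp]
  intro B hB
  exact (h B hB).comap_le

/-- counting measure of a configuration -/
noncomputable def cm (ω : Cf) : Measure ℂ := (ω.map Measure.dirac).sum

theorem cm_apply (ω : Cf) (B : Set ℂ) : cm ω B = N B ω := by
  induction ω using Multiset.induction_on with
  | empty => simp [cm]
  | cons x ω ih =>
    have : cm (x ::ₘ ω) = Measure.dirac x + cm ω := by simp [cm]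
    rw [this, Measure.add_apply, ih, N_cons, Measure.dirac_apply]
    by_cases h : x ∈ B <;> simp [h]

theorem meas_Np {α : Type*} [MeasurableSpace α] {w : α → Cf} (hw : Measurable w)
    {s : Set (α × ℂ)} (hs : MeasurableSet s) :
    Measurable fun a => N {x | (a, x) ∈ s} (w a) := by
  let κ : Kernel α ℂ := ⟨fun a => cm (w a), by
    refine Measure.measurable_of_measurable_coe _ fun B hB => ?_
    simp only [cm_apply]
    exact (measurable_from_top (f := fun n : ℕ => (n : ℝ≥0∞))).comp ((meas_N hB).comp hw)⟩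
  have hfin : ∀ a, IsFiniteMeasure (κ a) := fun a =>
    ⟨by change cm (w a) univ < ⊤; rw [cm_apply]; exact ENNReal.natCast_lt_top _⟩
  have h := Kernel.measurable_kernel_prodMk_left_of_finite (κ := κ) hs hfin
  have h2 : Measurable fun a => ((N {x | (a, x) ∈ s} (w a) : ℕ) : ℝ≥0∞) := by
    convert h using 2 with a
    change _ = cm (w a) _
    rw [cm_apply]
    rfl
  refine measurable_to_countable' fun m => ?_
  have := h2 (measurableSet_singleton (m : ℝ≥0∞))
  convert this using 1
  ext a
  simp

theorem meas_cons {α : Type*} [MeasurableSpace α] {f : α → ℂ} {w : α → Cf} (hf : Measurable f)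
    (hw : Measurable w) : Measurable fun a => f a ::ₘ w a := by
  refine meas_cf fun B hB => ?_
  simp only [N_cons]
  exact (Measurable.ite (hf hB) measurable_const measurable_const).add ((meas_N hB).comp hw)

theorem meas_add {α : Type*} [MeasurableSpace α] {v w : α → Cf} (hv : Measurable v)
    (hw : Measurable w) : Measurable fun a => v a + w a := by
  refine meas_cf fun B hB => ?_
  simp only [N_add]
  exact ((meas_N hB).comp hv).add ((meas_N hB).comp hw)

theorem meas_resp {α : Type*} [MeasurableSpace α] {w : α → Cf} (hw : Measurable w)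
    {s : Set (α × ℂ)} (hs : MeasurableSet s) :
    Measurable fun a => res {x | (a, x) ∈ s} (w a) := by
  refine meas_cf fun B hB => ?_
  simp only [N_res]
  exact meas_Np hw (s := Prod.snd ⁻¹' B ∩ s) ((measurable_snd hB).inter hs)

theorem meas_res {R : Set ℂ} (hR : MeasurableSet R) : Measurable (res R) := by
  refine meas_cf fun B hB => ?_
  simp only [N_res]
  exact meas_N (hB.inter hR)

theorem meas_forall {α : Type*} [MeasurableSpace α] {w : α → Cf} (hw : Measurable w)
    {s : Set (α × ℂ)} (hs : MeasurableSet s) :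
    MeasurableSet {a | ∀ x ∈ w a, (a, x) ∈ s} := by
  have := meas_Np hw hs.compl (measurableSet_singleton 0)
  convert this using 1
  ext a
  simp [N_eq_zero]

theorem meas_exists {α : Type*} [MeasurableSpace α] {w : α → Cf} (hw : Measurable w)
    {s : Set (α × ℂ)} (hs : MeasurableSet s) :
    MeasurableSet {a | ∃ x ∈ w a, (a, x) ∈ s} := by
  have := (meas_forall hw hs.compl).compl
  convert this using 1
  ext a
  simp

theorem meas_nodup : MeasurableSet {ω : Cf | ω.Nodup} := by
  have h1 : Measurable fun p : Cf × ℂ => N {y | (p, y) ∈ {q : (Cf × ℂ) × ℂ | q.2 = q.1.2}} p.1 :=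
    meas_Np measurable_fst (measurableSet_eq_fun measurable_snd measurable_fst.snd)
  have h2 := meas_forall (w := fun ω : Cf => ω) measurable_id (h1 (measurableSet_Iic (a := 1)))
  convert h2 using 1
  ext ω
  simp only [mem_ofPred_eq, Multiset.nodup_iff_count_le_one, mem_preimage, mem_Iic]
  have : ∀ x, N {y | y = x} ω = ω.count x := by
    intro x
    simp only [N, res, mem_ofPred_eq, Multiset.count_eq_card_filter_eq]
    congr 1
    exact Multiset.filter_congr fun y _ => eq_comm
  simp only [this]
  refine ⟨fun h x _ => h x, fun h x => ?_⟩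
  by_cases hx : x ∈ ω
  · exact h x hx
  · simp [Multiset.count_eq_zero_of_notMem hx]

end Pool.Agent.Lib.MP_2af9b5_pr
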