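import Pool.Agent.Lib.MP_2af9b5_pr.Small

open MeasureTheory ProbabilityTheory Set Metric Real
open scoped ENNReal Classical

namespace Pool.Agent.Lib.MP_2af9b5_pr

theorem one_le_N {B : Set ℂ} {ω : Cf} {x : ℂ} (h : x ∈ ω) (h' : x ∈ B) : 1 ≤ N B ω :=
  Nat.one_le_iff_ne_zero.2 fun hc => N_eq_zero.1 hc x h h'

/-- no near point sends an edge to the marked point -/
def Zev (k : ℕ) (Lr : ℝ) : Set (ℂ × Cf) :=
  {p | ∀ y ∈ p.2, y ≠ p.1 → dist y p.1 < Lr → k + 1 ≤ N (ball y (dist y p.1)) p.2}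

theorem meas_Zev (k : ℕ) (Lr : ℝ) : MeasurableSet (Zev k Lr) := by
  have h1 : Measurable fun q : (ℂ × Cf) × ℂ =>
      N {z | (q, z) ∈ {r : ((ℂ × Cf) × ℂ) × ℂ | dist r.2 r.1.2 < dist r.1.2 r.1.1.1}} q.1.2 :=
    meas_Np (by fun_prop) (measurableSet_lt (by fun_prop) (by fun_prop))
  refine meas_forall (w := Prod.snd) measurable_snd
    (s := {q : (ℂ × Cf) × ℂ | q.2 ≠ q.1.1 → dist q.2 q.1.1 < Lr →
      k + 1 ≤ N (ball q.2 (dist q.2 q.1.1)) q.1.2}) ?_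
  refine MeasurableSet.imp (measurableSet_eq_fun (by fun_prop) (by fun_prop)).compl
    (MeasurableSet.imp (measurableSet_lt (by fun_prop) (by fun_prop)) ?_)
  exact measurableSet_le measurable_const h1

/-- expected number of marked points -/
noncomputable def EZ (n : ℝ) (k : ℕ) (Lr : ℝ) : ℝ≥0∞ :=
  ∫⁻ x, PP n {ω | (x, ω) ∈ Zev k Lr} ∂mu n

theorem EZ_fin (n : ℝ) (k : ℕ) (Lr : ℝ) : EZ n k Lr ≠ ⊤ := by
  refine ne_top_of_le_ne_top (measure_ne_top (mu n) univ) ?_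
  rw [← one_mul (mu n univ), ← lintegral_const]
  exact lintegral_mono fun x => MeasureTheory.prob_le_one

/-- comparison event -/
def CmpEv (n κ Lr : ℝ) (k : ℕ) (L G : Set ℂ) : Set Cf :=
  {ω | (MeasurableSet L ∧ MeasurableSet G ∧ Disjoint L G ∧ 0 ∈ L ∧ volume L ≠ ⊤ ∧
      volume.real L + κ ≤ volume.real G) ∧
    ∃ x ∈ ω, (∀ g ∈ G, x + g ∈ sq n) ∧ N {z | z - x ∈ G} ω = 0 ∧
      ∀ ζ : Cf, (∀ y ∈ ζ, y - x ∈ G) → (x, res {z | z - x ∈ L}ᶜ ω + ζ) ∈ Zev k Lr}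

theorem CmpEv_le (n κ Lr : ℝ) (k : ℕ) (L G : Set ℂ) :
    (PP n).real (CmpEv n κ Lr k L G) ≤ exp (-κ) * (EZ n k Lr).toReal := by
  by_cases h : MeasurableSet L ∧ MeasurableSet G ∧ Disjoint L G ∧ 0 ∈ L ∧ volume L ≠ ⊤ ∧
      volume.real L + κ ≤ volume.real G
  swap
  · simp only [CmpEv, h, false_and, ofPred_false, measureReal_empty]
    positivity
  refine (measureReal_mono (fun ω hω => hω.2) (measure_ne_top _ _)).trans ?_
  obtain ⟨h1, h2, h3, h4, h5, h6⟩ := h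
  refine (ENNReal.toReal_mono (ENNReal.mul_ne_top ENNReal.ofReal_ne_top (EZ_fin n k Lr))
    (compare_le n h1 h2 h3 h4 h5 (meas_Zev k Lr))).trans ?_
  rw [ENNReal.toReal_mul, ENNReal.toReal_ofReal (exp_pos _).le]
  gcongr
  linarith

theorem mem_CmpEv {n κ Lr : ℝ} {k : ℕ} {L G A : Set ℂ} {ω : Cf} {x : ℂ}
    (h : MeasurableSet L ∧ MeasurableSet G ∧ Disjoint L G ∧ 0 ∈ L ∧ volume L ≠ ⊤ ∧
      volume.real L + κ ≤ volume.real G) (hA : Src k A ω) (hx : x ∈ ω) (hx' : x ∈ A)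
    (h1 : ∀ g ∈ G, x + g ∈ sq n) (h2 : ∀ p ∈ ω, p ∉ A → p - x ∉ L) (h3 : ∀ p ∈ ω, p - x ∉ G)
    (h4 : ∀ y, y - x ∈ G ∨ (y ∈ ω ∧ y ∈ A ∧ y - x ∉ L) →
      k ≤ N (ball y (dist y x)) (res Aᶜ ω)) : ω ∈ CmpEv n κ Lr k L G := by
  refine ⟨h, x, hx, h1, N_eq_zero.2 h3, fun ζ hζ y hy hne _ => ?_⟩
  have m : y ∈ ball y (dist y x) := mem_ball_self (dist_pos.2 hne)
  have a1 : N (ball y (dist y x)) (res Aᶜ ω) ≤ N (ball y (dist y x)) (res {z | z - x ∈ L}ᶜ ω) := by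
    rw [N_res, N_res]
    exact N_mono fun p hp hp' => ⟨hp'.1, h2 p hp hp'.2⟩
  simp only [N_add]
  rcases Multiset.mem_add.1 hy with hy | hy
  · obtain ⟨y1, y2⟩ := mem_res.1 hy
    by_cases y3 : y ∈ A
    · have a2 := h4 y (Or.inr ⟨y1, y3, y2⟩)
      have a3 := one_le_N (B := {y}) y1 rfl
      have a4 := N_union (B := ball y (dist y x) ∩ Aᶜ) (C := {y}) (by simp [y3]) ω
      have a5 : N (ball y (dist y x) ∩ Aᶜ ∪ {y}) ω ≤ N (ball y (dist y x) ∩ {z | z - x ∈ L}ᶜ) ω :=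
        N_mono fun p hp hp' => by
          rcases hp' with hp' | rfl
          exacts [⟨hp'.1, h2 p hp hp'.2⟩, ⟨m, y2⟩]
      rw [N_res] at a2 ⊢
      omega
    · have := hA.out y1 y3 hx hx'
      omega
  · have a2 := h4 y (Or.inl (hζ y hy))
    have a3 := one_le_N hy m
    omega

theorem mem_tiny {n Lr M : ℝ} {k : ℕ} {A : Set ℂ} {ω : Cf} {x : ℂ} (hA : Src k A ω) (hx : x ∈ ω)
    (hx' : x ∈ A) (hM : 0 ≤ M) (h1 : ∀ a ∈ ω, a ∈ A → dist a x ≤ M)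
    (h2 : ∀ p ∈ ω, p ∉ A → M < dist p x) : ω ∈ CmpEv n (-(π * M ^ 2)) Lr k (closedBall 0 M) ∅ := by
  refine mem_CmpEv ⟨measurableSet_closedBall, .empty, by simp, by simpa,
    measure_closedBall_lt_top.ne, by simp [vcball _ hM]⟩ hA hx hx' (by simp) ?_ (by simp) ?_
  · intro p hp hp'
    simpa [← Complex.dist_eq] using h2 p hp hp'
  · rintro y (h | ⟨y1, y2, y3⟩)
    · exact absurd h (notMem_empty _)
    · exact absurd (by simpa [← Complex.dist_eq] using h1 y y1 y2) y3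

/-- the event of a small source -/
def SmallEv (n τ κ Lr : ℝ) (k Nn P Q : ℕ) : Set Cf :=
  ⋃ l ∈ (Finset.univ : Finset (Fin 4)) ×ˢ mF Nn P Q,
    CmpEv n κ Lr k {w | w * dr l.1 ∈ mL τ l.2} {w | w * dr l.1 ∈ mG τ l.2}

theorem SmallEv_le (n τ κ Lr : ℝ) (k Nn P Q : ℕ) :
    (PP n).real (SmallEv n τ κ Lr k Nn P Q) ≤
      4 * ((P + 1) * (3 * (Q + 1) ^ 2) ^ Nn) * (exp (-κ) * (EZ n k Lr).toReal) := by
  refine (measureReal_biUnion_finset_le _ _).trans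
    ((Finset.sum_le_card_nsmul _ _ _ fun i _ => CmpEv_le _ _ _ _ _ _).trans (le_of_eq ?_))
  simp [card_mF]

theorem ph_add (j : Fin 4) (z w : ℂ) : ph j (z + w) = ph j z + ph j w := by
  fin_cases j <;> simp [ph] <;> ring

theorem ph_sub (j : Fin 4) (z w : ℂ) : ph j (z - w) = ph j z - ph j w := by
  fin_cases j <;> simp [ph] <;> ring

theorem exists_dr (j : Fin 4) : ∃ e, ∀ z, (z * dr e).im = ph j z := by
  fin_cases j
  exacts [⟨1, by simp [dr, ph]⟩, ⟨0, by simp [dr, ph]⟩, ⟨3, by simp [dr, ph]⟩,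
    ⟨2, by simp [dr, ph]⟩]

theorem mem_SmallEv {n τ σ C d d0 Lr : ℝ} {k Nn P Q : ℕ} {A : Set ℂ} {ω : Cf} {x u : ℂ}
    {j : Fin 4} (hS : ∀ x ∈ ω, x ∈ sq n) (g1 : G1 n k Lr ω) (hA : Src k A ω) (hx : x ∈ ω)
    (hx' : x ∈ A) (hj : ∀ a ∈ ω, a ∈ A → ph j x ≤ ph j a)
    (av : ∀ i, i ≠ j + 2 → ph i x + 3 * C ≤ √n / 2) (hu : u ∈ ω) (hu' : u ∈ A)
    (hu2 : ∀ a ∈ ω, a ∈ A → dist a x ≤ dist u x) (hσ : σ / 2 ≤ dist u x) (hσ' : dist u x ≤ σ)
    (hd : ∀ p ∈ ω, p ∉ A → ∀ a ∈ ω, a ∈ A → d ≤ dist p a) (h35 : 0.35 * dist u x ≤ d)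
    (hd0 : d0 ≤ d) (hk : 1 ≤ k) (hN : 0 < Nn) (hτ : 0 < τ) (hL : 0 ≤ Lr)
    (hδ1 : 8 * C ^ 2 * (π / Nn) ≤ τ * d0) (hδ2 : π / Nn ≤ 0.0025) (hτC : 2 * τ ≤ C)
    (hτd : 4 * τ ≤ d0) (hσC : σ + Lr ≤ C) (hP : C ≤ P * τ) (hQ : σ ≤ Q * τ) :
    ω ∈ SmallEv n τ (0.000018 * σ * d0 - 24 * C * τ) Lr k Nn P Q := by
  obtain ⟨e, he⟩ := exists_dr j
  have c0 : dr e ≠ 0 := norm_ne_zero_iff.1 (by simp [norm_dr])
  set f : ℂ → ℂ := fun z => (z - x) * dr e with hf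
  have f1 : ∀ z w, dist (f z) (f w) = dist z w := fun z w => by
    simp only [hf, Complex.dist_eq, ← sub_mul, norm_mul, norm_dr, mul_one, sub_sub_sub_cancel_right]
  have f2 : ∀ z, ‖f z‖ = dist z x := fun z => by
    simp only [hf, Complex.dist_eq, norm_mul, norm_dr, mul_one]
  have f3 : ∀ z r (ζ : Cf), N (ball (f z) r) (ζ.map f) = N (ball z r) ζ := fun z r ζ => by
    rw [N_map]
    congr 1
    ext w
    simp only [mem_preimage, mem_ball, f1]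
  have inS : ∀ g : ℂ, 0 ≤ (g * dr e).im → ‖g * dr e‖ ≤ 3 * C → x + g ∈ sq n := by
    intro g h1 h2
    rw [norm_mul, norm_dr, mul_one] at h2
    refine mem_sq.2 fun i => ?_
    by_cases h : i = j + 2
    · have := mem_sq.1 (hS x hx) i
      rw [he] at h1
      rw [h, ph_opp] at this ⊢
      rw [ph_add]
      linarith
    · have := ph_le i (x + g) x
      rw [dist_self_add_left] at this
      linarith [av i h]
  have σ0 : 0 ≤ σ := dist_nonneg.trans hσ'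
  obtain ⟨l, l0, l1, l2, l3, l4, l5, l6, l7, l8⟩ := small_norm (k := k) (Nn := Nn) (P := P) (Q := Q)
    (τ := τ) (σ := σ) (C := C) (d := d) (d0 := d0) (A := (res A ω).map f) (O := (res Aᶜ ω).map f)
    (u := f u) hk hN hτ (Multiset.mem_map.2 ⟨x, by simp [hx, hx'], by simp [hf]⟩)
    (by
      simp only [Multiset.forall_mem_map_iff, mem_res, hf, he, ph_sub]
      exact fun a ha => by linarith [hj a ha.1 ha.2])
    (Multiset.mem_map_of_mem _ (by simp [hu, hu']))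
    (by simpa only [Multiset.forall_mem_map_iff, mem_res, f2, and_imp] using hu2)
    (by rwa [f2]) (by rwa [f2])
    (by simpa only [Multiset.forall_mem_map_iff, mem_res, f1, and_imp, mem_compl_iff] using hd)
    (by rwa [f2]) hd0
    (by
      simp only [Multiset.forall_mem_map_iff, mem_res, f1, f3, and_imp]
      exact fun p h1 h2 a h3 h4 => hA.out h1 h2 h3 h4)
    (by
      intro φ hφ
      have e1 : (C * ex φ / dr e) * dr e = C * ex φ := div_mul_cancel₀ _ c0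
      have e2 : f (x + C * ex φ / dr e) = C * ex φ := by simp only [hf, add_sub_cancel_left, e1]
      have e3 : ‖(C : ℂ) * ex φ‖ = C := by
        rw [norm_mul, norm_ex, Complex.norm_real, Real.norm_of_nonneg (by linarith), mul_one]
      have a1 := g1 _ (inS _ (by
        rw [e1, Complex.im_ofReal_mul, ex, Complex.exp_ofReal_mul_I_im]
        exact mul_nonneg (by linarith) (sin_nonneg_of_mem_Icc hφ)) (by rw [e1, e3]; linarith))
      rw [dk, ← e2, f3, N_res]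
      refine (Nat.le_succ k).trans (a1.trans (N_mono fun p hp h =>
        ⟨ball_subset_ball (by linarith) h, fun hc => ?_⟩))
      have a2 := f2 (x + C * ex φ / dr e)
      rw [e2, e3] at a2
      linarith [dist_triangle_left (x + C * ex φ / dr e) x p, mem_ball.1 h, hu2 p hp hc])
    hδ1 hδ2 hτC hτd (by linarith) hP hQ
  refine mem_iUnion₂.2 ⟨(e, l), by simpa using l0, mem_CmpEv ⟨(measurable_mul_const _) (meas_mL _ _),
    (measurable_mul_const _) (meas_mG _ _), l1.preimage _, by simpa using l2, ?_, ?_⟩ hA hx hx'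
    (fun g hg => inS g (l8 _ hg).1 (l8 _ hg).2)
    (fun p h1 h2 => l4 _ (Multiset.mem_map_of_mem f (by simp [h1, h2]))) (fun p h1 => ?_)
    fun y hy => ?_⟩
  · rw [vol_unit (norm_dr e)]; exact fin_mL _ _
  · simpa only [Measure.real, vol_unit (norm_dr e)] using l3
  · by_cases h2 : p ∈ A
    · exact l6 _ (Multiset.mem_map_of_mem f (by simp [h1, h2]))
    · exact l5 _ (Multiset.mem_map_of_mem f (by simp [h1, h2]))
  · rw [← f3, ← f2]
    refine l7 _ (hy.imp id fun h => ⟨Multiset.mem_map_of_mem f (by simp [h.1, h.2.1]), h.2.2⟩)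

end Pool.Agent.Lib.MP_2af9b5_pr
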