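import Pool.Agent.Lib.MP_2af9b5_pr.Cmp

open MeasureTheory ProbabilityTheory Set Metric Real
open scoped ENNReal Classical

namespace Pool.Agent.Lib.MP_2af9b5_pr

theorem side_cases {n K : ℝ} (z : ℂ) (hK : K ≤ √n / 2) :
    (∀ j, ph j z + K ≤ √n / 2) ∨
    (∃ e, (∀ j, j ≠ e → ph j z + K ≤ √n / 2) ∧ (√n / 2 - K ≤ |z.re| ∨ √n / 2 - K ≤ |z.im|)) ∨
    (√n / 2 - K ≤ |z.re| ∧ √n / 2 - K ≤ |z.im|) := by
  rcases le_or_gt (√n / 2 - K) |z.re| with h1 | h1 <;>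
    rcases le_or_gt (√n / 2 - K) |z.im| with h2 | h2
  · exact Or.inr (Or.inr ⟨h1, h2⟩)
  · obtain ⟨a, b⟩ := abs_lt.1 h2
    rcases le_total 0 z.re with h | h
    · refine Or.inr (Or.inl ⟨0, fun j hj => ?_, Or.inl h1⟩)
      fin_cases j <;> simp [ph] at hj ⊢ <;> linarith
    · refine Or.inr (Or.inl ⟨2, fun j hj => ?_, Or.inl h1⟩)
      fin_cases j <;> simp [ph] at hj ⊢ <;> linarith
  · obtain ⟨a, b⟩ := abs_lt.1 h1
    rcases le_total 0 z.im with h | h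
    · refine Or.inr (Or.inl ⟨1, fun j hj => ?_, Or.inr h2⟩)
      fin_cases j <;> simp [ph] at hj ⊢ <;> linarith
    · refine Or.inr (Or.inl ⟨3, fun j hj => ?_, Or.inr h2⟩)
      fin_cases j <;> simp [ph] at hj ⊢ <;> linarith
  · obtain ⟨a, b⟩ := abs_lt.1 h1
    obtain ⟨c, d⟩ := abs_lt.1 h2
    refine Or.inl fun j => ?_
    fin_cases j <;> simp [ph] <;> linarith

theorem corner_emp {n r K T : ℝ} {R : ℕ} {ω : Cf} {C : Set ℂ} {a : ℂ} (hS : ∀ x ∈ ω, x ∈ sq n)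
    (hr : 0 < r) (ha : a ∈ ω) (ha' : a ∈ C) (hT : ∀ q ∈ ω, q ∈ C → dist q a ≤ T)
    (sep : ∀ x ∈ ω, x ∈ C → ∀ b ∈ ω, b ∉ C → r < dist b x) (hK : K + T + r ≤ √n / 2)
    (hK0 : 0 ≤ K) (hR : T + r ≤ r / 32 * R)
    (h : √n / 2 - K ≤ |a.re| ∧ √n / 2 - K ≤ |a.im|) : ω ∈ Emp n r 1 R (coA (r / 32) n K) := by
  have T0 : 0 ≤ T := by simpa using hT a ha ha'
  have key : ∃ x ∈ ω, x ∈ C ∧ ∀ w : ℂ, (0 ≤ x.im → w.im = x.im - r / 8) →
      (x.im < 0 → w.im = x.im + r / 8) → ∀ q ∈ ω, q ∈ C → r / 8 ≤ dist q w := by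
    rcases le_total 0 a.im with h0 | h0
    · obtain ⟨x, x1, x2, x3⟩ := exists_min ω C ⟨a, ha, ha'⟩ fun z => z.im
      refine ⟨x, x1, x2, fun w w1 _ q q1 q2 => ?_⟩
      have := (abs_le.1 ((im_le_dist x a).trans (hT x x1 x2))).1
      rw [abs_of_nonneg h0] at h
      linarith [w1 (by linarith [h.2]), x3 q q1 q2, (abs_le.1 (im_le_dist q w)).2]
    · obtain ⟨x, x1, x2, x3⟩ := exists_min ω C ⟨a, ha, ha'⟩ fun z => -z.im
      refine ⟨x, x1, x2, fun w _ w1 q q1 q2 => ?_⟩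
      have := (abs_le.1 ((im_le_dist x a).trans (hT x x1 x2))).2
      rw [abs_of_nonpos h0] at h
      linarith [w1 (by linarith [h.2]), x3 q q1 q2, (abs_le.1 (im_le_dist q w)).1]
  obtain ⟨x, x1, x2, x3⟩ := key
  obtain ⟨w, w1, w2, w3, w4⟩ := inner_disc (r := r / 8) (hS x x1) (by positivity) (by linarith)
  refine mem_Emp hr (mem_coA (by positivity) (hS a ha) h.1 h.2) (fun _ => w) (fun _ => w1)
    (fun _ => ?_) (fun _ => N_eq_zero.2 fun q hq hq' => ?_)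
    fun i j hij => absurd (Subsingleton.elim i j) hij
  · linarith [dist_triangle w x a, hT x x1 x2]
  · by_cases hc : q ∈ C
    · linarith [x3 w w3 w4 q hq hc, mem_ball.1 hq']
    · linarith [sep x x1 x2 q hq hc, mem_ball.1 hq', dist_triangle q w x]

theorem exists_out {n Lr T : ℝ} {k : ℕ} {ω : Cf} {a : ℂ} (g1 : G1 n k Lr ω) (ha : a ∈ sq n)
    (hT : 0 ≤ T + Lr) (h : T + Lr ≤ √n / 2) : ∃ b ∈ ω, T < dist b a ∧ dist b a < T + 2 * Lr := by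
  have : ∃ z ∈ sq n, dist z a = T + Lr := by
    obtain ⟨h1, h2⟩ := abs_le.1 ha.1
    rcases le_total 0 a.re with h0 | h0
    · refine ⟨a - ((T + Lr : ℝ) : ℂ), ⟨abs_le.2 ⟨?_, ?_⟩, by simpa using ha.2⟩, ?_⟩
      · simp; linarith
      · simp; linarith
      · rw [dist_self_sub_left, Complex.norm_real, Real.norm_of_nonneg hT]
    · refine ⟨a + ((T + Lr : ℝ) : ℂ), ⟨abs_le.2 ⟨?_, ?_⟩, by simpa using ha.2⟩, ?_⟩
      · simp; linarith
      · simp; linarith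
      · rw [dist_self_add_left, Complex.norm_real, Real.norm_of_nonneg hT]
  obtain ⟨z, hz, e⟩ := this
  obtain ⟨b, hb, hb'⟩ := N_pos (lt_of_lt_of_le (Nat.succ_pos k) (g1 z hz))
  exact ⟨b, hb, by linarith [dist_triangle_left z a b, mem_ball.1 hb'],
    by linarith [dist_triangle b z a, mem_ball.1 hb']⟩

theorem dist_small {d : ℝ} {x u : ℂ} (h : ∀ m, ph m x - ph m u < 2 * d) :
    0.35 * dist u x ≤ d := by
  have h0 := h 0
  have h1 := h 1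
  have h2 := h 2
  have h3 := h 3
  simp [ph] at h0 h1 h2 h3
  have : dist u x ^ 2 = (u.re - x.re) ^ 2 + (u.im - x.im) ^ 2 := by
    rw [Complex.dist_eq, Complex.sq_norm, Complex.normSq_apply]; simp; ring
  refine abs_le_of_sq_le_sq' ?_ (by linarith) |>.2
  nlinarith

theorem src_cover {n Lr r T τ η C K : ℝ} {k R R' M Sm Nn P Q : ℕ} {ω : Cf} {A : Set ℂ} {a0 : ℂ}
    (hS : ∀ x ∈ ω, x ∈ sq n) (g1 : G1 n k Lr ω) (g2 : G2 k r ω) (hA : Src k A ω) (ha0 : a0 ∈ ω)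
    (ha0' : a0 ∈ A) (hT : ∀ q ∈ ω, q ∈ A → dist q a0 ≤ T / 2 - Lr) (hr : 0 < r) (hL : r ≤ Lr)
    (hK : K + T + r ≤ √n / 2) (hR : T + r ≤ r / 32 * R) (hτ : 0 < τ) (hR' : T ≤ τ * R')
    (hτr : 12 * τ ≤ r) (hK1 : 2 * T + 4 * τ ≤ K) (hK2 : T + 3 * C ≤ K) (hM : 1 ≤ M) (hMr : M ≤ r)
    (hSm : T ≤ Sm) (hC : T + 1 + Lr ≤ C) (hη : 0 < η) (hηC : 3000000 * η * C ≤ r) (hk : 1 ≤ k)
    (hN : 0 < Nn) (hδ1 : 8 * C ^ 2 * (π / Nn) ≤ η * M * r) (hδ2 : π / Nn ≤ 0.0025)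
    (hP : C ≤ P * η) (hQ : 1 ≤ Q * η) :
    ω ∈ Emp n r 1 R (coA (r / 32) n K) ∨
    ω ∈ LargeEv n τ (1 + 2 * π / Vc) (60 * (2 * π) * τ * (T + 4 * τ)) k R' (allA τ n) ∨
    ω ∈ LargeEv n τ (1 + π / Vc) (60 * π * τ * (T + 4 * τ)) k R' (bdA τ n K) ∨
    ω ∈ CmpEv n (-(π * M ^ 2)) Lr k (closedBall 0 M) ∅ ∨
    ∃ σ ∈ Finset.Icc M Sm, ω ∈ SmallEv n (η * σ) (0.000018 * σ * r - 24 * C * (η * σ)) Lr k Nn P Q := by
  have T0 : 0 ≤ T / 2 - Lr := by simpa using hT a0 ha0 ha0'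
  have diam : ∀ p ∈ ω, p ∈ A → ∀ q ∈ ω, q ∈ A → dist p q ≤ T := fun p p1 p2 q q1 q2 => by
    linarith [dist_triangle_right p q a0, hT p p1 p2, hT q q1 q2]
  obtain ⟨b, b1, b2, b3⟩ := exists_out (T := T / 2 - Lr) g1 (hS a0 ha0) (by linarith) (by linarith)
  have b4 : b ∉ A := fun hc => by linarith [hT b b1 hc]
  obtain ⟨a, ha, ha', y, hy, hy', hmin⟩ := exists_pair ω A ⟨a0, ha0, ha0'⟩ ⟨b, b1, b4⟩
  have dT : dist y a ≤ T := by linarith [hmin a0 ha0 ha0' b b1 b4]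
  have sep : ∀ x ∈ ω, x ∈ A → ∀ b ∈ ω, b ∉ A → r < dist b x := fun x x1 x2 b b1 b2 =>
    hA.far g2 b1 b2 x1 x2
  have dr := sep a ha ha' y hy hy'
  have small : ∀ e, (∀ j, j ≠ e → ph j a + K ≤ √n / 2) →
      (∀ m, ∀ x ∈ ω, x ∈ A → ∀ u ∈ ω, u ∈ A → ph m x - ph m u < 2 * dist y a) →
      ω ∈ CmpEv n (-(π * M ^ 2)) Lr k (closedBall 0 M) ∅ ∨ ∃ σ ∈ Finset.Icc M Sm,
        ω ∈ SmallEv n (η * σ) (0.000018 * σ * r - 24 * C * (η * σ)) Lr k Nn P Q := by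
    intro e av h
    obtain ⟨x, x1, x2, x3⟩ := exists_min ω A ⟨a, ha, ha'⟩ (ph (e + 2))
    obtain ⟨u, u1, u2, u3⟩ := exists_min ω A ⟨a, ha, ha'⟩ fun z => -dist z x
    have u4 : ∀ b ∈ ω, b ∈ A → dist b x ≤ dist u x := fun b h1 h2 => neg_le_neg_iff.1 (u3 b h1 h2)
    rcases le_or_gt (dist u x) M with hs | hs
    · exact Or.inl (mem_tiny hA x1 x2 (by positivity) (fun b h1 h2 => (u4 b h1 h2).trans hs)
        fun p h1 h2 => hMr.trans_lt (sep x x1 x2 p h1 h2))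
    have c1 := Nat.le_ceil (dist u x)
    have c2 := Nat.ceil_lt_add_one (dist_nonneg (x := u) (y := x))
    have c3 := diam u u1 u2 x x1 x2
    have M1 : (1 : ℝ) ≤ M := by exact_mod_cast hM
    set σ := ⌈dist u x⌉₊
    have c4 : η * σ ≤ η * C := by gcongr; linarith
    have c5 : η * 1 ≤ η * σ := by gcongr; linarith
    have c6 : η * C ≤ C / 2 := by nlinarith
    refine Or.inr ⟨σ, Finset.mem_Icc.2 ⟨by exact_mod_cast hs.le.trans c1,
      Nat.ceil_le.2 (c3.trans hSm)⟩, mem_SmallEv (j := e + 2) (d := dist y a) hS g1 hA x1 x2 x3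
      (fun i hi => ?_) u1 u2 u4 (by linarith) c1 (fun p p1 p2 q q1 q2 => hmin q q1 q2 p p1 p2)
      (dist_small fun m => h m x x1 x2 u u1 u2) dr.le hk hN (by linarith) (by linarith)
      (hδ1.trans (mul_le_mul_of_nonneg_right (mul_le_mul_of_nonneg_left (hs.le.trans c1) hη.le)
        hr.le)) hδ2 (by linarith) (by linarith) (by linarith)
      (hP.trans (mul_le_mul_of_nonneg_left (by linarith) (Nat.cast_nonneg P))) (by nlinarith)⟩
    have := av i (by rwa [add_assoc, show (2 + 2 : Fin 4) = 0 from rfl, add_zero] at hi)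
    linarith [ph_le i x a, diam x x1 x2 a ha ha']
  by_cases big : ∀ m, ∀ x ∈ ω, x ∈ A → ∀ u ∈ ω, u ∈ A → ph m x - ph m u < 2 * dist y a
  · rcases side_cases a (show K ≤ √n / 2 by linarith) with h | ⟨e, h, -⟩ | h
    · exact Or.inr (Or.inr (Or.inr (small 0 (fun j _ => h j) big)))
    · exact Or.inr (Or.inr (Or.inr (small e h big)))
    · exact Or.inl (corner_emp hS hr ha ha' (fun q h1 h2 => diam q h1 h2 a ha ha') sep hK
        (by linarith) hR h)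
  simp only [not_forall, not_lt] at big
  obtain ⟨m, x, x1, x2, u, u1, u2, h3⟩ := big
  rcases side_cases a (show K ≤ √n / 2 by linarith) with h | ⟨e, h, h'⟩ | h
  · refine Or.inr (Or.inl (mem_LargeEv hS hA ha ha' hy hy' hmin
      (fun q h1 h2 => diam q h1 h2 a ha ha') dT hτ hR' (by linarith) (mem_allA hτ (hS a ha))
      (by positivity) fun U K' d h1 h2 h4 h5 h6 h7 h8 h9 => ?_))
    exact area2 h1 h2 h4 h5 h6 (fun j p hp => by linarith [h j, ph_le j p a, h8 p hp])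
      (h9 x x1 x2) (h9 u u1 u2) (m := m) (by linarith)
  · refine Or.inr (Or.inr (Or.inl (mem_LargeEv hS hA ha ha' hy hy' hmin
      (fun q h1 h2 => diam q h1 h2 a ha ha') dT hτ hR' (by linarith) (mem_bdA hτ (hS a ha) h')
      (by positivity) fun U K' d h1 h2 h4 h5 h6 h7 h8 h9 => ?_)))
    exact area1 h1 h2 h4 h5 h6 (fun j hj p hp => by linarith [h j hj, ph_le j p a, h8 p hp])
      (h9 x x1 x2) (h9 u u1 u2) (m := m) (by linarith)
  · exact Or.inl (corner_emp hS hr ha ha' (fun q h1 h2 => diam q h1 h2 a ha ha') sep hK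
      (by linarith) hR h)

theorem sink_cover {n Lr r T τ K : ℝ} {k R R' P : ℕ} {ω : Cf} {B : Set ℂ} {b : ℂ}
    (hS : ∀ x ∈ ω, x ∈ sq n) (g1 : G1 n k Lr ω) (g2 : G2 k r ω) (hB : Src k Bᶜ ω) (hb : b ∈ ω)
    (hb' : b ∈ B) (hT : ∀ q ∈ ω, q ∈ B → dist q b ≤ T) (hr : 0 < r)
    (hK : K + T + r ≤ √n / 2) (hR : T + r ≤ r / 32 * R) (hτ : 0 < τ) (hR' : T ≤ τ * R')
    (hP : Lr ≤ τ * P) (hK1 : T + τ * P ≤ K) :
    ω ∈ Emp n r 1 R (coA (r / 32) n K) ∨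
    ω ∈ SinkEv n τ 5 (104 * π * (P + 2) * τ ^ 2) k R' P (allA τ n) ∨
    ω ∈ SinkEv n τ 4 (104 * π * (P + 2) * τ ^ 2) k R' P (bdA τ n K) := by
  have T0 : 0 ≤ T := by simpa using hT b hb hb'
  have P0 : 0 ≤ τ * P := by positivity
  rcases side_cases b (show K ≤ √n / 2 by linarith) with h | ⟨e, h, h'⟩ | h
  · exact Or.inr (Or.inl (mem_SinkEv hS g1 hB hb hb' hT hτ hR' hP (mem_allA hτ (hS b hb))
      Finset.univ (fun j _ => by linarith [h j]) Finset.univ_nonempty (by simp; norm_num)))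
  · refine Or.inr (Or.inr (mem_SinkEv hS g1 hB hb hb' hT hτ hR' hP (mem_bdA hτ (hS b hb) h')
      (Finset.univ.erase e) (fun j hj => by linarith [h j (Finset.ne_of_mem_erase hj)])
      (Finset.card_pos.1 (by simp)) (by simp; norm_num)))
  · refine Or.inl (corner_emp hS hr hb hb' hT (fun x x1 x2 y y1 y2 => ?_) hK (by linarith) hR h)
    rw [dist_comm]
    exact hB.far g2 x1 (by simpa) y1 y2

end Pool.Agent.Lib.MP_2af9b5_pr
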