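import Mathlib

open MeasureTheory ProbabilityTheory
open scoped ENNReal

namespace Pool.Agent.Lib.MP_2af9b5_pr

/-- The square of area `n` in the plane (identified with the complex numbers). -/
def sq (n : ℝ) : Set ℂ := {z | |z.re| ≤ √n / 2 ∧ |z.im| ≤ √n / 2}

/-- Probability that the Poisson process of intensity one in the square of area `n` has property
`E`: the number `m` of points is Poisson with mean `n`, and the points are independent and uniform
in the square. -/
noncomputable def prob (n : ℝ) (E : Finset ℂ → Prop) : ℝ≥0∞ :=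
  ∑' m : ℕ, ENNReal.ofReal (Real.exp (-n) * n ^ m / m.factorial) *
    Measure.pi (fun _ : Fin m => volume[|sq n]) {x | E (Finset.univ.image x)}

/-- Directed edge `x → y` of the `k`-nearest neighbour graph on `P`: fewer than `k` points of
`P` other than `x` are strictly closer to `x` than `y` is. -/
def Edge (k : ℕ) (P : Finset ℂ) (x y : ℂ) : Prop :=
  x ∈ P ∧ y ∈ P ∧ y ≠ x ∧ (P.filter fun w => w ≠ x ∧ dist x w < dist x y).card < k

/-- The graph is directed connected. -/
def Conn (k : ℕ) (P : Finset ℂ) : Prop :=
  ∀ u ∈ P, ∀ v ∈ P, Relation.ReflTransGen (Edge k P) u v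

/-- No vertex has in-degree zero. -/
def NoZero (k : ℕ) (P : Finset ℂ) : Prop := ∀ y ∈ P, ∃ x, Edge k P x y

end Pool.Agent.Lib.MP_2af9b5_pr
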