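import Pool.Agent.Lib.MP_2af9b5_pr.Main

open MeasureTheory ProbabilityTheory Set Metric Real Filter Topology
open scoped ENNReal Classical

namespace Pool.Agent.Lib.MP_2af9b5_pr

theorem whp_of {l : Filter ℝ} (hl : l ≤ atTop) {E F : ℝ → Finset ℂ → Prop} {g : ℝ → ℝ}
    (hE : Tendsto (fun n => prob n (E n)) l (𝓝 1)) (hg : Tendsto g l (𝓝 0))
    (h : ∀ᶠ n in l, (PP n).real {ω | E n ω.toFinset ∧ ¬F n ω.toFinset} ≤ g n) :
    Tendsto (fun n => prob n (F n)) l (𝓝 1) := by
  have h1 : Tendsto (fun n => prob n (E n) - ENNReal.ofReal (g n)) l (𝓝 1) := by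
    simpa using ENNReal.Tendsto.sub hE (ENNReal.tendsto_ofReal hg) (Or.inl ENNReal.one_ne_top)
  refine tendsto_of_tendsto_of_tendsto_of_le_of_le' h1 tendsto_const_nhds ?_ ?_
  · filter_upwards [h, hl (eventually_gt_atTop 0)] with n h hn
    rw [tsub_le_iff_right]
    refine (prob_sub n (F := F n) (G := fun P => E n P ∧ ¬F n P) fun P h => by tauto).trans ?_
    gcongr
    refine (prob_le hn _).trans ?_
    rw [← ofReal_measureReal]
    exact ENNReal.ofReal_le_ofReal h
  · filter_upwards [hl (eventually_gt_atTop 0)] with n hn using prob_le_one hn _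

theorem van_Zex {l : Filter ℝ} (hl : l ≤ atTop) {c L : ℝ} (hc : 0 < c) (hL1 : 1 ≤ L)
    (hL : 1 + c < π * L ^ 2 / 128)
    (h : Tendsto (fun n => prob n (NoZero ⌊c * log n⌋₊)) l (𝓝 1)) :
    Tendsto (fun n => (PP n).real (Zex ⌊c * log n⌋₊ (L * lg n))) l (𝓝 0) := by
  have h1 := ((ENNReal.tendsto_toReal ENNReal.one_ne_top).comp h).const_sub 1
  have h2 := h1.add ((van_G1 hc.le (by linarith) hL).mono_left hl)
  simp only [ENNReal.toReal_one, sub_self, add_zero] at h2
  refine squeeze_zero' (Eventually.of_forall fun _ => measureReal_nonneg) ?_ h2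
  filter_upwards [hl (eventually_gt_atTop 0)] with n hn
  have a1 := ENNReal.toReal_mono (measure_ne_top _ _) (prob_le hn (NoZero ⌊c * log n⌋₊))
  have a2 := real_ae (A := {ω | NoZero ⌊c * log n⌋₊ ω.toFinset})
    (B := {ω | ω ∈ (Zex ⌊c * log n⌋₊ (L * lg n))ᶜ ∨ ω ∈ {ω | ¬G1 n ⌊c * log n⌋₊ (L * lg n) ω}})
    ((ae_sq n).and (ae_nodup (μ := mu n))) fun ω h1 h2 => by
      by_contra hc
      simp only [mem_ofPred_eq, not_or, mem_compl_iff, not_not] at hc
      exact zero_of_Z h1.1 h1.2 hc.2 hc.1 h2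
  have a3 := a2.trans (real_or _ _)
  rw [probReal_compl_eq_one_sub (meas_Zex _ _)] at a3
  rw [← measureReal_def] at a1
  simp only [Function.comp]
  linarith

theorem van_EZ {l : Filter ℝ} (hl : l ≤ atTop) {c L : ℝ} (hc : 0 < c) (hL1 : 1 ≤ L)
    (h : Tendsto (fun n => (PP n).real (Zex ⌊c * log n⌋₊ (L * lg n))) l (𝓝 0)) :
    Tendsto (fun n => (EZ n ⌊c * log n⌋₊ (L * lg n)).toReal) l (𝓝 0) := by
  obtain ⟨t, t1, t2⟩ : ∃ t, 1 ≤ t ∧ c * log t = 3 :=
    ⟨exp (3 / c), one_le_exp (by positivity), by rw [log_exp]; field_simp⟩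
  obtain ⟨τ, τ0, hτ⟩ : ∃ τ, 0 < τ ∧ τ * t = 1 / 16 :=
    ⟨1 / (16 * t), by positivity, by field_simp⟩
  have τ1 : τ ≤ 1 / 16 := by nlinarith
  obtain ⟨K, hK⟩ := exists_nat_ge ((4 * L + 4 * τ) / τ)
  rw [div_le_iff₀ τ0] at hK
  have h1 := van2 (f := fun n => (√n / (τ * lg n) + 2) ^ 2 *
    (exp (72 * π * t * τ ^ 2 * log n) / t ^ ⌊c * log n⌋₊)) (c := c) (e := 72 * π * t * τ ^ 2)
    (B' := 1) t1 zero_le_one (by
      have : π * (τ * t) * τ ≤ 3.15 * (1 / 16) * (1 / 16) := by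
        rw [hτ]; gcongr; exact pi_lt_d2.le
      linarith) (fun n => by have := sqrt_nonneg (log n); positivity) (ev_two τ0)
    (Eventually.of_forall fun n => by simp)
  have h2 := ((h.const_mul 2).const_mul ((K : ℝ) ^ 2)).add (h1.mono_left hl)
  simp only [mul_zero, add_zero] at h2
  refine squeeze_zero' (Eventually.of_forall fun _ => ENNReal.toReal_nonneg) ?_ h2
  filter_upwards [hl ev_lg, h.eventually (eventually_le_nhds (show (0 : ℝ) < 1 / 2 by norm_num))]
    with n ⟨h1, h2, h3, _⟩ h4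
  refine (EZ_le (τ := τ * lg n) (K := K) (t := t) _ (by positivity) (by nlinarith) (by nlinarith)
    t1 h4).trans ?_
  rw [show 2 * t * (π * (6 * (τ * lg n)) ^ 2) = 72 * π * t * τ ^ 2 * lg n ^ 2 by ring, h3]
  gcongr
  exact Nat.le_succ _

theorem EZ_big {c L : ℝ} (hc : 0 < c) (h : c ≤ Vc / 2.73) :
    ∀ᶠ n in atTop, exp (-2) / 4 ≤ (EZ n ⌊c * log n⌋₊ (L * lg n)).toReal := by
  filter_upwards [ev_lg, ev_sqrt (8 * (c + 1)),
    (tendsto_log_atTop.const_mul_atTop hc).eventually_ge_atTop (10 ^ 15)]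
    with n ⟨h1, h2, h3, _⟩ h4 h5
  have v0 := Vc_pos
  have k1 := Nat.floor_le (show 0 ≤ c * log n by linarith)
  have k2 := Nat.lt_floor_add_one (c * log n)
  set k := ⌊c * log n⌋₊
  have e : √(0.75075 * (k + 1) / Vc) ^ 2 = 0.75075 * (k + 1) / Vc := sq_sqrt (by positivity)
  have l1 : 1 ≤ log n := by nlinarith
  refine le_trans ?_ (EZ_ge (a := √(0.75075 * (k + 1) / Vc)) (by linarith) ?_ ?_ ?_)
  · have a1 : 2.72 * (k + 1) / Vc ≤ log n + 2 := by
      rw [div_le_iff₀ v0]
      rw [le_div_iff₀ (by norm_num)] at h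
      nlinarith [Vc_ge]
    have a2 := exp_le_exp.2 (neg_le_neg a1)
    rw [neg_add, exp_add, exp_neg (log n), exp_log (by linarith), inv_mul_le_iff₀ (by linarith)]
      at a2
    linarith
  · have : √(0.75075 * (k + 1) / Vc) ≤ (c + 1) * lg n := by
      rw [sqrt_le_left (by positivity), div_le_iff₀ v0, mul_pow, h3]
      have a1 : (c + 1) * log n ≤ (c + 1) ^ 2 * log n := by gcongr; nlinarith
      have a2 : (c + 1) ^ 2 * log n * 1 ≤ (c + 1) ^ 2 * log n * Vc := by gcongr; linarith [Vc_ge]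
      nlinarith
    linarith
  · refine le_sqrt_of_sq_le ?_
    rw [le_div_iff₀ v0]
    linarith [Vc_le, pi_lt_four]
  · rw [e]; field_simp

theorem van_small : Tendsto (fun n => (PP n).real {ω | N univ ω ≤ 1}) atTop (𝓝 0) := by
  refine van 2 (δ := -(1 / 2)) (by norm_num) (fun _ => measureReal_nonneg) ?_
  filter_upwards [eventually_gt_atTop 0] with n hn
  refine (tail_le .univ 1).trans ?_
  rw [mu_univ hn.le, pow_one, mul_comm]
  gcongr
  linarith [log_le_self hn.le]

theorem main {c : ℝ} (hc : 0 < c) {l : Filter ℝ} (hl : l ≤ atTop) :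
    Tendsto (fun n => prob n (Conn ⌊c * log n⌋₊)) l (𝓝 1) ↔
      Tendsto (fun n => prob n (NoZero ⌊c * log n⌋₊)) l (𝓝 1) := by
  constructor
  · intro h
    refine whp_of hl h (van_small.mono_left hl) (Eventually.of_forall fun n => ?_)
    refine real_ae (ae_nodup (μ := mu n)) fun ω hω ⟨h1, h2⟩ => ?_
    simp only [NoZero, not_forall, not_exists] at h2
    obtain ⟨y, hy, h2⟩ := h2
    have : ω.toFinset ⊆ {y} := fun u hu => by
      rcases (h1 u hu y hy).cases_tail with h | ⟨x, -, h⟩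
      · simp [h]
      · exact absurd h (h2 x)
    have := Finset.card_le_card this
    rw [Finset.card_singleton, Finset.card_def, val_toFinset hω] at this
    simpa [N, res] using this
  · intro h
    rcases l.eq_or_neBot with rfl | hb
    · exact tendsto_bot
    have hL1 : 1 ≤ 12 * (1 + c) := by linarith
    have hL : 1 + c < π * (12 * (1 + c)) ^ 2 / 128 := by
      have := mul_le_mul_of_nonneg_right pi_gt_three.le (sq_nonneg (12 * (1 + c)))
      nlinarith
    have h1 := van_EZ hl hc hL1 (van_Zex hl hc hL1 hL h)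
    have h2 : Vc / 2.73 < c := by
      by_contra hc'
      have := ge_of_tendsto h1 (hl (EZ_big hc (not_lt.1 hc')))
      linarith [exp_pos (-2)]
    obtain ⟨B, g, h3, h4⟩ := notconn_le h2 hL1 hL
    refine whp_of hl h (by simpa using (h3.mono_left hl).add (h1.const_mul B)) ?_
    filter_upwards [hl h4] with n hn
    exact (measureReal_mono (fun ω hω => hω.2) (measure_ne_top _ _)).trans hn

end Pool.Agent.Lib.MP_2af9b5_pr
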