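import Pool.Agent.Lib.MP_2af9b5_pr.Sink

open MeasureTheory ProbabilityTheory Set Metric Real
open scoped ENNReal Classical

namespace Pool.Agent.Lib.MP_2af9b5_pr

theorem ph_mul (m : Fin 4) (z : ℂ) : ph m (z * dr m) = z.re := by
  fin_cases m <;> simp [ph, dr]

theorem ph_mul' (m : Fin 4) (z : ℂ) : ph (m + 1) (z * dr m) = z.im := by
  fin_cases m <;> simp [ph, dr]

theorem dr_succ (m : Fin 4) : dr (m + 1) = Complex.I * dr m := by
  fin_cases m <;> simp [dr]

theorem ph_step {i j : Fin 4} (h : i ≠ j) (p : ℂ) {t : ℝ} (ht : 0 ≤ t) :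
    ph i (p + t * dr j) ≤ ph i p := by
  fin_cases i <;> fin_cases j <;> simp_all [ph, dr]

theorem dr_opp (j : Fin 4) : dr (j + 2) = -dr j := by
  fin_cases j <;> simp [dr]

theorem colm (m : Fin 4) {U E D : Set ℂ} (hU : IsCompact U) (hE : MeasurableSet E)
    (hD : MeasurableSet D) {h h' : ℝ} (h0 : 0 ≤ h) (h0' : 0 ≤ h')
    (up : ∀ p ∈ U, ∀ t, 0 < t → t < h → p + t * dr (m + 1) ∈ U ∪ E)
    (dn : ∀ p ∈ U, ∀ t, 0 < t → t < h' → p + t * dr (m + 1 + 2) ∈ U ∪ E)
    (hDE : D ⊆ U ∪ E)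
    (sl : ∀ x : ℝ, ∃ b : ℝ, ∀ z ∈ D, ph m z = x → ph (m + 1) z ∈ Icc b (b + (h + h'))) :
    volume D ≤ volume E := by
  have hm : dr m ≠ 0 := norm_ne_zero_iff.1 (by simp [norm_dr])
  rw [← vol_unit (norm_dr m) D, ← vol_unit (norm_dr m) E]
  refine column (U := {z | z * dr m ∈ U}) ((Homeomorph.mulRight₀ _ hm).isCompact_preimage.2 hU)
    ((measurable_mul_const _) hE) ((measurable_mul_const _) hD) h0 h0' ?_ ?_ ?_ ?_
  · intro p hp t h1 h2
    have := up _ hp t h1 h2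
    rwa [dr_succ, ← mul_assoc, ← add_mul] at this
  · intro p hp t h1 h2
    have := dn _ hp t h1 h2
    rwa [dr_opp, dr_succ, mul_neg, ← mul_assoc, ← sub_eq_add_neg, ← sub_mul] at this
  · exact fun z hz => hDE hz
  · intro x
    obtain ⟨b, hb⟩ := sl x
    exact ⟨b, fun z hz h1 => by simpa [ph_mul'] using hb _ hz (by rw [ph_mul, h1])⟩

theorem vol_half' (j : Fin 4) (c : ℂ) {r : ℝ} (hr : 0 ≤ r) :
    π * r ^ 2 / 2 ≤ volume.real (ball c r ∩ {z | ph j c ≤ ph j z}) := by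
  set H := ball c r ∩ {z : ℂ | ph j c ≤ ph j z} with hH
  have hf : volume H ≠ ⊤ := fin_of_sub inter_subset_left
  have e : volume {z : ℂ | z - 2 * c ∈ {w : ℂ | w * (-1) ∈ H}} = volume H := by
    rw [vol_shift, vol_unit (by simp)]
  have : ball c r ⊆ H ∪ {z : ℂ | z - 2 * c ∈ {w : ℂ | w * (-1) ∈ H}} := by
    intro z hz
    rcases le_total (ph j c) (ph j z) with h | h
    · exact Or.inl ⟨hz, h⟩
    · refine Or.inr ⟨?_, ?_⟩
      · rw [mem_ball, Complex.dist_eq] at hz ⊢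
        rwa [show (z - 2 * c) * (-1) - c = -(z - c) by ring, norm_neg]
      · have : ph j ((z - 2 * c) * (-1)) = 2 * ph j c - ph j z := by
          fin_cases j <;> simp [ph] <;> ring
        simp only [mem_ofPred_eq, this]
        linarith
  have h2 := (measureReal_mono this (measure_union_ne_top hf (by rwa [e]))).trans
    (measureReal_union_le _ _)
  rw [vball _ hr, Measure.real, Measure.real, e] at h2
  rw [Measure.real]
  linarith

section area

variable {n d : ℝ} {U K : Set ℂ}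

theorem step_mem (hS : U ⊆ sq n) (hK : ∀ p ∈ U, ball p d ⊆ K) {j : Fin 4}
    (av : ∀ p ∈ U, ph j p + d ≤ √n / 2) :
    ∀ p ∈ U, ∀ t, 0 < t → t < d → p + t * dr j ∈ U ∪ (sq n ∩ K) \ U := by
  intro p hp t h1 h2
  have e : dist (p + t * dr j) p = t := by
    simp [Complex.dist_eq, norm_dr, abs_of_pos h1]
  rw [union_sdiff_self]
  refine Or.inr ⟨mem_sq.2 fun i => ?_, hK p hp (by rwa [mem_ball, e])⟩
  by_cases h : i = j
  · subst h
    linarith [ph_le i (p + t * dr i) p, av p hp]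
  · exact (ph_step h p h1.le).trans (mem_sq.1 (hS hp) i)

theorem fin_sq (n : ℝ) {E : Set ℂ} (h : E ⊆ sq n) : volume E ≠ ⊤ := by
  have := measure_ne_top (mu n) univ
  rw [mu, Measure.restrict_apply_univ] at this
  exact measure_ne_top_of_subset h this

theorem area2 (hU : IsCompact U) (mK : MeasurableSet K) (hS : U ⊆ sq n)
    (hK : ∀ p ∈ U, ball p d ⊆ K) (hd : 0 ≤ d) (av : ∀ j, ∀ p ∈ U, ph j p + d ≤ √n / 2)
    {x u : ℂ} (hx : x ∈ U) (hu : u ∈ U) {m : Fin 4} (sep : 2 * d ≤ ph m x - ph m u) :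
    2 * π * d ^ 2 ≤ volume.real ((sq n ∩ K) \ U) := by
  have bS : ∀ p ∈ U, ball p d ⊆ U ∪ (sq n ∩ K) \ U := fun p hp z hz => by
    rw [union_sdiff_self]
    exact Or.inr ⟨mem_sq.2 fun i => by linarith [ph_le i z p, av i p hp, mem_ball.1 hz], hK p hp hz⟩
  have h := colm m (D := ball x d ∪ ball u d) hU (((meas_sq n).inter mK).diff hU.measurableSet)
    (measurableSet_ball.union measurableSet_ball) hd hd (step_mem hS hK (av _))
    (step_mem hS hK (av _)) (union_subset (bS x hx) (bS u hu)) fun s => by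
      rcases le_total s (ph m u + d) with h | h
      · refine ⟨ph (m + 1) u - d, ?_⟩
        rintro z (hz | hz) e
        · linarith [ph_le m x z, mem_ball'.1 hz]
        · exact ⟨by linarith [ph_le (m + 1) u z, mem_ball'.1 hz],
            by linarith [ph_le (m + 1) z u, mem_ball.1 hz]⟩
      · refine ⟨ph (m + 1) x - d, ?_⟩
        rintro z (hz | hz) e
        · exact ⟨by linarith [ph_le (m + 1) x z, mem_ball'.1 hz],
            by linarith [ph_le (m + 1) z x, mem_ball.1 hz]⟩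
        · linarith [ph_le m z u, mem_ball.1 hz]
  have h2 := ENNReal.toReal_mono (fin_sq n fun z hz => hz.1.1) h
  have h3 := measureReal_union (μ := volume) (ball_disjoint_ball (x := x) (y := u) (δ := d) (ε := d)
    (by linarith [ph_le m x u])) measurableSet_ball (vball_ne _ _) (vball_ne _ _)
  rw [vball _ hd, vball _ hd] at h3
  rw [Measure.real] at h3 ⊢
  linarith

theorem area1 (hU : IsCompact U) (mK : MeasurableSet K) (hS : U ⊆ sq n)
    (hK : ∀ p ∈ U, ball p d ⊆ K) (hd : 0 ≤ d) {e : Fin 4}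
    (av : ∀ j, j ≠ e → ∀ p ∈ U, ph j p + d ≤ √n / 2)
    {x u : ℂ} (hx : x ∈ U) (hu : u ∈ U) {m : Fin 4} (sep : 2 * d ≤ ph m x - ph m u) :
    π * d ^ 2 ≤ volume.real ((sq n ∩ K) \ U) := by
  have mE := ((meas_sq n).inter mK).diff hU.measurableSet
  have one : ∀ u ∈ U, ph e u + d ≤ √n / 2 → π * d ^ 2 ≤ volume.real ((sq n ∩ K) \ U) := by
    intro u hu h1
    have h := colm e (D := ball u d) hU mE measurableSet_ball hd hd
      (step_mem hS hK (av _ (by fin_cases e <;> simp)))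
      (step_mem hS hK (av _ (by fin_cases e <;> simp))) (fun z hz => by
        rw [union_sdiff_self]
        refine Or.inr ⟨mem_sq.2 fun i => ?_, hK u hu hz⟩
        by_cases h : i = e
        · subst h; linarith [ph_le i z u, mem_ball.1 hz]
        · linarith [ph_le i z u, av i h u hu, mem_ball.1 hz])
      fun s => ⟨ph (e + 1) u - d, fun z hz _ =>
        ⟨by linarith [ph_le (e + 1) u z, mem_ball'.1 hz],
          by linarith [ph_le (e + 1) z u, mem_ball.1 hz]⟩⟩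
    have h2 := ENNReal.toReal_mono (fin_sq n fun z hz => hz.1.1) h
    rwa [← vball u hd]
  have two : ∀ x ∈ U, ∀ u ∈ U, 2 * d ≤ ph (e + 1) x - ph (e + 1) u →
      π * d ^ 2 ≤ volume.real ((sq n ∩ K) \ U) := by
    intro x hx u hu sep
    have mH : ∀ c : ℂ, MeasurableSet (ball c d ∩ {z | ph (e + 1 + 1) c ≤ ph (e + 1 + 1) z}) :=
      fun c => measurableSet_ball.inter (measurableSet_le measurable_const (cont_ph _).measurable)
    have bS : ∀ p ∈ U, ball p d ∩ {z | ph (e + 1 + 1) p ≤ ph (e + 1 + 1) z} ⊆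
        U ∪ (sq n ∩ K) \ U := fun p hp z hz => by
      rw [union_sdiff_self]
      refine Or.inr ⟨mem_sq.2 fun i => ?_, hK p hp hz.1⟩
      by_cases h : i = e
      · have a1 : ph (e + 1 + 1) p ≤ ph (e + 1 + 1) z := hz.2
        rw [add_assoc, show (1 + 1 : Fin 4) = 2 from rfl, ph_opp, ph_opp] at a1
        rw [h]
        linarith [mem_sq.1 (hS hp) e]
      · linarith [ph_le i z p, av i h p hp, mem_ball.1 hz.1]
    have h := colm (e + 1) (h := d) (h' := 0) hU mE ((mH x).union (mH u)) hd le_rfl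
      (step_mem hS hK (av _ (by fin_cases e <;> simp)))
      (fun p _ t h1 h2 => absurd h1 (by linarith)) (union_subset (bS x hx) (bS u hu)) fun s => by
        rcases le_total s (ph (e + 1) u + d) with h | h
        · refine ⟨ph (e + 1 + 1) u, ?_⟩
          rintro z (hz | hz) e'
          · linarith [ph_le (e + 1) x z, mem_ball'.1 hz.1]
          · exact ⟨hz.2, by linarith [ph_le (e + 1 + 1) z u, mem_ball.1 hz.1]⟩
        · refine ⟨ph (e + 1 + 1) x, ?_⟩
          rintro z (hz | hz) e'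
          · exact ⟨hz.2, by linarith [ph_le (e + 1 + 1) z x, mem_ball.1 hz.1]⟩
          · linarith [ph_le (e + 1) z u, mem_ball.1 hz.1]
    have h2 := ENNReal.toReal_mono (fin_sq n fun z hz => hz.1.1) h
    have h3 := measureReal_union (μ := volume)
      ((ball_disjoint_ball (x := x) (y := u) (δ := d) (ε := d)
        (by linarith [ph_le (e + 1) x u])).mono inter_subset_left inter_subset_left) (mH u)
      (fin_of_sub (inter_subset_left (t := {z | ph (e + 1 + 1) x ≤ ph (e + 1 + 1) z})))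
      (fin_of_sub inter_subset_left)
    rw [Measure.real] at h3 ⊢
    linarith [vol_half' (e + 1 + 1) x hd, vol_half' (e + 1 + 1) u hd]
  have : m = e ∨ m = e + 1 ∨ m = e + 2 ∨ m = e + 1 + 2 := by
    fin_cases e <;> fin_cases m <;> simp
  rcases this with rfl | rfl | rfl | rfl
  · exact one u hu (by linarith [mem_sq.1 (hS hx) m])
  · exact two x hx u hu sep
  · rw [ph_opp, ph_opp] at sep
    exact one x hx (by linarith [mem_sq.1 (hS hu) e])
  · rw [ph_opp, ph_opp] at sep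
    exact two u hu x hx (by linarith)

end area

theorem Src.out {k : ℕ} {A : Set ℂ} {ω : Cf} (h : Src k A ω) {y a : ℂ} (hy : y ∈ ω) (hy' : y ∉ A)
    (ha : a ∈ ω) (ha' : a ∈ A) : k + 1 ≤ N (ball y (dist y a)) (res Aᶜ ω) := by
  obtain ⟨b, b1, b2, b3⟩ := exists_min ω A ⟨a, ha, ha'⟩ fun z => dist y z
  rw [N_res]
  refine (h y hy hy' b b1 b2).trans (N_mono fun x hx hx' => ?_)
  exact ⟨ball_subset_ball (b3 a ha ha') hx', fun hc => by linarith [b3 x hx hc, mem_ball'.1 hx']⟩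

/-- labels for large sources -/
abbrev LL := (ℤ × ℤ) × (ℤ × ℤ) × Finset (ℤ × ℤ)

/-- neighbourhood of the source -/
def lK (τ : ℝ) (l : LL) : Set ℂ :=
  ⋃ i ∈ l.2.2, ball (pt τ (l.1 + i)) (dist (pt τ (l.1 + l.2.1)) (pt τ l.1) - 6 * τ)

/-- free region -/
def lU (n τ : ℝ) (l : LL) : Set ℂ := (⋃ i ∈ l.2.2, closedBall (pt τ (l.1 + i)) (2 * τ)) ∩ sq n

/-- the event of a large source -/
def LargeEv (n τ t err : ℝ) (k R : ℕ) (A : Finset (ℤ × ℤ)) : Set Cf :=
  Fam (ι := LL) n t err k (A ×ˢ box R ×ˢ (box R).powerset)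
    (fun l => (sq n ∩ lK τ l) \ lU n τ l)
    fun l => ball (pt τ (l.1 + l.2.1)) (dist (pt τ (l.1 + l.2.1)) (pt τ l.1) + 6 * τ) \ lK τ l

theorem LargeEv_le (n τ : ℝ) {t : ℝ} (ht : 1 ≤ t) (err : ℝ) (k R : ℕ) (A : Finset (ℤ × ℤ)) :
    (PP n).real (LargeEv n τ t err k R A) ≤
      A.card * ((2 * R + 1) ^ 2 * 2 ^ (2 * R + 1) ^ 2) * (exp err / t ^ k) := by
  refine (fam_le n ht _ _ _ _ _).trans (le_of_eq ?_)
  simp [card_box]

theorem mem_LargeEv {n τ E0 T : ℝ} {k R : ℕ} {F : Finset (ℤ × ℤ)} {ω : Cf} {A : Set ℂ} {a y : ℂ}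
    (hS : ∀ x ∈ ω, x ∈ sq n) (hA : Src k A ω) (ha : a ∈ ω) (ha' : a ∈ A) (hy : y ∈ ω)
    (hy' : y ∉ A) (hmin : ∀ a' ∈ ω, a' ∈ A → ∀ b' ∈ ω, b' ∉ A → dist y a ≤ dist b' a')
    (hT : ∀ q ∈ ω, q ∈ A → dist q a ≤ T) (hT' : dist y a ≤ T) (hτ : 0 < τ) (hR : T ≤ τ * R)
    (hd : 12 * τ ≤ dist y a) (hF : idx τ a ∈ F) (hE0 : 0 ≤ E0)
    (area : ∀ (U K : Set ℂ) (d : ℝ), IsCompact U → MeasurableSet K → U ⊆ sq n →
      (∀ p ∈ U, ball p d ⊆ K) → 0 ≤ d → d ≤ dist y a → (∀ p ∈ U, dist p a ≤ T + 4 * τ) →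
      (∀ q ∈ ω, q ∈ A → q ∈ U) → E0 * d ^ 2 ≤ volume.real ((sq n ∩ K) \ U)) :
    ω ∈ LargeEv n τ (1 + E0 / Vc) (60 * E0 * τ * (T + 4 * τ)) k R F := by
  set l : LL := (idx τ a, idx τ y - idx τ a,
    (res A ω).toFinset.image fun q => idx τ q - idx τ a) with hl
  have e1 : l.1 + l.2.1 = idx τ y := by simp [hl]
  have e2 : ∀ i ∈ l.2.2, ∃ q ∈ ω, q ∈ A ∧ l.1 + i = idx τ q := by
    intro i hi
    simp only [hl, Finset.mem_image, Multiset.mem_toFinset, mem_res] at hi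
    obtain ⟨q, ⟨h1, h2⟩, rfl⟩ := hi
    exact ⟨q, h1, h2, by simp [hl]⟩
  have e3 : ∀ q ∈ ω, q ∈ A → ∃ i ∈ l.2.2, l.1 + i = idx τ q := fun q h1 h2 =>
    ⟨idx τ q - idx τ a, Finset.mem_image.2 ⟨q, by simp [h1, h2], rfl⟩, by simp [hl]⟩
  set t := dist (pt τ (l.1 + l.2.1)) (pt τ l.1) with ht
  have t1 : t ≤ dist y a + 4 * τ := by
    have := dist_triangle4 (pt τ (idx τ y)) y a (pt τ (idx τ a))
    rw [dist_comm _ y] at this
    rw [ht, e1]
    linarith [dist_pt hτ y, dist_pt hτ a]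
  have t2 : dist y a ≤ t + 4 * τ := by
    have := dist_triangle4 y (pt τ (idx τ y)) (pt τ (idx τ a)) a
    rw [dist_comm (pt τ (idx τ a)) a] at this
    rw [ht, e1]
    linarith [dist_pt hτ y, dist_pt hτ a]
  have mK : MeasurableSet (lK τ l) := Finset.measurableSet_biUnion _ fun _ _ => measurableSet_ball
  have cU : IsCompact (lU n τ l) :=
    (Finset.isCompact_biUnion _ fun _ _ => isCompact_closedBall _ _).inter_right (closed_sq n)
  have noK : ∀ b ∈ ω, b ∉ A → b ∉ lK τ l := by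
    intro b h1 h2 h3
    simp only [lK, mem_iUnion] at h3
    obtain ⟨i, hi, h3⟩ := h3
    obtain ⟨q, q1, q2, q3⟩ := e2 i hi
    rw [q3, ← ht, mem_ball] at h3
    linarith [hmin q q1 q2 b h1 h2, dist_triangle_right b q (pt τ (idx τ q)), dist_pt hτ q]
  have inU : ∀ q ∈ ω, q ∈ A → q ∈ lU n τ l := by
    intro q h1 h2
    obtain ⟨i, hi, h3⟩ := e3 q h1 h2
    refine ⟨mem_iUnion₂.2 ⟨i, hi, ?_⟩, hS q h1⟩
    rw [h3]
    exact (dist_pt hτ q).le
  refine ⟨l, ?_, ⟨((meas_sq n).inter mK).diff cU.measurableSet, measurableSet_ball.diff mK, ?_,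
    fun z hz => hz.1.1, fin_of_sub sdiff_subset, ?_⟩, ?_, ?_⟩
  · simp only [Finset.mem_product, Finset.mem_powerset]
    refine ⟨hF, mem_box hτ (hT'.trans hR), fun i hi => ?_⟩
    simp only [hl, Finset.mem_image, Multiset.mem_toFinset, mem_res] at hi
    obtain ⟨q, ⟨h1, h2⟩, rfl⟩ := hi
    exact mem_box hτ ((hT q h1 h2).trans hR)
  · exact Set.disjoint_left.2 fun z h1 h2 => h2.2 h1.1.2
  · have a1 := area (lU n τ l) (lK τ l) (t - 8 * τ) cU mK inter_subset_right ?_ (by linarith)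
      (by linarith) ?_ inU
    · obtain ⟨i, hi, h3⟩ := e3 a ha ha'
      have s : ball (pt τ (l.1 + l.2.1)) (t + 6 * τ) \ lK τ l ⊆
          ball (pt τ (l.1 + l.2.1)) (t + 6 * τ) \ ball (pt τ l.1) (t - 6 * τ) :=
        sdiff_subset_sdiff_right fun z hz => mem_iUnion₂.2 ⟨i, hi, by rw [h3]; exact hz⟩
      have a2 := (measureReal_mono s (fin_of_sub sdiff_subset)).trans
        (lune_le _ _ (by linarith) (by linarith) (by linarith))
      rw [← ht] at a2
      have a3 := mul_le_mul_of_nonneg_left a2 (div_nonneg hE0 Vc_pos.le)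
      have a4 : E0 / Vc * (Vc * t ^ 2 + π * ((t + 6 * τ) ^ 2 - (t - 6 * τ) ^ 2)) =
          E0 * t ^ 2 + 24 * (π / Vc) * (E0 * τ * t) := by
        field_simp [Vc_pos.ne']; ring
      have a5 : π / Vc ≤ 1.8 := by
        rw [div_le_iff₀ Vc_pos]; linarith [pi_lt_d2, Vc_ge]
      have a6 : 0 ≤ E0 * τ * t := by positivity
      have a7 : E0 * τ * t ≤ E0 * τ * (T + 4 * τ) := by gcongr; linarith
      rw [add_sub_cancel_left]
      nlinarith [mul_nonneg hE0 (sq_nonneg τ)]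
    · rintro p ⟨hp, -⟩ z hz
      obtain ⟨i, hi, h3⟩ := mem_iUnion₂.1 hp
      exact mem_iUnion₂.2 ⟨i, hi, ball_subset_ball' (by linarith [mem_closedBall.1 h3]) hz⟩
    · rintro p ⟨hp, -⟩
      obtain ⟨i, hi, h3⟩ := mem_iUnion₂.1 hp
      obtain ⟨q, q1, q2, q3⟩ := e2 i hi
      rw [q3, mem_closedBall] at h3
      have := dist_triangle4 p (pt τ (idx τ q)) q a
      rw [dist_comm _ q] at this
      linarith [dist_pt hτ q, hT q q1 q2]
  · refine N_eq_zero.2 fun x hx h => ?_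
    by_cases h1 : x ∈ A
    · exact h.2 (inU x hx h1)
    · exact noK x hx h1 h.1.2
  · have := hA.out hy hy' ha ha'
    rw [N_res] at this
    refine (Nat.le_succ k).trans (this.trans (N_mono fun x hx h => ⟨?_, noK x hx h.2⟩))
    rw [← ht, e1]
    exact ball_subset_ball' (by linarith [dist_pt hτ y]) h.1

end Pool.Agent.Lib.MP_2af9b5_pr
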