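import Pool.Agent.Lib.MP_2af9b5_pr.Area

open MeasureTheory ProbabilityTheory Set Metric Real
open scoped ENNReal Classical

namespace Pool.Agent.Lib.MP_2af9b5_pr

/-- lattice index of a point -/
noncomputable def idx (τ : ℝ) (z : ℂ) : ℤ × ℤ := (⌊z.re / τ⌋, ⌊z.im / τ⌋)

/-- lattice point -/
noncomputable def pt (τ : ℝ) (i : ℤ × ℤ) : ℂ := ⟨τ * i.1, τ * i.2⟩

theorem floor_bd {τ : ℝ} (hτ : 0 < τ) (x : ℝ) : τ * ⌊x / τ⌋ ≤ x ∧ x < τ * ⌊x / τ⌋ + τ := by
  have h1 := Int.floor_le (x / τ)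
  have h2 := Int.lt_floor_add_one (x / τ)
  rw [le_div_iff₀ hτ] at h1
  rw [div_lt_iff₀ hτ] at h2
  constructor <;> linarith

theorem dist_le_re_im (z w : ℂ) : dist z w ≤ |z.re - w.re| + |z.im - w.im| := by
  rw [Complex.dist_eq]
  simpa using Complex.norm_le_abs_re_add_abs_im (z - w)

theorem re_le_dist (z w : ℂ) : |z.re - w.re| ≤ dist z w := by
  rw [Complex.dist_eq]
  simpa using Complex.abs_re_le_norm (z - w)

theorem im_le_dist (z w : ℂ) : |z.im - w.im| ≤ dist z w := by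
  rw [Complex.dist_eq]
  simpa using Complex.abs_im_le_norm (z - w)

theorem dist_pt {τ : ℝ} (hτ : 0 < τ) (z : ℂ) : dist z (pt τ (idx τ z)) < 2 * τ := by
  refine (dist_le_re_im _ _).trans_lt ?_
  have h1 := floor_bd hτ z.re
  have h2 := floor_bd hτ z.im
  simp only [pt, idx]
  rw [abs_of_nonneg (by linarith), abs_of_nonneg (by linarith)]
  linarith

/-- indices of an interval -/
noncomputable def iv (τ u v : ℝ) : Finset ℤ := Finset.Icc ⌊u / τ⌋ ⌊v / τ⌋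

theorem mem_iv {τ u v x : ℝ} (hτ : 0 < τ) (h1 : u ≤ x) (h2 : x ≤ v) : ⌊x / τ⌋ ∈ iv τ u v :=
  Finset.mem_Icc.2 ⟨Int.floor_mono (by gcongr), Int.floor_mono (by gcongr)⟩

theorem card_iv {τ u v : ℝ} (hτ : 0 < τ) (h : u ≤ v) : ((iv τ u v).card : ℝ) ≤ (v - u) / τ + 2 := by
  have h1 : ⌊u / τ⌋ ≤ ⌊v / τ⌋ := Int.floor_mono (by gcongr)
  have h2 : (((iv τ u v).card : ℤ) : ℝ) = ((⌊v / τ⌋ + 1 - ⌊u / τ⌋ : ℤ) : ℝ) := by
    rw [iv, Int.card_Icc, Int.toNat_of_nonneg (by omega)]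
  push_cast at h2
  rw [h2, sub_div]
  linarith [Int.floor_le (v / τ), Int.lt_floor_add_one (u / τ)]

/-- all indices -/
noncomputable def rng (τ n : ℝ) : Finset ℤ := iv τ (-(√n / 2)) (√n / 2)

/-- indices near the ends -/
noncomputable def nr (τ n K : ℝ) : Finset ℤ :=
  iv τ (√n / 2 - K) (√n / 2) ∪ iv τ (-(√n / 2)) (-(√n / 2) + K)

theorem card_rng {τ n : ℝ} (hτ : 0 < τ) : ((rng τ n).card : ℝ) ≤ √n / τ + 2 := by
  have := card_iv (u := -(√n / 2)) (v := √n / 2) hτ (by linarith [Real.sqrt_nonneg n])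
  rwa [show √n / 2 - -(√n / 2) = √n by ring] at this

theorem card_nr {τ n K : ℝ} (hτ : 0 < τ) (hK : 0 ≤ K) :
    ((nr τ n K).card : ℝ) ≤ 2 * (K / τ + 2) := by
  have h1 := card_iv (u := √n / 2 - K) (v := √n / 2) hτ (by linarith)
  have h2 := card_iv (u := -(√n / 2)) (v := -(√n / 2) + K) hτ (by linarith)
  have h3 : ((nr τ n K).card : ℝ) ≤ _ := Nat.cast_le.2 (Finset.card_union_le _ _)
  push_cast at h3
  rw [show √n / 2 - (√n / 2 - K) = K by ring] at h1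
  rw [show -(√n / 2) + K - -(√n / 2) = K by ring] at h2
  linarith

theorem mem_rng {τ n x : ℝ} (hτ : 0 < τ) (h : |x| ≤ √n / 2) : ⌊x / τ⌋ ∈ rng τ n :=
  mem_iv hτ (abs_le.1 h).1 (abs_le.1 h).2

theorem mem_nr {τ n K x : ℝ} (hτ : 0 < τ) (h : |x| ≤ √n / 2) (h' : √n / 2 - K ≤ |x|) :
    ⌊x / τ⌋ ∈ nr τ n K := by
  rcases le_total 0 x with hx | hx
  · rw [abs_of_nonneg hx] at h h'
    exact Finset.mem_union_left _ (mem_iv hτ h' h)
  · rw [abs_of_nonpos hx] at h h'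
    exact Finset.mem_union_right _ (mem_iv hτ (by linarith) (by linarith))

/-- all anchors -/
noncomputable def allA (τ n : ℝ) : Finset (ℤ × ℤ) := rng τ n ×ˢ rng τ n

/-- anchors near the boundary -/
noncomputable def bdA (τ n K : ℝ) : Finset (ℤ × ℤ) := nr τ n K ×ˢ rng τ n ∪ rng τ n ×ˢ nr τ n K

/-- anchors near the corners -/
noncomputable def coA (τ n K : ℝ) : Finset (ℤ × ℤ) := nr τ n K ×ˢ nr τ n K

theorem card_allA {τ n : ℝ} (hτ : 0 < τ) : ((allA τ n).card : ℝ) ≤ (√n / τ + 2) ^ 2 := by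
  rw [allA, Finset.card_product, pow_two]
  push_cast
  exact mul_self_le_mul_self (by positivity) (card_rng hτ)

theorem card_bdA {τ n K : ℝ} (hτ : 0 < τ) (hK : 0 ≤ K) :
    ((bdA τ n K).card : ℝ) ≤ 4 * (K / τ + 2) * (√n / τ + 2) := by
  have h3 : ((bdA τ n K).card : ℝ) ≤ _ := Nat.cast_le.2 (Finset.card_union_le _ _)
  simp only [Finset.card_product] at h3
  push_cast at h3
  have := mul_le_mul (card_nr (n := n) hτ hK) (card_rng (n := n) hτ) (by positivity) (by positivity)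
  linarith

theorem card_coA {τ n K : ℝ} (hτ : 0 < τ) (hK : 0 ≤ K) :
    ((coA τ n K).card : ℝ) ≤ (2 * (K / τ + 2)) ^ 2 := by
  rw [coA, Finset.card_product, pow_two]
  push_cast
  exact mul_self_le_mul_self (by positivity) (card_nr hτ hK)

theorem mem_allA {τ n : ℝ} (hτ : 0 < τ) {z : ℂ} (hz : z ∈ sq n) : idx τ z ∈ allA τ n :=
  Finset.mem_product.2 ⟨mem_rng hτ hz.1, mem_rng hτ hz.2⟩

theorem mem_bdA {τ n K : ℝ} (hτ : 0 < τ) {z : ℂ} (hz : z ∈ sq n)
    (h : √n / 2 - K ≤ |z.re| ∨ √n / 2 - K ≤ |z.im|) : idx τ z ∈ bdA τ n K := by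
  rcases h with h | h
  · exact Finset.mem_union_left _ (Finset.mem_product.2 ⟨mem_nr hτ hz.1 h, mem_rng hτ hz.2⟩)
  · exact Finset.mem_union_right _ (Finset.mem_product.2 ⟨mem_rng hτ hz.1, mem_nr hτ hz.2 h⟩)

theorem mem_coA {τ n K : ℝ} (hτ : 0 < τ) {z : ℂ} (hz : z ∈ sq n)
    (h : √n / 2 - K ≤ |z.re|) (h' : √n / 2 - K ≤ |z.im|) : idx τ z ∈ coA τ n K :=
  Finset.mem_product.2 ⟨mem_nr hτ hz.1 h, mem_nr hτ hz.2 h'⟩

/-- offsets -/
noncomputable def box (R : ℕ) : Finset (ℤ × ℤ) := Finset.Icc (-R : ℤ) R ×ˢ Finset.Icc (-R : ℤ) R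

theorem card_box (R : ℕ) : (box R).card = (2 * R + 1) ^ 2 := by
  rw [box, Finset.card_product, Int.card_Icc, pow_two]
  have : ((R : ℤ) + 1 - -R).toNat = 2 * R + 1 := by omega
  rw [this]

theorem floor_sub {τ x y : ℝ} {R : ℕ} (hτ : 0 < τ) (h : |x - y| ≤ τ * R) :
    ⌊x / τ⌋ - ⌊y / τ⌋ ∈ Finset.Icc (-R : ℤ) R := by
  obtain ⟨h1, h2⟩ := abs_le.1 h
  have a1 : ⌊x / τ⌋ ≤ ⌊y / τ + R⌋ := Int.floor_mono (by
    rw [div_add' _ _ _ hτ.ne']; gcongr; linarith)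
  have a2 : ⌊y / τ⌋ ≤ ⌊x / τ + R⌋ := Int.floor_mono (by
    rw [div_add' _ _ _ hτ.ne']; gcongr; linarith)
  rw [Int.floor_add_natCast] at a1 a2
  rw [Finset.mem_Icc]
  omega

theorem mem_box {τ : ℝ} {R : ℕ} (hτ : 0 < τ) {z w : ℂ} (h : dist z w ≤ τ * R) :
    idx τ z - idx τ w ∈ box R :=
  Finset.mem_product.2 ⟨floor_sub hτ ((re_le_dist z w).trans h),
    floor_sub hτ ((im_le_dist z w).trans h)⟩

theorem inner_disc {n r : ℝ} {z : ℂ} (hz : z ∈ sq n) (hr : 0 < r) (h : 2 * r ≤ √n / 2) :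
    ∃ w : ℂ, ball w r ⊆ sq n ∧ dist w z ≤ 2 * r ∧ (0 ≤ z.im → w.im = z.im - r) ∧
      (z.im < 0 → w.im = z.im + r) := by
  have key : ∀ x : ℝ, |x| ≤ √n / 2 → ∃ y : ℝ, |y| + r ≤ √n / 2 ∧ |y - x| = r ∧
      (0 ≤ x → y = x - r) ∧ (x < 0 → y = x + r) := by
    intro x hx
    obtain ⟨h1, h2⟩ := abs_le.1 hx
    rcases le_or_gt 0 x with h0 | h0
    · refine ⟨x - r, ?_, by simp [abs_of_pos hr], fun _ => rfl, fun h => absurd h0 (by linarith)⟩
      have : |x - r| ≤ √n / 2 - r := abs_le.2 ⟨by linarith, by linarith⟩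
      linarith
    · refine ⟨x + r, ?_, by simp [abs_of_pos hr], fun h => absurd h0 (by linarith), fun _ => rfl⟩
      have : |x + r| ≤ √n / 2 - r := abs_le.2 ⟨by linarith, by linarith⟩
      linarith
  obtain ⟨x, x1, x2, -, -⟩ := key _ hz.1
  obtain ⟨y, y1, y2, y3, y4⟩ := key _ hz.2
  refine ⟨⟨x, y⟩, fun w hw => ?_, ?_, y3, y4⟩
  · have a1 := (re_le_dist w ⟨x, y⟩).trans_lt hw
    have a2 := (im_le_dist w ⟨x, y⟩).trans_lt hw
    have b1 := abs_sub_abs_le_abs_sub w.re x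
    have b2 := abs_sub_abs_le_abs_sub w.im y
    exact ⟨by linarith, by linarith⟩
  · refine (dist_le_re_im _ _).trans ?_
    simp only [x2, y2]
    linarith

/-- admissible pair of an empty and a crowded region -/
def Good (n t err : ℝ) (E V : Set ℂ) : Prop :=
  MeasurableSet E ∧ MeasurableSet V ∧ Disjoint E V ∧ E ⊆ sq n ∧ volume V ≠ ⊤ ∧
    (t - 1) * volume.real V ≤ volume.real E + err

/-- some admissible pair of the family occurs -/
def Fam {ι : Type} (n t err : ℝ) (j : ℕ) (F : Finset ι) (E V : ι → Set ℂ) : Set Cf :=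
  {ω | ∃ i ∈ F, Good n t err (E i) (V i) ∧ N (E i) ω = 0 ∧ j ≤ N (V i) ω}

theorem fam_le {ι : Type} (n : ℝ) {t : ℝ} (ht : 1 ≤ t) (err : ℝ) (j : ℕ) (F : Finset ι)
    (E V : ι → Set ℂ) : (PP n).real (Fam n t err j F E V) ≤ F.card * (exp err / t ^ j) := by
  have : Fam n t err j F E V =
      ⋃ i ∈ F, {ω | Good n t err (E i) (V i) ∧ N (E i) ω = 0 ∧ j ≤ N (V i) ω} := by
    ext ω; simp only [Fam, mem_ofPred_eq, mem_iUnion, exists_prop]
  rw [this]
  refine (measureReal_biUnion_finset_le _ _).trans ?_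
  rw [← nsmul_eq_mul]
  refine Finset.sum_le_card_nsmul _ _ _ fun i _ => ?_
  by_cases h : Good n t err (E i) (V i)
  swap
  · simp only [h, false_and, ofPred_false, measureReal_empty]
    positivity
  simp only [h, true_and]
  obtain ⟨h1, h2, h3, h4, h5, h6⟩ := h
  refine (tilt_le h1 h2 h3 ht j).trans ?_
  gcongr
  rw [mu_sub h4]
  have := mul_le_mul_of_nonneg_left (mu_le (n := n) h5) (by linarith : 0 ≤ t - 1)
  linarith

/-- every disc of radius `Lr` centred in the square has more than `k` points -/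
def G1 (n : ℝ) (k : ℕ) (Lr : ℝ) (ω : Cf) : Prop := ∀ z ∈ sq n, k + 1 ≤ N (ball z Lr) ω

/-- every disc of radius `r` centred at a point has at most `k` points -/
def G2 (k : ℕ) (r : ℝ) (ω : Cf) : Prop := ∀ y ∈ ω, N (ball y r) ω ≤ k

theorem G1_le {n Lr : ℝ} (k : ℕ) (hL : 0 < Lr) (h : Lr ≤ √n) :
    (PP n).real {ω | ¬G1 n k Lr ω} ≤
      (√n / (Lr / 16) + 2) ^ 2 * (exp (-(π * (Lr / 8) ^ 2) / 2) * 2 ^ k) := by
  have hτ : 0 < Lr / 16 := by positivity
  have : {ω | ¬G1 n k Lr ω} ⊆ ⋃ i ∈ allA (Lr / 16) n,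
      {ω | ball (pt (Lr / 16) i) (Lr / 8) ⊆ sq n ∧ N (ball (pt (Lr / 16) i) (Lr / 8)) ω ≤ k} := by
    intro ω hω
    simp only [G1, mem_ofPred_eq, not_forall, not_le] at hω
    obtain ⟨z, hz, h1⟩ := hω
    obtain ⟨w, w1, w2, -⟩ := inner_disc (r := Lr / 4) hz (by positivity) (by linarith)
    have d := dist_pt hτ w
    have s1 : ball (pt (Lr / 16) (idx (Lr / 16) w)) (Lr / 8) ⊆ ball w (Lr / 4) :=
      ball_subset_ball' (by rw [dist_comm]; linarith)
    have s2 : ball w (Lr / 4) ⊆ ball z Lr := ball_subset_ball' (by linarith)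
    simp only [mem_iUnion]
    refine ⟨_, mem_allA hτ (w1 (mem_ball_self (by positivity))), s1.trans w1, ?_⟩
    have := N_mono' ω (s1.trans s2)
    omega
  refine (measureReal_mono this (measure_ne_top _ _)).trans
    ((measureReal_biUnion_finset_le _ _).trans ?_)
  refine (Finset.sum_le_card_nsmul _ _ (exp (-(π * (Lr / 8) ^ 2) / 2) * 2 ^ k)
    fun i _ => ?_).trans ?_
  · by_cases h : ball (pt (Lr / 16) i) (Lr / 8) ⊆ sq n
    · simp only [h, true_and]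
      have := tail_le (μ := mu n) (V := ball (pt (Lr / 16) i) (Lr / 8)) measurableSet_ball k
      rwa [mu_sub h, vball _ (by positivity)] at this
    · simp only [h, false_and, ofPred_false, measureReal_empty]
      positivity
  · rw [nsmul_eq_mul]
    gcongr
    exact card_allA hτ

theorem real_ae {n : ℝ} {A B : Set Cf} {p : Cf → Prop} (hp : ∀ᵐ ω ∂PP n, p ω)
    (h : ∀ ω, p ω → ω ∈ A → ω ∈ B) : (PP n).real A ≤ (PP n).real B := by
  refine ENNReal.toReal_mono (measure_ne_top _ _) (measure_mono_ae ?_)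
  filter_upwards [hp] with ω hω using h ω hω

theorem G2_le {n r t : ℝ} (k : ℕ) (hr : 0 < r) (ht : 1 ≤ t) :
    (PP n).real {ω | ¬G2 k r ω} ≤
      (√n / r + 2) ^ 2 * (exp ((t - 1) * (π * (3 * r) ^ 2)) / t ^ (k + 1)) := by
  refine le_trans (real_ae (ae_sq n) ?_) ((fam_le n ht ((t - 1) * (π * (3 * r) ^ 2)) (k + 1)
    (allA r n) (fun _ => ∅) (fun i => ball (pt r i) (3 * r))).trans ?_)
  · intro ω h1 h2
    simp only [G2, mem_ofPred_eq, not_forall, not_le] at h2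
    obtain ⟨y, hy, h3⟩ := h2
    refine ⟨_, mem_allA hr (h1 y hy), ⟨.empty, measurableSet_ball, by simp, by simp,
      vball_ne _ _, ?_⟩, N_eq_zero.2 (by simp), ?_⟩
    · rw [vball _ (by positivity)]; simp
    · exact le_trans h3 (N_mono' _ (ball_subset_ball' (by linarith [dist_pt hr y])))
  · gcongr
    exact card_allA hr

/-- `m` disjoint empty discs near an anchor -/
def Emp (n r : ℝ) (m R : ℕ) (A : Finset (ℤ × ℤ)) : Set Cf :=
  Fam n 1 (-(m * (π * (r / 16) ^ 2))) 0 (A ×ˢ Fintype.piFinset fun _ : Fin m => box R)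
    (fun p => ⋃ i, ball (pt (r / 32) (p.1 + p.2 i)) (r / 16)) fun _ => ∅

theorem Emp_le (n r : ℝ) (m R : ℕ) (A : Finset (ℤ × ℤ)) :
    (PP n).real (Emp n r m R A) ≤
      A.card * ((2 * R + 1) ^ 2) ^ m * exp (-(m * (π * (r / 16) ^ 2))) := by
  refine (fam_le n le_rfl _ _ _ _ _).trans (le_of_eq ?_)
  simp [card_box]

theorem mem_Emp {n r : ℝ} {m R : ℕ} {A : Finset (ℤ × ℤ)} {ω : Cf} (hr : 0 < r) {c : ℂ}
    (hc : idx (r / 32) c ∈ A) (w : Fin m → ℂ) (h1 : ∀ i, ball (w i) (r / 8) ⊆ sq n)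
    (h2 : ∀ i, dist (w i) c ≤ r / 32 * R) (h3 : ∀ i, N (ball (w i) (r / 8)) ω = 0)
    (h4 : ∀ i j, i ≠ j → r / 4 ≤ dist (w i) (w j)) : ω ∈ Emp n r m R A := by
  have hτ : 0 < r / 32 := by positivity
  have s : ∀ i, ball (pt (r / 32) (idx (r / 32) (w i))) (r / 16) ⊆ ball (w i) (r / 8) := fun i =>
    ball_subset_ball' (by rw [dist_comm]; linarith [dist_pt hτ (w i)])
  refine ⟨(idx (r / 32) c, fun i => idx (r / 32) (w i) - idx (r / 32) c), ?_, ?_, ?_, zero_le⟩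
  · exact Finset.mem_product.2 ⟨hc, Fintype.mem_piFinset.2 fun i => mem_box hτ (h2 i)⟩
  · simp only [add_sub_cancel]
    refine ⟨.iUnion fun _ => measurableSet_ball, .empty, by simp,
      iUnion_subset fun i => (s i).trans (h1 i), by simp, ?_⟩
    rw [measureReal_iUnion_fintype _ (fun _ => measurableSet_ball) fun _ => vball_ne _ _]
    · simp [vball _ (show 0 ≤ r / 16 by positivity)]
    · intro i j hij
      exact (ball_disjoint_ball (by linarith [h4 i j hij])).mono (s i) (s j)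
  · simp only [add_sub_cancel, N_eq_zero, mem_iUnion, not_exists]
    exact fun x hx i hi => N_eq_zero.1 (h3 i) x hx (s i hi)

end Pool.Agent.Lib.MP_2af9b5_pr
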