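import Pool.Agent.Lib.MP_2af9b5_pr.Poi2

open MeasureTheory ProbabilityTheory Set
open scoped ENNReal Classical Nat

namespace Pool.Agent.Lib.MP_2af9b5_pr

theorem vol_rect (a b c d : ℝ) :
    volume {z : ℂ | z.re ∈ Icc a b ∧ z.im ∈ Icc c d} =
      ENNReal.ofReal (b - a) * ENNReal.ofReal (d - c) := by
  have := Complex.volume_preserving_equiv_real_prod.measure_preimage
    (s := Icc a b ×ˢ Icc c d) (measurableSet_Icc.prod measurableSet_Icc).nullMeasurableSet
  rw [Measure.volume_eq_prod, Measure.prod_prod, Real.volume_Icc, Real.volume_Icc] at this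
  rw [← this]
  rfl

theorem closed_sq (n : ℝ) : IsClosed (sq n) :=
  (isClosed_le (f := fun z : ℂ => |z.re|) (by fun_prop) continuous_const).inter
    (isClosed_le (f := fun z : ℂ => |z.im|) (by fun_prop) continuous_const)

theorem meas_sq (n : ℝ) : MeasurableSet (sq n) := (closed_sq n).measurableSet

theorem vol_sq {n : ℝ} (hn : 0 ≤ n) : volume (sq n) = ENNReal.ofReal n := by
  have : sq n = {z : ℂ | z.re ∈ Icc (-(√n / 2)) (√n / 2) ∧ z.im ∈ Icc (-(√n / 2)) (√n / 2)} := by
    ext z
    simp [sq, abs_le]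
  rw [this, vol_rect, ← ENNReal.ofReal_mul (by linarith [Real.sqrt_nonneg n])]
  congr 1
  nlinarith [Real.mul_self_sqrt hn]

/-- intensity measure -/
noncomputable def mu (n : ℝ) : Measure ℂ := volume.restrict (sq n)

instance mu_fin (n : ℝ) : IsFiniteMeasure (mu n) := by
  constructor
  rw [mu, Measure.restrict_apply_univ]
  rcases le_total 0 n with h | h
  · rw [vol_sq h]; exact ENNReal.ofReal_lt_top
  · have : sq n = sq 0 := by simp [sq, Real.sqrt_eq_zero_of_nonpos h]
    rw [this, vol_sq le_rfl]; exact ENNReal.ofReal_lt_top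

instance (n : ℝ) : NullSingletonClass (mu n) := by unfold mu; infer_instance

/-- the Poisson process on the square -/
noncomputable abbrev PP (n : ℝ) : Measure Cf := Po (mu n)

theorem mu_univ {n : ℝ} (hn : 0 ≤ n) : (mu n).real univ = n := by
  rw [Measure.real, mu, Measure.restrict_apply_univ, vol_sq hn, ENNReal.toReal_ofReal hn]

theorem mu_sub {n : ℝ} {E : Set ℂ} (hE : E ⊆ sq n) : (mu n).real E = volume.real E := by
  rw [Measure.real, mu, Measure.restrict_apply' (meas_sq n), inter_eq_left.2 hE, Measure.real]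

theorem mu_le {n : ℝ} {E : Set ℂ} (hE : volume E ≠ ⊤) : (mu n).real E ≤ volume.real E :=
  ENNReal.toReal_mono hE (Measure.restrict_apply_le _ _)

theorem ae_sq (n : ℝ) : ∀ᵐ ω ∂PP n, ∀ x ∈ ω, x ∈ sq n := by
  have := ae_supp (μ := mu n) (meas_sq n).compl
    (by simp [mu, Measure.restrict_apply (meas_sq n).compl])
  simpa using this

theorem prob_le {n : ℝ} (hn : 0 < n) (E : Finset ℂ → Prop) :
    prob n E ≤ PP n {ω | E ω.toFinset} := by
  have h0 : volume (sq n) ≠ 0 := by rw [vol_sq hn.le]; simpa using hn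
  have h1 : volume (sq n) ≠ ⊤ := by rw [vol_sq hn.le]; simp
  have : IsProbabilityMeasure (volume[|sq n]) := cond_isProbabilityMeasure_of_finite h0 h1
  have e : mu n = ENNReal.ofReal n • volume[|sq n] := by
    rw [ProbabilityTheory.cond, smul_smul, ← vol_sq hn.le, ENNReal.mul_inv_cancel h0 h1, one_smul,
      mu]
  refine le_trans ?_ (Measure.le_sum_apply _ _)
  refine ENNReal.tsum_le_tsum fun m => ?_
  rw [Measure.smul_apply, mu_univ hn.le, e, nu_smul _ ENNReal.ofReal_ne_top, Measure.smul_apply,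
    smul_eq_mul, smul_eq_mul, ← mul_assoc, ← ENNReal.ofReal_pow hn.le,
    ← ENNReal.ofReal_mul (by positivity), (nu_eq_map m).2]
  refine mul_le_mul' (le_of_eq (by congr 1; ring)) ?_
  exact Measure.le_map_apply (nu_eq_map (μ := volume[|sq n]) m).1.aemeasurable
    {ω : Cf | E ω.toFinset}

theorem prob_sub (n : ℝ) {E F G : Finset ℂ → Prop} (h : ∀ P, E P → F P ∨ G P) :
    prob n E ≤ prob n F + prob n G := by
  unfold prob
  rw [← ENNReal.tsum_add]
  refine ENNReal.tsum_le_tsum fun m => ?_
  rw [← mul_add]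
  refine mul_le_mul' le_rfl (le_trans (measure_mono ?_) (measure_union_le _ _))
  exact fun x hx => h _ hx

theorem prob_true {n : ℝ} (hn : 0 < n) : prob n (fun _ => True) = 1 := by
  have h0 : volume (sq n) ≠ 0 := by rw [vol_sq hn.le]; simpa using hn
  have h1 : volume (sq n) ≠ ⊤ := by rw [vol_sq hn.le]; simp
  have : IsProbabilityMeasure (volume[|sq n]) := cond_isProbabilityMeasure_of_finite h0 h1
  have h := tsum_exp (-n) n hn.le
  simp only [neg_add_cancel, Real.exp_zero, ENNReal.ofReal_one] at h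
  rw [← h, prob]
  refine tsum_congr fun m => ?_
  rw [← ENNReal.ofReal_pow hn.le, ← ENNReal.ofReal_mul (by positivity)]
  simp only [ofPred_true, measure_univ, mul_one]
  congr 1
  ring

theorem prob_le_one {n : ℝ} (hn : 0 < n) (E : Finset ℂ → Prop) : prob n E ≤ 1 :=
  (prob_le hn E).trans MeasureTheory.prob_le_one

variable {μ : Measure ℂ} [IsFiniteMeasure μ]

theorem swap_le {L G : Set ℂ} (hL : MeasurableSet L) (hG : MeasurableSet G) (hd : Disjoint L G)
    {Z : Set Cf} (hZ : MeasurableSet Z) :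
    Po μ {ω | N G ω = 0 ∧ Po μ {ζ | res Lᶜ ω + res G ζ ∈ Z} = 1} ≤
      ENNReal.ofReal (Real.exp (μ.real L - μ.real G)) * Po μ Z := by
  set R := L ∪ G with hRdef
  have hR : MeasurableSet R := hL.union hG
  have gR : G ∩ R = G := inter_eq_left.2 subset_union_right
  have lR : L ∩ R = L := inter_eq_left.2 subset_union_left
  have m1 : MeasurableSet {p : Cf × Cf | p.1 + res G p.2 ∈ Z} :=
    meas_add measurable_fst ((meas_res hG).comp measurable_snd) hZ
  have mh : Measurable fun ω : Cf => Po μ {ζ | ω + res G ζ ∈ Z} :=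
    measurable_measure_prodMk_left m1
  set H : Set Cf := {ω | Po μ {ζ | ω + res G ζ ∈ Z} = 1} with hH
  have mH : MeasurableSet H := mh (measurableSet_singleton 1)
  have mG : MeasurableSet {ω | N G ω = 0} := meas_N hG (measurableSet_singleton 0)
  have mL : MeasurableSet {ω | N L ω = 0} := meas_N hL (measurableSet_singleton 0)
  have e1 : {ω | N G ω = 0 ∧ Po μ {ζ | res Lᶜ ω + res G ζ ∈ Z} = 1} =
      res R ⁻¹' {ω | N G ω = 0} ∩ res Rᶜ ⁻¹' H := by
    ext ω
    simp only [mem_ofPred_eq, mem_inter_iff, mem_preimage, N_res, hH,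
      gR]
    refine and_congr_right fun h => ?_
    rw [res_congr (B := Lᶜ) (C := Rᶜ) fun x hx => by simp [hRdef, N_eq_zero.1 h x hx]]
  have e2 : res R ⁻¹' {ω | N G ω = 0} = {ω | N G ω = 0} := by
    ext ω
    simp only [mem_ofPred_eq, mem_preimage, N_res, gR]
  have e3 : res L ⁻¹' {ω | N L ω = 0} = {ω | N L ω = 0} := by
    ext ω
    simp only [mem_ofPred_eq, mem_preimage, N_res, inter_self]
  have m2 : MeasurableSet {p : Cf × Cf | N L p.1 = 0 ∧ p.2 + res G p.1 ∈ Z} :=
    (measurable_fst mL).inter (meas_add measurable_snd ((meas_res hG).comp measurable_fst) hZ)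
  have low : ENNReal.ofReal (Real.exp (-μ.real L)) * Po μ (res Rᶜ ⁻¹' H) ≤ Po μ Z := by
    have h := lint_indep (μ := μ) hR (measurable_one.indicator m2)
    have m3 : Measurable fun p : Cf × Cf =>
        {p : Cf × Cf | N L p.1 = 0 ∧ p.2 + res G p.1 ∈ Z}.indicator (1 : Cf × Cf → ℝ≥0∞)
          (res R p.1, res Rᶜ p.2) :=
      (measurable_one.indicator m2).comp
        (((meas_res hR).comp measurable_fst).prodMk ((meas_res hR.compl).comp measurable_snd))
    rw [lintegral_lintegral_swap m3.aemeasurable] at h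
    calc _ = ∫⁻ ω', (res Rᶜ ⁻¹' H).indicator
            (fun _ => ENNReal.ofReal (Real.exp (-μ.real L))) ω' ∂Po μ := by
          rw [lintegral_indicator_const (meas_res hR.compl mH)]
      _ ≤ _ := by
          refine lintegral_mono fun ω' => ?_
          by_cases hω : ω' ∈ res Rᶜ ⁻¹' H
          swap
          · simp [indicator_of_notMem hω]
          rw [indicator_of_mem hω]
          have m4 : MeasurableSet {ζ | res Rᶜ ω' + res G ζ ∈ Z} :=
            meas_add measurable_const (meas_res hG) hZ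
          have h5 := indep_set (μ := μ) hL mL m4
          have e4 : res Lᶜ ⁻¹' {ζ | res Rᶜ ω' + res G ζ ∈ Z} = {ζ | res Rᶜ ω' + res G ζ ∈ Z} := by
            ext ζ
            simp only [mem_preimage, mem_ofPred_eq, res_res,
              inter_eq_left.2 hd.symm.subset_compl_right]
          have hω' : Po μ {ζ | res Rᶜ ω' + res G ζ ∈ Z} = 1 := hω
          rw [e3, e4, hω', mul_one, empty_eq hL] at h5
          rw [← h5, ← lintegral_indicator_one (mL.inter m4)]
          refine lintegral_mono fun ω => le_of_eq ?_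
          simp only [indicator, mem_inter_iff, mem_ofPred_eq, N_res, res_res, Pi.one_apply,
            gR,
            lR]
      _ = _ := h.symm
      _ ≤ Po μ Z := by
          rw [← lintegral_indicator_one hZ]
          refine lintegral_mono fun ω => ?_
          by_cases hω : (res R ω, res Rᶜ ω) ∈ {p : Cf × Cf | N L p.1 = 0 ∧ p.2 + res G p.1 ∈ Z}
          swap
          · simp [indicator_of_notMem hω]
          have h6 : ω ∈ Z := by
            obtain ⟨h7, h8⟩ := hω
            simp only [N_res, res_res, gR,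
              lR] at h7 h8
            rw [res_congr (B := G) (C := R) fun x hx => by
              simp [hRdef, N_eq_zero.1 h7 x hx], add_comm, res_add_compl] at h8
            exact h8
          simp [indicator_of_mem hω, indicator_of_mem h6]
  rw [e1, indep_set hR mG mH, e2, empty_eq hG]
  refine le_trans (le_of_eq ?_) (mul_le_mul' le_rfl low)
  rw [← mul_assoc, ← ENNReal.ofReal_mul (by positivity), ← Real.exp_add]
  congr 3
  ring

theorem vol_shift (x : ℂ) (L : Set ℂ) : volume {z : ℂ | z - x ∈ L} = volume L := by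
  simp only [sub_eq_add_neg]
  exact measure_preimage_add_right volume (-x) L

/-- Comparison with the expected number of points satisfying `Z`. -/
theorem compare_le (n : ℝ) {L G : Set ℂ} (hL : MeasurableSet L) (hG : MeasurableSet G)
    (hd : Disjoint L G) (h0 : 0 ∈ L) (hLf : volume L ≠ ⊤) {Z : Set (ℂ × Cf)}
    (hZ : MeasurableSet Z) :
    PP n {ω | ∃ x ∈ ω, (∀ g ∈ G, x + g ∈ sq n) ∧ N {z | z - x ∈ G} ω = 0 ∧
        ∀ ζ : Cf, (∀ y ∈ ζ, y - x ∈ G) → (x, res {z | z - x ∈ L}ᶜ ω + ζ) ∈ Z} ≤
      ENNReal.ofReal (Real.exp (volume.real L - volume.real G)) * ∫⁻ x, PP n {ω | (x, ω) ∈ Z} ∂mu n := by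
  have mX : MeasurableSet {x : ℂ | ∀ g ∈ G, x + g ∈ sq n} := by
    have : {x : ℂ | ∀ g ∈ G, x + g ∈ sq n} = ⋂ g ∈ G, (fun x => x + g) ⁻¹' sq n := by
      ext x; simp
    rw [this]
    exact (isClosed_biInter fun g _ => (closed_sq n).preimage (by fun_prop)).measurableSet
  have m1 : Measurable fun p : (Cf × ℂ) × Cf =>
      (p.1.2, res {z | z - p.1.2 ∈ L}ᶜ p.1.1 + res {z | z - p.1.2 ∈ G} p.2) := by
    refine measurable_fst.snd.prodMk (meas_add ?_ ?_)
    · exact meas_resp (s := {q : ((Cf × ℂ) × Cf) × ℂ | q.2 - q.1.1.2 ∈ L}ᶜ) measurable_fst.fst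
        ((measurable_snd.sub measurable_fst.fst.snd) hL).compl
    · exact meas_resp (s := {q : ((Cf × ℂ) × Cf) × ℂ | q.2 - q.1.1.2 ∈ G}) measurable_snd
        ((measurable_snd.sub measurable_fst.fst.snd) hG)
  have m2 : Measurable fun p : Cf × ℂ =>
      PP n {ζ | (p.2, res {z | z - p.2 ∈ L}ᶜ p.1 + res {z | z - p.2 ∈ G} ζ) ∈ Z} :=
    measurable_measure_prodMk_left (m1 hZ)
  have m3 : Measurable fun p : Cf × ℂ => N {z | z - p.2 ∈ G} p.1 :=
    meas_Np (s := {q : (Cf × ℂ) × ℂ | q.2 - q.1.2 ∈ G}) measurable_fst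
      ((measurable_snd.sub measurable_fst.snd) hG)
  set s : Set (Cf × ℂ) := {p | (∀ g ∈ G, p.2 + g ∈ sq n) ∧ N {z | z - p.2 ∈ G} p.1 = 0 ∧
    PP n {ζ | (p.2, res {z | z - p.2 ∈ L}ᶜ p.1 + res {z | z - p.2 ∈ G} ζ) ∈ Z} = 1} with hs
  have ms : MeasurableSet s :=
    (measurable_snd mX).inter ((m3 (measurableSet_singleton 0)).inter
      (m2 (measurableSet_singleton 1)))
  have mZ : Measurable fun x => PP n {ω | (x, ω) ∈ Z} := measurable_measure_prodMk_left hZ
  calc _ ≤ PP n {ω | ∃ x ∈ ω, (ω, x) ∈ s} := by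
        refine measure_mono fun ω ⟨x, hx, h1, h2, h3⟩ => ⟨x, hx, h1, h2, ?_⟩
        have : {ζ | (x, res {z | z - x ∈ L}ᶜ ω + res {z | z - x ∈ G} ζ) ∈ Z} = univ :=
          eq_univ_of_forall fun ζ => h3 _ fun y hy => (mem_res.1 hy).2
        simp only [this, measure_univ]
    _ ≤ ∫⁻ ω, (N {x | (ω, x) ∈ s} ω : ℝ≥0∞) ∂PP n := by
        rw [← lintegral_indicator_one (meas_exists (w := fun ω => ω) measurable_id ms)]
        refine lintegral_mono fun ω => ?_
        by_cases h : ω ∈ {ω | ∃ x ∈ ω, (ω, x) ∈ s}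
        · rw [indicator_of_mem h]
          obtain ⟨x, hx, h1⟩ := h
          have : N {x | (ω, x) ∈ s} ω ≠ 0 := fun hc => N_eq_zero.1 hc x hx h1
          simpa [Nat.one_le_iff_ne_zero] using this
        · simp [indicator_of_notMem h]
    _ = ∫⁻ x, PP n {ω | (x ::ₘ ω, x) ∈ s} ∂mu n := mecke ms
    _ ≤ _ := by
        rw [← lintegral_const_mul _ mZ]
        refine lintegral_mono fun x => ?_
        by_cases hx : ∀ g ∈ G, x + g ∈ sq n
        swap
        · have : {ω | (x ::ₘ ω, x) ∈ s} = ∅ := eq_empty_of_forall_notMem fun ω h => hx h.1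
          simp [this]
        have mL : MeasurableSet {z : ℂ | z - x ∈ L} := (measurable_sub_const x) hL
        have mG : MeasurableSet {z : ℂ | z - x ∈ G} := (measurable_sub_const x) hG
        have h := swap_le (μ := mu n) mL mG (hd.preimage fun z => z - x)
          (Z := {ω | (x, ω) ∈ Z}) (measurable_prodMk_left hZ)
        have vL : volume {z : ℂ | z - x ∈ L} = volume L := vol_shift x L
        have vG : volume {z : ℂ | z - x ∈ G} = volume G := vol_shift x G
        refine le_trans (measure_mono ?_) (h.trans (mul_le_mul' ?_ le_rfl))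
        · rintro ω ⟨-, h2, h3⟩
          have xL : x ∉ {z : ℂ | z - x ∈ L}ᶜ := by simpa using h0
          simp only [res_cons_not xL, N_cons] at h2 h3
          exact ⟨by omega, h3⟩
        · refine ENNReal.ofReal_le_ofReal (Real.exp_le_exp.2 (sub_le_sub ?_ (le_of_eq ?_)))
          · refine (mu_le (by rwa [vL])).trans (le_of_eq ?_)
            rw [Measure.real, vL, Measure.real]
          · rw [mu_sub fun z hz => by simpa using hx _ hz, Measure.real, Measure.real, vG]

end Pool.Agent.Lib.MP_2af9b5_pr
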