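import Pool.Agent.Lib.MP_2af9b5_pr.Step

open MeasureTheory ProbabilityTheory Set Metric Real
open scoped ENNReal Classical

namespace Pool.Agent.Lib.MP_2af9b5_pr

/-- lattice cell -/
def cell (τ : ℝ) (i : ℤ × ℤ) : Set ℂ := idx τ ⁻¹' {i}

theorem meas_cell (τ : ℝ) (i : ℤ × ℤ) : MeasurableSet (cell τ i) :=
  meas_idx τ (measurableSet_singleton i)

theorem vol_cell {τ : ℝ} (hτ : 0 < τ) (i : ℤ × ℤ) : volume (cell τ i) = ENNReal.ofReal (τ ^ 2) := by
  have := Complex.volume_preserving_equiv_real_prod.measure_preimage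
    (s := Ico (i.1 * τ) ((i.1 + 1) * τ) ×ˢ Ico (i.2 * τ) ((i.2 + 1) * τ))
    (measurableSet_Ico.prod measurableSet_Ico).nullMeasurableSet
  rw [Measure.volume_eq_prod, Measure.prod_prod, Real.volume_Ico, Real.volume_Ico,
    ← ENNReal.ofReal_mul (by linarith)] at this
  convert this using 2
  · ext z
    simp [cell, idx, Prod.ext_iff, Int.floor_eq_iff, le_div_iff₀ hτ, div_lt_iff₀ hτ]
  · ring

theorem cell_sub {τ : ℝ} (hτ : 0 < τ) (z : ℂ) : cell τ (idx τ z) ⊆ ball z (2 * τ) := by
  intro w hw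
  obtain ⟨h1, h2⟩ := Prod.ext_iff.1 (show idx τ w = idx τ z from hw)
  simp only [idx] at h1 h2
  have a1 := floor_bd hτ w.re
  have a2 := floor_bd hτ w.im
  have a3 := floor_bd hτ z.re
  have a4 := floor_bd hτ z.im
  rw [h1] at a1
  rw [h2] at a2
  have b1 : |w.re - z.re| < τ := abs_lt.2 ⟨by linarith, by linarith⟩
  have b2 : |w.im - z.im| < τ := abs_lt.2 ⟨by linarith, by linarith⟩
  rw [mem_ball]
  linarith [dist_le_re_im w z]

theorem cell_disj (τ : ℝ) {i j : ℤ × ℤ} (h : i ≠ j) : Disjoint (cell τ i) (cell τ j) :=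
  Set.disjoint_left.2 fun _ h1 h2 => h (h1.symm.trans h2)

theorem vol_cells {τ : ℝ} (hτ : 0 < τ) (I : Finset (ℤ × ℤ)) :
    volume.real (⋃ i ∈ I, cell τ i) = I.card * τ ^ 2 := by
  rw [measureReal_biUnion_finset (fun i _ j _ h => cell_disj τ h) (fun i _ => meas_cell τ i)
    fun i _ => by simp [vol_cell hτ]]
  simp [Measure.real, vol_cell hτ, sq_nonneg]

theorem log_fact_le {m : ℕ} (hm : 1 ≤ m) : log m.factorial ≤ (m + 1) * log m - m + 1 := by
  induction m, hm using Nat.le_induction with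
  | base => simp
  | succ m hm ih =>
    have m0 : (0 : ℝ) < m := by exact_mod_cast hm
    have h := one_sub_inv_le_log_of_pos (show 0 < ((m : ℝ) + 1) / m by positivity)
    rw [log_div (by positivity) m0.ne', inv_div, one_sub_div (by positivity), add_sub_cancel_left,
      div_le_iff₀ (by positivity)] at h
    rw [Nat.factorial_succ, Nat.cast_mul, log_mul (by positivity) (by positivity)]
    push_cast
    linarith

theorem log43 : log (4 / 3) ≤ 0.288 := by
  rw [log_le_iff_le_exp (by norm_num)]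
  refine le_trans ?_ (Real.sum_le_exp_of_nonneg (by norm_num) 4)
  simp [Finset.sum_range_succ, Nat.factorial]
  norm_num

theorem pmf_ge {m : ℕ} (hm : 1 ≤ m) (hm' : log m + 1 ≤ 0.00013 * m) :
    exp (-(0.03813 * m)) ≤ exp (-(3 * m / 4)) * (3 * m / 4) ^ m / m.factorial := by
  have m0 : (0 : ℝ) < m := by exact_mod_cast hm
  rw [← le_log_iff_exp_le (by positivity), log_div (by positivity) (by positivity),
    log_mul (by positivity) (by positivity), log_exp, log_pow,
    show (3 * m / 4 : ℝ) = m / (4 / 3) by ring, log_div m0.ne' (by norm_num)]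
  nlinarith [log_fact_le hm, log43]

theorem Z_ge {n a τ Lr : ℝ} {k m : ℕ} {x : ℂ} (hτ : 0 < τ) (hτm : τ ^ 2 = 3 * m / 4) (hm : 1 ≤ m)
    (hm' : log m + 1 ≤ 0.00013 * m) (hx : ball x (2 * a) ⊆ sq n) (ha : 2 * τ ≤ a)
    (hk : k + 1 ≤ 4 / 3 * (Vc * a ^ 2 - 8 * π * a * τ)) :
    ENNReal.ofReal (exp (-(1.15252 * π * a ^ 2))) ≤ PP n {ω | (x, ω) ∈ Zev k Lr} := by
  have a0 : 0 < a := by linarith
  have m0 : (0 : ℝ) < m := by exact_mod_cast hm
  set I := (allA τ n).filter fun i => cell τ i ⊆ ball x (2 * a) \ ball x a with hI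
  have cI : I.card * τ ^ 2 ≤ 3 * π * a ^ 2 := by
    rw [← vol_cells hτ]
    have h : ⋃ i ∈ I, cell τ i ⊆ ball x (2 * a) \ ball x a :=
      iUnion₂_subset fun i hi => (Finset.mem_filter.1 hi).2
    have h' := measureReal_mono (μ := volume) h (fin_of_sub sdiff_subset)
    rw [ann_le _ a0.le (by linarith)] at h'
    linarith
  set R : Option (ℤ × ℤ) → Set ℂ := fun o => o.elim (ball x a) (cell τ) with hR
  set c : Option (ℤ × ℤ) → ℕ := fun o => o.elim 0 fun _ => m with hc
  have mR : ∀ o, MeasurableSet (R o) := by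
    rintro (_ | i)
    exacts [measurableSet_ball, meas_cell τ i]
  have h1 := indep_family (μ := mu n) (Finset.insertNone I) (R := R)
    (A := fun o => {ω | N univ ω = c o}) (fun o _ => mR o)
    (fun o _ => meas_N .univ (measurableSet_singleton _)) (by
      rintro (_ | i) hi (_ | j) hj h
      · exact absurd rfl h
      · exact Set.disjoint_left.2 fun z h1 h2 =>
          ((Finset.mem_filter.1 (Finset.some_mem_insertNone.1 hj)).2 h2).2 h1
      · exact Set.disjoint_left.2 fun z h1 h2 =>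
          ((Finset.mem_filter.1 (Finset.some_mem_insertNone.1 hi)).2 h1).2 h2
      · exact cell_disj τ fun e => h (congrArg _ e))
  refine le_trans ?_ (measure_mono (s := ⋂ o ∈ Finset.insertNone I,
    res (R o) ⁻¹' {ω | N univ ω = c o}) ?_)
  · rw [h1, Finset.prod_insertNone]
    have b1 := count_ge (μ := mu n) (mR none) 0
    have b2 : ∀ i ∈ I, ENNReal.ofReal (exp (-(0.03813 * m))) ≤
        Po (mu n) (res (R (some i)) ⁻¹' {ω | N univ ω = c (some i)}) := by
      intro i hi
      refine le_trans (ENNReal.ofReal_le_ofReal ?_) (count_ge (μ := mu n) (mR (some i)) m)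
      have : (mu n).real (R (some i)) = 3 * m / 4 := by
        change (mu n).real (cell τ i) = _
        rw [mu_sub (((Finset.mem_filter.1 hi).2.trans sdiff_subset).trans hx), Measure.real,
          ← hτm]
        simp [vol_cell hτ, sq_nonneg]
      rw [this]
      exact pmf_ge hm hm'
    have b3 : (mu n).real (R none) = π * a ^ 2 := by
      change (mu n).real (ball x a) = _
      rw [mu_sub ((ball_subset_ball (by linarith)).trans hx), vball _ a0.le]
    rw [b3] at b1
    refine le_trans ?_ (mul_le_mul' b1 (Finset.pow_card_le_prod I _ _ b2))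
    rw [← ENNReal.ofReal_pow (exp_pos _).le, ← ENNReal.ofReal_mul (by positivity), ← exp_nat_mul]
    refine ENNReal.ofReal_le_ofReal ?_
    simp only [pow_zero, mul_one, Nat.factorial_zero, Nat.cast_one, div_one, ← exp_add, exp_le_exp]
    rw [hτm] at cI
    linarith
  · intro ω hω y hy hne _
    simp only [mem_iInter, mem_preimage, mem_ofPred_eq, N_res, univ_inter] at hω hy hne ⊢
    have s1 : a ≤ dist y x := not_lt.1 (N_eq_zero.1 (hω none Finset.none_mem_insertNone) y hy)
    set s := dist y x with hs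
    have s0 : 0 < s := by linarith
    set y' := x + (a / s : ℝ) * (y - x) with hy'
    have d1 : dist y' x = a := by
      rw [hy', dist_self_add_left, norm_mul, ← Complex.dist_eq, Complex.norm_real,
        Real.norm_of_nonneg (by positivity), div_mul_cancel₀ _ s0.ne']
    have d2 : dist y' y = s - a := by
      rw [hy', Complex.dist_eq, show x + (a / s : ℝ) * (y - x) - y =
        -(((1 - a / s : ℝ) : ℂ) * (y - x)) by push_cast; ring, norm_neg, norm_mul,
        ← Complex.dist_eq, Complex.norm_real,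
        Real.norm_of_nonneg (by rw [sub_nonneg, div_le_one s0]; exact s1), sub_mul,
        div_mul_cancel₀ _ s0.ne', one_mul]
    set J := I.filter fun i => cell τ i ⊆ ball y' a with hJ
    have c1 : Vc * a ^ 2 - 8 * π * a * τ ≤ J.card * τ ^ 2 := by
      have := lune_ge y' x (r := a - 2 * τ) (s := a + 2 * τ) (by linarith) (by linarith)
        (by linarith)
      rw [d1] at this
      rw [← vol_cells hτ]
      refine le_trans (by linarith) (this.trans (measureReal_mono (fun z hz => ?_)
        (fin_of_sub (iUnion₂_subset fun i hi => (Finset.mem_filter.1 hi).2))))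
      have e1 : cell τ (idx τ z) ⊆ ball y' a :=
        (cell_sub hτ z).trans (ball_subset_ball' (by linarith [mem_ball.1 hz.1]))
      have e2 : ball y' a ⊆ ball x (2 * a) := ball_subset_ball' (by linarith)
      refine mem_iUnion₂.2 ⟨idx τ z, Finset.mem_filter.2 ⟨Finset.mem_filter.2
        ⟨mem_allA hτ (hx (e2 (e1 rfl))), fun w hw => ⟨e2 (e1 hw), fun hc => hz.2 ?_⟩⟩, e1⟩, rfl⟩
      rw [mem_ball] at hc ⊢
      linarith [mem_ball.1 (cell_sub hτ z hw), dist_triangle_left z x w]
    have c2 : (J.card * m : ℕ) ≤ N (ball y s) ω := by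
      have e1 : cm ω (⋃ i ∈ J, cell τ i) = ∑ i ∈ J, cm ω (cell τ i) :=
        measure_biUnion_finset (fun i _ j _ h => cell_disj τ h) fun i _ => meas_cell τ i
      simp only [cm_apply] at e1
      have e2 : ∀ i ∈ J, (N (cell τ i) ω : ℝ≥0∞) = m := fun i hi => congrArg _
        (hω (some i) (Finset.some_mem_insertNone.2 (Finset.mem_filter.1 hi).1))
      rw [Finset.sum_congr rfl e2, Finset.sum_const, nsmul_eq_mul] at e1
      have e3 : N (⋃ i ∈ J, cell τ i) ω = J.card * m := by exact_mod_cast e1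
      have e4 : ⋃ i ∈ J, cell τ i ⊆ ball y' a :=
        iUnion₂_subset fun i hi => (Finset.mem_filter.1 hi).2
      rw [← e3]
      exact N_mono' ω (e4.trans (ball_subset_ball' (by linarith)))
    have c3 : (J.card * m : ℝ) ≤ N (ball y s) ω := by exact_mod_cast c2
    rw [hτm] at c1
    exact_mod_cast (by linarith : (k + 1 : ℝ) ≤ N (ball y s) ω)

theorem EZ_ge {n a Lr : ℝ} {k : ℕ} (hn : 0 ≤ n) (h1 : 2 * a ≤ √n / 4) (ha : 10000000 ≤ a)
    (hk : Vc * a ^ 2 = 0.75075 * (k + 1)) :
    n / 4 * exp (-(2.72 * (k + 1) / Vc)) ≤ (EZ n k Lr).toReal := by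
  obtain ⟨m, hm⟩ : ∃ m : ℕ, (m : ℝ) = 100000 := ⟨100000, by norm_num⟩
  have hτ : 0 < √75000 := by positivity
  have hτ' : √75000 ≤ 274 := by rw [sqrt_le_left (by norm_num)]; norm_num
  have e : √(n / 4) = √n / 2 := by
    rw [sqrt_div hn, show (4 : ℝ) = 2 ^ 2 by norm_num, sqrt_sq (by norm_num)]
  have s0 := sqrt_nonneg n
  have key : ∀ x ∈ sq (n / 4), ENNReal.ofReal (exp (-(1.15252 * π * a ^ 2))) ≤
      PP n {ω | (x, ω) ∈ Zev k Lr} := by
    intro x hx
    refine Z_ge (m := m) hτ (by rw [sq_sqrt (by norm_num), hm]; norm_num)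
      (by exact_mod_cast (by linarith : (1 : ℝ) ≤ m)) ?_ (fun z hz => ?_) (by linarith) ?_
    · have : log 100000 ≤ 12 := by
        rw [log_le_iff_le_exp (by norm_num), show (12 : ℝ) = (12 : ℕ) * 1 by norm_num, exp_nat_mul]
        exact le_trans (by norm_num) (pow_le_pow_left₀ (by norm_num) exp_one_gt_d9.le 12)
      rw [hm]; linarith
    · rw [mem_sq] at hx ⊢
      intro j
      linarith [hx j, ph_le j z x, mem_ball.1 hz]
    · have b1 : π * √75000 ≤ 3.15 * 274 := by gcongr; exact pi_lt_d2.le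
      have b2 := mul_le_mul_of_nonneg_left b1 (show 0 ≤ a by linarith)
      have b3 : 1.86 * (10000000 * a) ≤ Vc * (a * a) := by gcongr; exacts [Vc_pos.le, Vc_ge]
      nlinarith
  have h2 : ENNReal.ofReal (exp (-(1.15252 * π * a ^ 2))) * ENNReal.ofReal (n / 4) ≤ EZ n k Lr := by
    have : mu n (sq (n / 4)) = ENNReal.ofReal (n / 4) := by
      rw [mu, Measure.restrict_eq_self, vol_sq (by linarith)]
      intro z hz
      rw [mem_sq] at hz ⊢
      exact fun j => by linarith [hz j]
    rw [← this, ← lintegral_indicator_const (meas_sq _)]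
    exact lintegral_mono fun x => indicator_apply_le' (key x) fun _ => zero_le
  refine le_trans ?_ (ENNReal.toReal_mono (EZ_fin _ _ _) h2)
  rw [← ENNReal.ofReal_mul (exp_pos _).le, ENNReal.toReal_ofReal (by positivity), mul_comm]
  gcongr
  rw [le_div_iff₀ Vc_pos]
  have := mul_le_mul_of_nonneg_right pi_lt_d4.le (show 0 ≤ (k : ℝ) + 1 by positivity)
  nlinarith

end Pool.Agent.Lib.MP_2af9b5_pr
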