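import Pool.Agent.Lib.MP_2af9b5_pr.Asym

open MeasureTheory ProbabilityTheory Set Metric Real Filter Topology
open scoped ENNReal Classical

namespace Pool.Agent.Lib.MP_2af9b5_pr

theorem small_bd {ρ η C T : ℝ} (hρ : 0 < ρ) (hη : 0 < η) (hC : 0 < C) (hT : 0 ≤ T)
    (h : 3000000 * η * C ≤ ρ) : ∃ (M : ℕ) (B : ℝ), 1 ≤ M ∧ ∀ l, 1 ≤ l → ∀ n k Lr,
      (PP n).real (⋃ σ ∈ Finset.Icc M ⌈T * l⌉₊, SmallEv n (η * σ)
        (0.000018 * σ * (ρ * l) - 24 * (C * l) * (η * σ)) Lr k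
        (⌈8 * π * C ^ 2 * l / (η * M * ρ)⌉₊ + 1300) ⌈C * l / η⌉₊ ⌈1 / η⌉₊) ≤
      B * (EZ n k Lr).toReal := by
  set b : ℝ := 3 * ((⌈1 / η⌉₊ : ℝ) + 1) ^ 2 with hb
  have b1 : 1 ≤ b := by nlinarith [(Nat.cast_nonneg ⌈1 / η⌉₊ : (0 : ℝ) ≤ _)]
  have q0 := log_nonneg b1
  set X := 8 * π * C ^ 2 / (η * ρ) with hX
  have X0 : 0 ≤ X := by positivity
  obtain ⟨M, hM⟩ := exists_nat_ge ((X * log b + 2) / (0.00001 * ρ) + 1)
  have M0 : 0 ≤ (X * log b + 2) / (0.00001 * ρ) := by positivity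
  have M1 : (1 : ℝ) ≤ M := by linarith
  have M2 : X * log b + 2 ≤ M * (0.00001 * ρ) := by
    rw [← div_le_iff₀ (by positivity)]; linarith
  refine ⟨M, (T + 2) * (4 * ((C / η + 2) * exp (1301 * log b))), by exact_mod_cast M1,
    fun l hl n k Lr => ?_⟩
  set Nn := ⌈8 * π * C ^ 2 * l / (η * M * ρ)⌉₊ + 1300 with hN
  have n1 : (Nn : ℝ) ≤ X * l + 1301 := by
    have a1 := Nat.ceil_lt_add_one (show 0 ≤ 8 * π * C ^ 2 * l / (η * M * ρ) by positivity)
    have a2 : 8 * π * C ^ 2 * l / (η * M * ρ) ≤ 8 * π * C ^ 2 * l / (η * 1 * ρ) := by gcongr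
    have a3 : 8 * π * C ^ 2 * l / (η * 1 * ρ) = X * l := by rw [hX]; ring
    rw [hN]
    push_cast
    linarith
  have n2 : b ^ Nn ≤ exp ((X * l + 1301) * log b) := by
    rw [← exp_log (show 0 < b ^ Nn by positivity), log_pow, exp_le_exp]
    gcongr
  have n3 : (⌈C * l / η⌉₊ : ℝ) + 1 ≤ (C / η + 2) * l := by
    have := Nat.ceil_lt_add_one (show 0 ≤ C * l / η by positivity)
    rw [add_mul, div_mul_eq_mul_div]
    linarith
  have n4 : ((Finset.Icc M ⌈T * l⌉₊).card : ℝ) ≤ (T + 2) * l := by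
    have a1 := Nat.ceil_lt_add_one (show 0 ≤ T * l by positivity)
    have a2 : (Finset.Icc M ⌈T * l⌉₊).card ≤ ⌈T * l⌉₊ + 1 := by simp
    have a3 : ((Finset.Icc M ⌈T * l⌉₊).card : ℝ) ≤ ⌈T * l⌉₊ + 1 := by exact_mod_cast a2
    linarith
  have n5 : l * exp (-l) ≤ 1 := by
    rw [exp_neg, mul_inv_le_iff₀ (exp_pos _)]
    linarith [add_one_le_exp l]
  refine (measureReal_biUnion_finset_le _ _).trans ((Finset.sum_le_card_nsmul _ _
    (4 * ((C / η + 2) * l * exp ((X * l + 1301) * log b)) *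
      (exp (-((X * log b + 2) * l)) * (EZ n k Lr).toReal)) fun σ hσ => ?_).trans ?_)
  · refine (SmallEv_le _ _ _ _ _ _ _ _).trans ?_
    have a1 : (M : ℝ) ≤ σ := by exact_mod_cast (Finset.mem_Icc.1 hσ).1
    have a2 := mul_le_mul_of_nonneg_right h (show 0 ≤ σ * l by positivity)
    have a3 := mul_le_mul_of_nonneg_right (M2.trans (mul_le_mul_of_nonneg_right a1
      (by positivity))) (show 0 ≤ l by positivity)
    gcongr
    linarith
  · rw [nsmul_eq_mul]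
    refine (mul_le_mul_of_nonneg_right n4 (by positivity)).trans ?_
    rw [show -((X * log b + 2) * l) = -(X * l * log b) + -l + -l by ring, add_mul (X * l), exp_add,
      exp_add, exp_add, exp_neg (X * l * log b)]
    have a1 : (l * exp (-l)) * (l * exp (-l)) ≤ 1 := mul_le_one₀ n5 (by positivity) n5
    have a2 := mul_le_mul_of_nonneg_left a1 (show 0 ≤ (T + 2) * (4 * ((C / η + 2) *
      exp (1301 * log b))) * (EZ n k Lr).toReal by positivity)
    refine le_trans (le_of_eq ?_) (a2.trans_eq (mul_one _))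
    field_simp

theorem real_or {n : ℝ} (A B : Set Cf) : (PP n).real {ω | ω ∈ A ∨ ω ∈ B} ≤
    (PP n).real A + (PP n).real B := measureReal_union_le A B

theorem notconn_le {c L : ℝ} (hc : Vc / 2.73 < c) (hL1 : 1 ≤ L) (hL : 1 + c < π * L ^ 2 / 128) :
    ∃ (B : ℝ) (g : ℝ → ℝ), Tendsto g atTop (𝓝 0) ∧ ∀ᶠ n in atTop,
      (PP n).real {ω | ¬Conn ⌊c * log n⌋₊ ω.toFinset} ≤
        g n + B * (EZ n ⌊c * log n⌋₊ (L * lg n)).toReal := by
  have v0 := Vc_pos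
  have c1 : 0.6813 < c := by
    rw [div_lt_iff₀ (by norm_num)] at hc
    linarith [Vc_ge]
  obtain ⟨m, hm⟩ : ∃ m : ℕ, (m : ℝ) = 1000000 := ⟨1000000, by norm_num⟩
  obtain ⟨ρ, hρ⟩ : ∃ ρ : ℝ, ρ = 0.01 := ⟨_, rfl⟩
  have ρ0 : 0 < ρ := by linarith
  obtain ⟨D, hD⟩ : ∃ D, D = m * (L + ρ) := ⟨_, rfl⟩
  have D0 : 0 ≤ D := by rw [hD]; positivity
  obtain ⟨T, hT⟩ : ∃ T, T = 4 * D + 2 * L := ⟨_, rfl⟩
  obtain ⟨C, hC⟩ : ∃ C, C = T + 1 + L := ⟨_, rfl⟩
  have C0 : 0 < C := by linarith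
  obtain ⟨η, η0, hη⟩ : ∃ η, 0 < η ∧ 3000000 * η * C = ρ :=
    ⟨ρ / (3000000 * C), by positivity, by field_simp⟩
  obtain ⟨τ, τ0, hτ⟩ : ∃ τ, 0 < τ ∧ τ * (T + 1) = 0.000001 :=
    ⟨0.000001 / (T + 1), by apply div_pos <;> linarith, div_mul_cancel₀ _ (by linarith)⟩
  have τ1 : τ ≤ 0.000001 := by nlinarith
  obtain ⟨K, hK⟩ : ∃ K, K = 2 * T + 5 * τ + 3 * C := ⟨_, rfl⟩
  have K0 : 0 ≤ K := by linarith
  obtain ⟨R, hR⟩ := exists_nat_ge ((T + 8 * L + ρ) / (ρ / 32))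
  rw [div_le_iff₀' (by positivity)] at hR
  obtain ⟨R', hR'⟩ := exists_nat_ge (T / τ)
  rw [div_le_iff₀' τ0] at hR'
  obtain ⟨P', hP1, hP2⟩ : ∃ P : ℕ, L ≤ P * τ ∧ P * τ < L + τ := ⟨_, ceil_bd τ0 (by linarith)⟩
  obtain ⟨M, B, M1, hB⟩ := small_bd ρ0 η0 C0 (show 0 ≤ T by linarith) hη.le
  have e1 : 104 * π * (P' + 2) * τ ^ 2 ≤ 0.001 := by
    have a1 : (P' + 2) * τ ^ 2 ≤ 0.000001 := by nlinarith
    have := mul_le_mul pi_lt_d2.le a1 (by positivity) (by norm_num)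
    linarith
  have e2 : 60 * π * τ * (T + 4 * τ) ≤ 0.0002 := by
    have a1 : τ * (T + 4 * τ) ≤ 0.000001 := by nlinarith
    have := mul_le_mul pi_lt_d2.le a1 (by apply mul_nonneg <;> linarith) (by norm_num)
    linarith
  have e3 : 1 / 2.73 < c * (1 / Vc) := by
    rwa [mul_one_div, lt_div_iff₀ v0, one_div_mul_eq_div]
  have l4 := mul_le_mul c1.le log45.1 (by norm_num) (by linarith)
  have l5 := mul_le_mul c1.le log45.2 (by norm_num) (by linarith)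
  have l6 := mul_le_mul_of_nonneg_left log_big (show 0 ≤ c by linarith)
  have l7 := mul_le_mul_of_nonneg_left log_big' (show 0 ≤ c by linarith)
  have ρ32 : 0 < ρ / 32 := by positivity
  have t1 := van_G1 (show 0 ≤ c by linarith) (by linarith) hL
  have t2 := van_G2 (c := c) ρ0 (by rw [hρ]; linarith [pi_lt_d2])
  have t3 := van_Emp (ρ := ρ) (m := m) R (ev_all ρ32) (by rw [hρ, hm]; linarith [pi_gt_three])
  have t4 := van_Emp (ρ := ρ) (m := 1) R (ev_co ρ32 K0) (by positivity)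
  have t5 := van_Sink (c := c) (τ := τ) (t := 5) R' P' (by norm_num) (ev_all τ0) (by linarith)
  have t6 := van_Sink (c := c) (τ := τ) (t := 4) R' P' (by norm_num) (ev_bd τ0 K0) (by linarith)
  have t7 := van_Large (c := c) (τ := τ) (t := 1 + 2 * π / Vc) (E := 2 * π) (T := T) R'
    (le_add_of_nonneg_right (by positivity)) (ev_all τ0) (by
      simp only [div_eq_mul_inv] at l6 e3 ⊢; linarith)
  have t8 := van_Large (c := c) (τ := τ) (t := 1 + π / Vc) (E := π) (T := T) R'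
    (le_add_of_nonneg_right (by positivity)) (ev_bd τ0 K0) (by
      simp only [div_eq_mul_inv] at l7 e3 ⊢; linarith)
  refine ⟨exp (π * M ^ 2) + B, _, by
    simpa using t1.add (t2.add (t3.add (t4.add (t5.add (t6.add (t7.add t8)))))), ?_⟩
  filter_upwards [ev_lg, ev_sqrt (2 * (K + T + ρ)), tend_lg.eventually_ge_atTop (M / ρ),
    (tendsto_log_atTop.const_mul_atTop (show 0 < c by linarith)).eventually_ge_atTop 1]
    with n ⟨h1, h2, h3, _⟩ h4 h5 h6
  set l := lg n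
  set k := ⌊c * log n⌋₊
  have l0 : 0 < l := by linarith
  have hk : 1 ≤ k := Nat.one_le_floor_iff _ |>.2 h6
  have M0 : (0 : ℝ) < M := by exact_mod_cast M1
  rw [div_le_iff₀' ρ0] at h5
  have up : ∀ {x y : ℝ}, x ≤ y → x * l ≤ y * l := fun h => mul_le_mul_of_nonneg_right h l0.le
  have s1 := hB l h2 n k (L * l)
  have s2 := CmpEv_le n (-(π * M ^ 2)) (L * l) k (closedBall 0 M) ∅
  rw [neg_neg] at s2
  refine le_trans (real_ae ((ae_sq n).and (ae_nodup (μ := mu n))) (B := {ω | ω ∈ _ ∨ ω ∈ {ω | ω ∈ _ ∨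
    ω ∈ {ω | ω ∈ _ ∨ ω ∈ {ω | ω ∈ _ ∨ ω ∈ {ω | ω ∈ _ ∨ ω ∈ {ω | ω ∈ _ ∨ ω ∈ {ω | ω ∈ _ ∨
    ω ∈ {ω | ω ∈ _ ∨ ω ∈ {ω | ω ∈ _ ∨ ω ∈ _}}}}}}}}}) ?_) (le_trans
    ((real_or _ _).trans (add_le_add le_rfl ((real_or _ _).trans (add_le_add le_rfl
    ((real_or _ _).trans (add_le_add le_rfl ((real_or _ _).trans (add_le_add le_rfl
    ((real_or _ _).trans (add_le_add le_rfl ((real_or _ _).trans (add_le_add le_rfl
    ((real_or _ _).trans (add_le_add le_rfl ((real_or _ _).trans (add_le_add le_rfl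
    ((real_or _ _).trans (add_le_add s2 s1)))))))))))))))))) (le_of_eq (by
      simp only [add_mul, add_assoc]; rfl)))
  rintro ω ⟨hS, hn⟩ hω
  simp only [mem_ofPred_eq, mem_iUnion, exists_prop]
  by_cases g1 : G1 n k (L * l) ω
  swap
  · exact Or.inl g1
  by_cases g2 : G2 k (ρ * l) ω
  swap
  · exact Or.inr (Or.inl g2)
  refine Or.inr (Or.inr ?_)
  obtain ⟨A, a1, a2, a3⟩ := exists_src hω
  rw [val_toFinset hn] at a1 a2 a3
  have r0 : 0 < ρ * l := by positivity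
  have e : ρ / 32 * l = ρ * l / 32 := by ring
  rw [e]
  rcases split3 (m := m) (R := R) (D := D * l) hS g1 g2 (by positivity) r0 (up (by linarith))
    (by rw [hD]; linarith) (by linarith [up (show D + 3 * L ≤ K + T + ρ by linarith)])
    (by linarith [up (show 2 * (D + 4 * L) ≤ ρ / 32 * R by linarith)]) a3 a1 a2 with
    ⟨A, a, b1, b2, b3, b4⟩ | ⟨A, a, b1, b2, b3, b4⟩ | h
  · have δ1 : 8 * π * C ^ 2 * l / (η * M * ρ) ≤ (⌈8 * π * C ^ 2 * l / (η * M * ρ)⌉₊ + 1300 : ℕ) := by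
      push_cast
      linarith [Nat.le_ceil (8 * π * C ^ 2 * l / (η * M * ρ))]
    have δ2 : (1300 : ℝ) ≤ (⌈8 * π * C ^ 2 * l / (η * M * ρ)⌉₊ + 1300 : ℕ) := by
      push_cast
      linarith [(Nat.cast_nonneg ⌈8 * π * C ^ 2 * l / (η * M * ρ)⌉₊ : (0 : ℝ) ≤ _)]
    rw [div_le_iff₀ (by positivity)] at δ1
    rcases src_cover (T := T * l) (τ := τ * l) (η := η) (C := C * l) (K := K * l) (R := R)
      (R' := R') (M := M) (Sm := ⌈T * l⌉₊) (Nn := ⌈8 * π * C ^ 2 * l / (η * M * ρ)⌉₊ + 1300)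
      (P := ⌈C * l / η⌉₊) (Q := ⌈1 / η⌉₊) hS g1 g2 b3 b1 b2
      (fun q h h' => (b4 q h h').trans (by rw [hT]; linarith)) r0 (up (by linarith)) (by linarith)
      (by linarith [up (show T + ρ ≤ ρ / 32 * R by linarith)]) (by positivity)
      (by linarith [up hR']) (by linarith [up (show 12 * τ ≤ ρ by linarith)])
      (by linarith [up (show 2 * T + 4 * τ ≤ K by linarith)])
      (by linarith [up (show T + 3 * C ≤ K by linarith)]) M1 h5 (Nat.le_ceil _)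
      (by rw [hC]; linarith) η0 (by linarith [up hη.le]) hk (by omega)
      (by rw [← mul_div_assoc, div_le_iff₀ (by linarith)]; linarith [up δ1])
      (by rw [div_le_iff₀ (by linarith)]; linarith [pi_lt_d2])
      (ceil_bd η0 (by positivity)).1 (ceil_bd η0 zero_le_one).1 with h | h | h | h | h
    · exact Or.inr (Or.inl h)
    · exact Or.inr (Or.inr (Or.inr (Or.inr (Or.inl h))))
    · exact Or.inr (Or.inr (Or.inr (Or.inr (Or.inr (Or.inl h)))))
    · exact Or.inr (Or.inr (Or.inr (Or.inr (Or.inr (Or.inr (Or.inl h))))))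
    · exact Or.inr (Or.inr (Or.inr (Or.inr (Or.inr (Or.inr (Or.inr h))))))
  · rcases sink_cover (T := T * l) (τ := τ * l) (K := K * l) (R := R) (R' := R') (P := P')
      hS g1 g2 b3 b1 b2 (fun q h h' => (b4 q h h').trans (by
        linarith [up (show 2 * D ≤ T by linarith)])) r0 (by linarith)
      (by linarith [up (show T + ρ ≤ ρ / 32 * R by linarith)]) (by positivity)
      (by linarith [up hR']) (by linarith [up hP1])
      (by linarith [up (show T + P' * τ ≤ K by linarith)]) with h | h | h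
    · exact Or.inr (Or.inl h)
    · exact Or.inr (Or.inr (Or.inl h))
    · exact Or.inr (Or.inr (Or.inr (Or.inl h)))
  · exact Or.inl h

end Pool.Agent.Lib.MP_2af9b5_pr
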