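import Pool.Agent.Lib.MP_2af9b5_pr.Lat

open MeasureTheory ProbabilityTheory Set Metric Real
open scoped ENNReal Classical

namespace Pool.Agent.Lib.MP_2af9b5_pr

theorem edge_iff {k : ℕ} {P : Finset ℂ} {x y : ℂ} :
    Edge k P x y ↔ x ∈ P ∧ y ∈ P ∧ y ≠ x ∧ N (ball x (dist x y)) P.val ≤ k := by
  unfold Edge
  refine and_congr_right fun hx => and_congr_right fun _ => and_congr_right fun hne => ?_
  have e : N (ball x (dist x y)) P.val =
      (P.filter fun w => w ≠ x ∧ dist x w < dist x y).card + 1 := by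
    rw [← Finset.card_insert_of_notMem (a := x) (by simp)]
    change (P.filter (· ∈ ball x (dist x y))).card = _
    congr 1
    ext w
    simp only [Finset.mem_filter, mem_ball', Finset.mem_insert]
    by_cases h : w = x
    · simp [h, hx, hne.symm]
    · simp [h]
  omega

/-- no edge enters `A` -/
def Src (k : ℕ) (A : Set ℂ) (ω : Cf) : Prop :=
  ∀ y ∈ ω, y ∉ A → ∀ a ∈ ω, a ∈ A → k + 1 ≤ N (ball y (dist y a)) ω

theorem exists_src {k : ℕ} {P : Finset ℂ} (h : ¬Conn k P) :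
    ∃ A : Set ℂ, (∃ a ∈ P.val, a ∈ A) ∧ (∃ b ∈ P.val, b ∉ A) ∧ Src k A P.val := by
  simp only [Conn, not_forall] at h
  obtain ⟨u, hu, v, hv, h⟩ := h
  refine ⟨{w | ¬Relation.ReflTransGen (Edge k P) u w}, ⟨v, hv, h⟩,
    ⟨u, hu, fun hc => hc .refl⟩, fun y hy h1 a ha h2 => ?_⟩
  simp only [mem_ofPred_eq, not_not] at h1 h2
  by_contra hc
  exact h2 (h1.tail (edge_iff.2 ⟨hy, ha, by rintro rfl; exact h2 h1, by omega⟩))

theorem Src.far {k : ℕ} {A : Set ℂ} {ω : Cf} {r : ℝ} (h : Src k A ω) (g : G2 k r ω) {y a : ℂ}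
    (hy : y ∈ ω) (hy' : y ∉ A) (ha : a ∈ ω) (ha' : a ∈ A) : r < dist y a := by
  by_contra hc
  have h1 := h y hy hy' a ha ha'
  have h2 := g y hy
  have h3 := N_mono' ω (ball_subset_ball (x := y) (not_lt.1 hc))
  omega

theorem exists_min (ω : Cf) (A : Set ℂ) (h : ∃ a ∈ ω, a ∈ A) (f : ℂ → ℝ) :
    ∃ a ∈ ω, a ∈ A ∧ ∀ b ∈ ω, b ∈ A → f a ≤ f b := by
  obtain ⟨a, ha, h1⟩ := (res A ω).toFinset.exists_min_image f
    (by obtain ⟨a, h1, h2⟩ := h; exact ⟨a, by simp [h1, h2]⟩)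
  simp only [Multiset.mem_toFinset, mem_res] at ha h1
  exact ⟨a, ha.1, ha.2, fun b h2 h3 => h1 b ⟨h2, h3⟩⟩

theorem exists_pair (ω : Cf) (A : Set ℂ) (h : ∃ a ∈ ω, a ∈ A) (h' : ∃ b ∈ ω, b ∉ A) :
    ∃ a ∈ ω, a ∈ A ∧ ∃ b ∈ ω, b ∉ A ∧
      ∀ a' ∈ ω, a' ∈ A → ∀ b' ∈ ω, b' ∉ A → dist b a ≤ dist b' a' := by
  obtain ⟨p, hp, h1⟩ := ((res A ω).toFinset ×ˢ (res Aᶜ ω).toFinset).exists_min_image
    (fun p => dist p.2 p.1) (by
      obtain ⟨a, h1, h2⟩ := h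
      obtain ⟨b, h3, h4⟩ := h'
      exact ⟨(a, b), by simp [h1, h2, h3, h4]⟩)
  simp only [Finset.mem_product, Multiset.mem_toFinset, mem_res, mem_compl_iff] at hp h1
  exact ⟨p.1, hp.1.1, hp.1.2, p.2, hp.2.1, hp.2.2,
    fun a h2 h3 b h4 h5 => h1 (a, b) ⟨⟨h2, h3⟩, h4, h5⟩⟩

/-- many separated zeros -/
def Many (g : ℝ → ℝ → ℝ) (I J : Set ℝ) (m : ℕ) (s : ℝ) : Prop :=
  ∃ z : Fin m → ℝ × ℝ, (∀ i, (z i).1 ∈ I ∧ (z i).2 ∈ J ∧ g (z i).1 (z i).2 = 0) ∧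
    ∀ i j, i ≠ j → s ≤ |(z i).1 - (z j).1| ∨ s ≤ |(z i).2 - (z j).2|

theorem Many.flip {g : ℝ → ℝ → ℝ} {I J : Set ℝ} {m : ℕ} {s : ℝ}
    (h : Many (fun y x => g x y) J I m s) : Many g I J m s := by
  obtain ⟨z, h1, h2⟩ := h
  exact ⟨fun i => (z i).swap, fun i => ⟨(h1 i).2.1, (h1 i).1, (h1 i).2.2⟩,
    fun i j hij => (h2 i j hij).symm⟩

theorem Many.neg {g : ℝ → ℝ → ℝ} {I J : Set ℝ} {m : ℕ} {s : ℝ}
    (h : Many (fun x y => -g x y) I J m s) : Many g I J m s := by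
  obtain ⟨z, h1, h2⟩ := h
  exact ⟨z, fun i => ⟨(h1 i).1, (h1 i).2.1, neg_eq_zero.1 (h1 i).2.2⟩, h2⟩

theorem ivt {f : ℝ → ℝ} (hf : Continuous f) {a b x y : ℝ} (hx : x ∈ Icc a b) (hy : y ∈ Icc a b)
    (h1 : f x ≤ 0) (h2 : 0 ≤ f y) : ∃ z ∈ Icc a b, f z = 0 :=
  isPreconnected_Icc.intermediate_value hx hy hf.continuousOn ⟨h1, h2⟩

theorem many_row {g : ℝ → ℝ → ℝ} (hg : ∀ y, Continuous fun x => g x y) {a b : ℝ} {J : Set ℝ}
    {m : ℕ} {s : ℝ} (p : Fin m → ℝ × ℝ)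
    (h1 : ∀ i, (p i).1 ∈ Icc a b ∧ (p i).2 ∈ J ∧ g (p i).1 (p i).2 ≤ 0)
    (h2 : ∀ i j, i ≠ j → s ≤ |(p i).2 - (p j).2|) :
    Many g (Icc a b) J m s ∨ ∃ y ∈ J, ∀ x ∈ Icc a b, g x y < 0 := by
  by_contra hc
  simp only [not_or, not_exists, not_and, not_forall, not_lt] at hc
  obtain ⟨hc1, hc2⟩ := hc
  have : ∀ i, ∃ x ∈ Icc a b, g x (p i).2 = 0 := fun i => by
    obtain ⟨x, hx, h3⟩ := hc2 _ (h1 i).2.1
    exact ivt (hg _) (h1 i).1 hx (h1 i).2.2 h3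
  choose x hx hx' using this
  exact hc1 ⟨fun i => (x i, (p i).2), fun i => ⟨hx i, (h1 i).2.1, hx' i⟩,
    fun i j hij => Or.inr (h2 i j hij)⟩

theorem sep_mul {m : ℕ} {s : ℝ} (hs : 0 ≤ s) {i j : Fin m} (h : i ≠ j) :
    s ≤ |(i : ℝ) * s - (j : ℝ) * s| := by
  rw [← sub_mul, abs_mul, abs_of_nonneg hs]
  refine le_mul_of_one_le_left hs ?_
  have : (1 : ℤ) ≤ |((i : ℕ) : ℤ) - ((j : ℕ) : ℤ)| :=
    Int.one_le_abs (sub_ne_zero.2 (by exact_mod_cast Fin.val_ne_of_ne h))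
  exact_mod_cast this

theorem many_cross {g : ℝ → ℝ → ℝ} (hg : ∀ x, Continuous fun y => g x y) {a b c d : ℝ}
    {m : ℕ} {s : ℝ} (hs : 0 ≤ s) (hab : a + m * s ≤ b) {y y' : ℝ} (hy : y ∈ Icc c d)
    (hy' : y' ∈ Icc c d) (h1 : ∀ x ∈ Icc a b, g x y < 0) (h2 : ∀ x ∈ Icc a b, -g x y' < 0) :
    Many g (Icc a b) (Icc c d) m s := by
  have hx : ∀ i : Fin m, a + i * s ∈ Icc a b := fun i => by
    have : (i : ℝ) ≤ m := by exact_mod_cast i.2.le
    exact ⟨by have : 0 ≤ (i : ℝ) * s := by positivity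
              linarith, by nlinarith⟩
  have : ∀ i : Fin m, ∃ z ∈ Icc c d, g (a + i * s) z = 0 := fun i =>
    ivt (hg _) hy hy' (h1 _ (hx i)).le (by linarith [h2 _ (hx i)])
  choose z hz hz' using this
  refine ⟨fun i => (a + i * s, z i), fun i => ⟨hx i, hz i, hz' i⟩, fun i j hij => Or.inl ?_⟩
  simpa using sep_mul hs hij

/-- `m` points separated in one coordinate -/
def Spread (X : Set ℂ) (m : ℕ) (s : ℝ) : Prop :=
  ∃ p : Fin m → ℂ, (∀ i, p i ∈ X) ∧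
    ((∀ i j, i ≠ j → s ≤ |(p i).im - (p j).im|) ∨ ∀ i j, i ≠ j → s ≤ |(p i).re - (p j).re|)

theorem many_of_spread {f : ℂ → ℝ} (hf : Continuous f) {a b c d : ℝ} {m : ℕ} {s : ℝ} (hs : 0 ≤ s)
    (hab : a + m * s ≤ b) (hcd : c + m * s ≤ d)
    (h1 : Spread {z | z.re ∈ Icc a b ∧ z.im ∈ Icc c d ∧ f z ≤ 0} m s)
    (h2 : Spread {z | z.re ∈ Icc a b ∧ z.im ∈ Icc c d ∧ -f z ≤ 0} m s) :
    Many (fun x y => f ⟨x, y⟩) (Icc a b) (Icc c d) m s := by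
  have c0 : Continuous fun p : ℝ × ℝ => (⟨p.1, p.2⟩ : ℂ) := Complex.equivRealProdCLM.symm.continuous
  have key : ∀ f : ℂ → ℝ, Continuous f →
      Spread {z | z.re ∈ Icc a b ∧ z.im ∈ Icc c d ∧ f z ≤ 0} m s →
      Many (fun x y => f ⟨x, y⟩) (Icc a b) (Icc c d) m s ∨
        (∃ y ∈ Icc c d, ∀ x ∈ Icc a b, f ⟨x, y⟩ < 0) ∨ ∃ x ∈ Icc a b, ∀ y ∈ Icc c d, f ⟨x, y⟩ < 0 := by
    rintro f hf ⟨p, h3, h4 | h4⟩
    · rcases many_row (g := fun x y => f ⟨x, y⟩)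
        (fun y => hf.comp (c0.comp (continuous_id.prodMk continuous_const)))
        (fun i => ((p i).re, (p i).im)) h3 h4 with h | h
      · exact Or.inl h
      · exact Or.inr (Or.inl h)
    · rcases many_row (g := fun y x => f ⟨x, y⟩)
        (fun y => hf.comp (c0.comp (continuous_const.prodMk continuous_id)))
        (fun i => ((p i).im, (p i).re)) (fun i => ⟨(h3 i).2.1, (h3 i).1, (h3 i).2.2⟩) h4 with h | h
      · exact Or.inl h.flip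
      · exact Or.inr (Or.inr h)
  rcases key f hf h1 with h | ⟨y, hy, h⟩ | ⟨x, hx, h⟩
  · exact h
  · rcases key (fun z => -f z) hf.neg h2 with h' | ⟨y', hy', h'⟩ | ⟨x', hx', h'⟩
    · exact h'.neg
    · exact many_cross (fun y => hf.comp (c0.comp (continuous_const.prodMk continuous_id)))
        hs hab hy hy' h h'
    · linarith [h x' hx', h' y hy]
  · rcases key (fun z => -f z) hf.neg h2 with h' | ⟨y', hy', h'⟩ | ⟨x', hx', h'⟩
    · exact h'.neg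
    · linarith [h y' hy', h' x hx]
    · exact (many_cross (g := fun y x => f ⟨x, y⟩)
        (fun y => hf.comp (c0.comp (continuous_id.prodMk continuous_const)))
        hs hcd hx hx' h h').flip

theorem cluster {X : Set ℂ} {p0 : ℂ} (h0 : p0 ∈ X) {Lr D s : ℝ} {m : ℕ} (hL : 0 < Lr) (hs : 0 ≤ s)
    (hD : m * (Lr + s) ≤ D) :
    (∃ C ⊆ X, p0 ∈ C ∧ (∀ q ∈ C, dist q p0 ≤ 2 * D) ∧ ∀ q ∈ C, ∀ w ∈ X, w ∉ C → Lr ≤ dist q w) ∨
      Spread {z | z ∈ X ∧ |z.re - p0.re| ≤ D + Lr ∧ |z.im - p0.im| ≤ D + Lr} m s := by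
  have D0 : 0 ≤ D := le_trans (by positivity) hD
  set St : ℂ → ℂ → Prop := fun p q => q ∈ X ∧ dist p q < Lr ∧ |p.re - p0.re| ≤ D ∧
    |p.im - p0.im| ≤ D with hSt
  have hC : ∀ q, Relation.ReflTransGen St p0 q →
      q ∈ X ∧ |q.re - p0.re| ≤ D + Lr ∧ |q.im - p0.im| ≤ D + Lr := by
    intro q hq
    induction hq with
    | refl => simp [h0]; linarith
    | @tail p q _ h _ =>
      have a1 := re_le_dist p q
      have a2 := im_le_dist p q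
      have a3 := abs_sub_le q.re p.re p0.re
      have a4 := abs_sub_le q.im p.im p0.im
      rw [abs_sub_comm] at a1 a2
      exact ⟨h.1, by linarith [h.2.1, h.2.2.1], by linarith [h.2.1, h.2.2.2]⟩
  by_cases hin : ∀ q, Relation.ReflTransGen St p0 q → |q.re - p0.re| ≤ D ∧ |q.im - p0.im| ≤ D
  · refine Or.inl ⟨{q | Relation.ReflTransGen St p0 q}, fun q hq => (hC q hq).1, .refl,
      fun q hq => ?_, fun q hq w hw h => ?_⟩
    · linarith [dist_le_re_im q p0, (hin q hq).1, (hin q hq).2]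
    · by_contra hc
      exact h (hq.tail ⟨hw, not_le.1 hc, hin q hq⟩)
  right
  have key : ∀ φ : ℂ → ℝ, (∀ p q, φ q - φ p ≤ dist p q) →
      (∃ q, Relation.ReflTransGen St p0 q ∧ D < φ q - φ p0) →
      ∃ p : Fin m → ℂ, (∀ i, Relation.ReflTransGen St p0 (p i)) ∧
        ∀ i j, i ≠ j → s ≤ |φ (p i) - φ (p j)| := by
    rintro φ hφ ⟨q, hq, hq'⟩
    have k1 : ∀ h, 0 ≤ h → ∀ q, Relation.ReflTransGen St p0 q → h ≤ φ q - φ p0 →
        ∃ p, Relation.ReflTransGen St p0 p ∧ h ≤ φ p - φ p0 ∧ φ p - φ p0 < h + Lr := by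
      intro h h0 q hq
      induction hq with
      | refl => intro h1; exact ⟨p0, .refl, h1, by linarith⟩
      | @tail p q hp hpq ih =>
        intro h1
        by_cases h2 : h ≤ φ p - φ p0
        · exact ih h2
        · exact ⟨q, hp.tail hpq, h1, by linarith [hφ p q, hpq.2.1]⟩
    have k2 : ∀ i : Fin m, ∃ p, Relation.ReflTransGen St p0 p ∧
        i * (Lr + s) ≤ φ p - φ p0 ∧ φ p - φ p0 < i * (Lr + s) + Lr := fun i => by
      have : (i : ℝ) ≤ m := by exact_mod_cast i.2.le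
      exact k1 _ (by positivity) q hq (by nlinarith)
    choose p h1 h2 h3 using k2
    refine ⟨p, h1, fun i j hij => ?_⟩
    have := sep_mul (by positivity : 0 ≤ Lr + s) hij
    rcases le_abs.1 this with h | h
    · exact le_abs.2 (Or.inl (by linarith [h2 i, h3 j]))
    · exact le_abs.2 (Or.inr (by linarith [h2 j, h3 i]))
  simp only [not_forall, not_and_or, not_le] at hin
  obtain ⟨q, hq, h | h⟩ := hin
  · rcases lt_abs.1 h with h | h
    · obtain ⟨p, h1, h2⟩ := key (fun z => z.re)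
        (fun p q => by linarith [re_le_dist p q, neg_abs_le (p.re - q.re)]) ⟨q, hq, h⟩
      exact ⟨p, fun i => hC _ (h1 i), Or.inr h2⟩
    · obtain ⟨p, h1, h2⟩ := key (fun z => -z.re)
        (fun p q => by linarith [re_le_dist p q, le_abs_self (p.re - q.re)])
        ⟨q, hq, by linarith⟩
      exact ⟨p, fun i => hC _ (h1 i), Or.inr fun i j hij => by
        have := h2 i j hij
        rwa [neg_sub_neg, abs_sub_comm] at this⟩
  · rcases lt_abs.1 h with h | h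
    · obtain ⟨p, h1, h2⟩ := key (fun z => z.im)
        (fun p q => by linarith [im_le_dist p q, neg_abs_le (p.im - q.im)]) ⟨q, hq, h⟩
      exact ⟨p, fun i => hC _ (h1 i), Or.inl h2⟩
    · obtain ⟨p, h1, h2⟩ := key (fun z => -z.im)
        (fun p q => by linarith [im_le_dist p q, le_abs_self (p.im - q.im)])
        ⟨q, hq, by linarith⟩
      exact ⟨p, fun i => hC _ (h1 i), Or.inl fun i j hij => by
        have := h2 i j hij
        rwa [neg_sub_neg, abs_sub_comm] at this⟩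

theorem Spread.mono {X Y : Set ℂ} {m : ℕ} {s : ℝ} (h : Spread X m s) (hXY : X ⊆ Y) :
    Spread Y m s := by
  obtain ⟨p, h1, h2⟩ := h
  exact ⟨p, fun i => hXY (h1 i), h2⟩

theorem convex_sq (n : ℝ) : Convex ℝ (sq n) := by
  intro x hx y hy a b ha hb hab
  obtain ⟨h1, h2⟩ := hx
  obtain ⟨h3, h4⟩ := hy
  rw [abs_le] at h1 h2 h3 h4
  constructor <;> rw [abs_le] <;> simp <;> constructor <;> nlinarith

theorem split3 {n Lr r D : ℝ} {k m R : ℕ} {ω : Cf} {A : Set ℂ} (hS : ∀ x ∈ ω, x ∈ sq n)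
    (g1 : G1 n k Lr ω) (g2 : G2 k r ω) (hL : 0 < Lr) (hr : 0 < r) (hrL : r ≤ Lr)
    (hD : m * (Lr + r) ≤ D)
    (hn : D + 3 * Lr ≤ √n / 2) (hR : 2 * (D + 4 * Lr) ≤ r / 32 * R) (hA : Src k A ω)
    (h1 : ∃ a ∈ ω, a ∈ A) (h2 : ∃ b ∈ ω, b ∉ A) :
    (∃ C a, a ∈ ω ∧ a ∈ C ∧ Src k C ω ∧ ∀ q ∈ ω, q ∈ C → dist q a ≤ 2 * D) ∨
    (∃ C b, b ∈ ω ∧ b ∈ C ∧ Src k Cᶜ ω ∧ ∀ q ∈ ω, q ∈ C → dist q b ≤ 2 * D) ∨
    ω ∈ Emp n r m R (allA (r / 32) n) := by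
  have D0 : 0 ≤ D := le_trans (by positivity) hD
  obtain ⟨a, ha, ha', b, hb, hb', hmin⟩ := exists_pair ω A h1 h2
  have far : ∀ y ∈ ω, ∀ w, Lr ≤ dist y w → k + 1 ≤ N (ball y (dist y w)) ω := fun y hy w h =>
    (g1 y (hS y hy)).trans (N_mono' ω (ball_subset_ball h))
  have hab : dist b a ≤ 2 * Lr := by
    by_contra hc
    obtain ⟨v, hv, h3⟩ := N_pos (lt_of_lt_of_le (Nat.succ_pos k)
      (g1 _ ((convex_sq n).midpoint_mem (hS a ha) (hS b hb))))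
    rw [mem_ball] at h3
    have e1 := dist_left_midpoint (𝕜 := ℝ) a b
    have e2 := dist_right_midpoint (𝕜 := ℝ) a b
    simp only [Real.norm_ofNat] at e1 e2
    rw [dist_comm a b] at e1 e2
    by_cases hv' : v ∈ A
    · linarith [hmin v hv hv' b hb hb', dist_triangle_right b v (midpoint ℝ a b)]
    · linarith [hmin a ha ha' v hv hv', dist_triangle_right v a (midpoint ℝ a b)]
  rcases cluster (X := {z | z ∈ ω ∧ z ∈ A}) (p0 := a) ⟨ha, ha'⟩ hL hr.le hD with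
    ⟨C, c1, c2, c3, c4⟩ | sA
  · refine Or.inl ⟨C, a, ha, c2, fun y hy hy' q hq hq' => ?_, fun q _ hq => c3 q hq⟩
    by_cases hyA : y ∈ A
    · exact far y hy q (by rw [dist_comm]; exact c4 q hq' y ⟨hy, hyA⟩ hy')
    · exact hA y hy hyA q hq (c1 hq').2
  rcases cluster (X := {z | z ∈ ω ∧ z ∉ A}) (p0 := b) ⟨hb, hb'⟩ hL hr.le hD with
    ⟨C, c1, c2, c3, c4⟩ | sB
  · refine Or.inr (Or.inl ⟨C, b, hb, c2, fun y hy hy' q hq hq' => ?_, fun q _ hq => c3 q hq⟩)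
    rw [mem_compl_iff, not_not] at hy'
    by_cases hqA : q ∈ A
    · exact hA y hy (c1 hy').2 q hq hqA
    · exact far y hy q (c4 y hy' q ⟨hq, hqA⟩ hq')
  right; right
  have fA : {z | z ∈ ω ∧ z ∈ A}.Finite := (ω.finite_toSet).subset fun z hz => hz.1
  have fB : {z | z ∈ ω ∧ z ∉ A}.Finite := (ω.finite_toSet).subset fun z hz => hz.1
  have win : ∀ x y : ℝ, |x| ≤ √n / 2 → |x - y| ≤ D + 3 * Lr →
      x ∈ Icc (max (-(√n / 2)) (y - (D + 3 * Lr))) (min (√n / 2) (y + (D + 3 * Lr))) := by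
    intro x y h3 h4
    rw [abs_le] at h3 h4
    exact ⟨max_le h3.1 (by linarith), le_min h3.2 (by linarith)⟩
  have len : ∀ y : ℝ, |y| ≤ √n / 2 → max (-(√n / 2)) (y - (D + 3 * Lr)) + m * r ≤
      min (√n / 2) (y + (D + 3 * Lr)) := by
    intro y h3
    rw [abs_le] at h3
    have : m * r ≤ D := le_trans (by gcongr; linarith) hD
    rcases max_cases (-(√n / 2)) (y - (D + 3 * Lr)) with h | h <;>
      rcases min_cases (√n / 2) (y + (D + 3 * Lr)) with h' | h' <;> rw [h.1, h'.1] <;>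
      linarith [h.2, h'.2]
  have b1 := re_le_dist b a
  have b2 := im_le_dist b a
  obtain ⟨z, z1, z2⟩ := many_of_spread
    (f := fun z => infDist z {z | z ∈ ω ∧ z ∈ A} - infDist z {z | z ∈ ω ∧ z ∉ A})
    ((continuous_infDist_pt _).sub (continuous_infDist_pt _)) hr.le (len _ (hS a ha).1)
    (len _ (hS a ha).2)
    (sA.mono fun z hz => ⟨win _ _ (hS z hz.1.1).1 (by linarith [hz.2.1]),
      win _ _ (hS z hz.1.1).2 (by linarith [hz.2.2]), by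
        rw [infDist_zero_of_mem hz.1]; simpa using infDist_nonneg⟩)
    (sB.mono fun z hz => ⟨win _ _ (hS z hz.1.1).1
        (by linarith [hz.2.1, abs_sub_le z.re b.re a.re]),
      win _ _ (hS z hz.1.1).2 (by linarith [hz.2.2, abs_sub_le z.im b.im a.im]), by
        rw [infDist_zero_of_mem hz.1]; simpa using infDist_nonneg⟩)
  have hz : ∀ i, ∃ w : ℂ, ball w (r / 8) ⊆ sq n ∧ dist w ⟨(z i).1, (z i).2⟩ ≤ 2 * (r / 8) := by
    intro i
    obtain ⟨⟨a1, a2⟩, ⟨a3, a4⟩, -⟩ := z1 i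
    obtain ⟨w, w1, w2, -⟩ := inner_disc (n := n) (r := r / 8) (z := ⟨(z i).1, (z i).2⟩)
      ⟨abs_le.2 ⟨(le_max_left _ _).trans a1, a2.trans (min_le_left _ _)⟩,
        abs_le.2 ⟨(le_max_left _ _).trans a3, a4.trans (min_le_left _ _)⟩⟩ (by positivity)
      (by linarith)
    exact ⟨w, w1, w2⟩
  choose w w1 w2 using hz
  refine mem_Emp hr (mem_allA (by positivity) (hS a ha)) w w1 (fun i => ?_) (fun i => ?_)
    fun i j hij => ?_
  · obtain ⟨⟨a1, a2⟩, ⟨a3, a4⟩, -⟩ := z1 i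
    have e1 : |(z i).1 - a.re| ≤ D + 3 * Lr := abs_le.2
      ⟨by linarith [(le_max_right _ _).trans a1], by linarith [a2.trans (min_le_right _ _)]⟩
    have e2 : |(z i).2 - a.im| ≤ D + 3 * Lr := abs_le.2
      ⟨by linarith [(le_max_right _ _).trans a3], by linarith [a4.trans (min_le_right _ _)]⟩
    linarith [dist_triangle (w i) ⟨(z i).1, (z i).2⟩ a, dist_le_re_im ⟨(z i).1, (z i).2⟩ a, w2 i]
  · obtain ⟨-, -, e⟩ := z1 i
    set c : ℂ := ⟨(z i).1, (z i).2⟩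
    obtain ⟨a', a1, a2⟩ := fA.isCompact.exists_infDist_eq_dist ⟨a, ha, ha'⟩ c
    obtain ⟨b', b1, b2⟩ := fB.isCompact.exists_infDist_eq_dist ⟨b, hb, hb'⟩ c
    have f := hA.far g2 b1.1 b1.2 a1.1 a1.2
    have t := dist_triangle_left b' a' c
    refine N_eq_zero.2 fun x hx hx' => ?_
    have t2 := dist_triangle_left c x (w i)
    rw [mem_ball'] at hx'
    by_cases hxA : x ∈ A
    · linarith [infDist_le_dist_of_mem (x := c) (show x ∈ {z | z ∈ ω ∧ z ∈ A} from ⟨hx, hxA⟩),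
        w2 i]
    · linarith [infDist_le_dist_of_mem (x := c) (show x ∈ {z | z ∈ ω ∧ z ∉ A} from ⟨hx, hxA⟩),
        w2 i]
  · have t := dist_triangle4 (⟨(z i).1, (z i).2⟩ : ℂ) (w i) (w j) ⟨(z j).1, (z j).2⟩
    rw [dist_comm _ (w i)] at t
    rcases z2 i j hij with h | h
    · linarith [re_le_dist (⟨(z i).1, (z i).2⟩ : ℂ) ⟨(z j).1, (z j).2⟩, w2 i, w2 j]
    · linarith [im_le_dist (⟨(z i).1, (z i).2⟩ : ℂ) ⟨(z j).1, (z j).2⟩, w2 i, w2 j]

end Pool.Agent.Lib.MP_2af9b5_pr
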