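import Pool.Agent.Lib.MP_2af9b5_pr.Cf

open MeasureTheory ProbabilityTheory Set
open scoped ENNReal Classical Nat

namespace Pool.Agent.Lib.MP_2af9b5_pr

/-- unnormalised law of `m` independent points -/
noncomputable def nu (μ : Measure ℂ) : ℕ → Measure Cf
  | 0 => Measure.dirac 0
  | m + 1 => (μ.prod (nu μ m)).map fun p => p.1 ::ₘ p.2

theorem mcons : Measurable fun p : ℂ × Cf => p.1 ::ₘ p.2 := meas_cons measurable_fst measurable_snd

instance nu_fin (μ : Measure ℂ) [IsFiniteMeasure μ] (m : ℕ) : IsFiniteMeasure (nu μ m) := by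
  induction m with
  | zero => unfold nu; infer_instance
  | succ m ih => unfold nu; infer_instance

variable {μ μ' : Measure ℂ} [IsFiniteMeasure μ] [IsFiniteMeasure μ']

theorem lint_nu_zero {F : Cf → ℝ≥0∞} (hF : Measurable F) : ∫⁻ ω, F ω ∂nu μ 0 = F 0 := by
  simp [nu, lintegral_dirac' _ hF]

theorem lint_nu_succ {F : Cf → ℝ≥0∞} (hF : Measurable F) (m : ℕ) :
    ∫⁻ ω, F ω ∂nu μ (m + 1) = ∫⁻ x, ∫⁻ ω, F (x ::ₘ ω) ∂nu μ m ∂μ := by
  rw [nu, lintegral_map hF mcons]
  exact lintegral_prod _ (hF.comp mcons).aemeasurable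

theorem meas_Ns {s : Set (Cf × ℂ)} (hs : MeasurableSet s) :
    Measurable fun ω => (N {x | (ω, x) ∈ s} ω : ℝ≥0∞) :=
  (measurable_from_top (f := fun n : ℕ => (n : ℝ≥0∞))).comp (meas_Np measurable_id hs)

theorem lint_nu_mul {h : ℂ → ℝ≥0∞} (hh : Measurable h) {g : Cf → ℝ≥0∞} (hg : Measurable g)
    (h0 : g 0 = 1) (hc : ∀ x ω, g (x ::ₘ ω) = h x * g ω) (m : ℕ) :
    ∫⁻ ω, g ω ∂nu μ m = (∫⁻ x, h x ∂μ) ^ m := by
  induction m with
  | zero => simp [lint_nu_zero hg, h0]
  | succ m ih =>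
    rw [lint_nu_succ hg]
    simp only [hc]
    simp only [lintegral_const_mul _ hg, ih]
    rw [lintegral_mul_const _ hh, pow_succ']

theorem mecke_nu (m : ℕ) : ∀ {s : Set (Cf × ℂ)}, MeasurableSet s →
    ∫⁻ ω, (N {x | (ω, x) ∈ s} ω : ℝ≥0∞) ∂nu μ (m + 1) =
      (m + 1 : ℝ≥0∞) * ∫⁻ x, nu μ m {ω | (x ::ₘ ω, x) ∈ s} ∂μ := by
  have cst : Measurable fun n : ℕ => (n : ℝ≥0∞) := measurable_from_top
  have key : ∀ (m : ℕ) {s : Set (Cf × ℂ)}, MeasurableSet s →
      ∫⁻ ω, (N {x | (ω, x) ∈ s} ω : ℝ≥0∞) ∂nu μ (m + 1) =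
        ∫⁻ x, nu μ m {ω | (x ::ₘ ω, x) ∈ s} ∂μ +
        ∫⁻ x, ∫⁻ ω, (N {y | (x ::ₘ ω, y) ∈ s} ω : ℝ≥0∞) ∂nu μ m ∂μ := by
    intro m s hs
    rw [lint_nu_succ (meas_Ns hs)]
    have ht : MeasurableSet {p : ℂ × Cf | (p.1 ::ₘ p.2, p.1) ∈ s} :=
      (mcons.prodMk measurable_fst) hs
    have ht0 : Measurable fun x => nu μ m {ω | (x ::ₘ ω, x) ∈ s} :=
      measurable_measure_prodMk_left ht
    rw [← lintegral_add_left ht0]
    refine lintegral_congr fun x => ?_
    have ht' : MeasurableSet {ω : Cf | (x ::ₘ ω, x) ∈ s} := measurable_prodMk_left ht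
    simp only [N_cons, Nat.cast_add, mem_ofPred_eq]
    rw [lintegral_add_left]
    · congr 1
      rw [← lintegral_indicator_one ht']
      refine lintegral_congr fun ω => ?_
      by_cases h : (x ::ₘ ω, x) ∈ s <;> simp [h, indicator]
    · exact cst.comp (Measurable.ite ht' measurable_const measurable_const)
  induction m with
  | zero =>
    intro s hs
    rw [key 0 hs]
    have : ∀ x, ∫⁻ ω, (N {y | (x ::ₘ ω, y) ∈ s} ω : ℝ≥0∞) ∂nu μ 0 = 0 := by
      intro x
      have hm : MeasurableSet {p : Cf × ℂ | (x ::ₘ p.1, p.2) ∈ s} :=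
        ((meas_cons measurable_const measurable_fst).prodMk measurable_snd) hs
      exact (lint_nu_zero (meas_Ns hm)).trans (by simp)
    simp [this]
  | succ m ih =>
    intro s hs
    rw [key (m + 1) hs]
    have h1 : ∀ x, ∫⁻ ω, (N {y | (x ::ₘ ω, y) ∈ s} ω : ℝ≥0∞) ∂nu μ (m + 1) =
        (m + 1 : ℝ≥0∞) * ∫⁻ y, nu μ m {ω | (x ::ₘ y ::ₘ ω, y) ∈ s} ∂μ := by
      intro x
      have hm : MeasurableSet {p : Cf × ℂ | (x ::ₘ p.1, p.2) ∈ s} :=
        ((meas_cons measurable_const measurable_fst).prodMk measurable_snd) hs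
      exact ih hm
    have hm3 : MeasurableSet {p : (ℂ × ℂ) × Cf | (p.1.1 ::ₘ p.1.2 ::ₘ p.2, p.1.2) ∈ s} :=
      ((meas_cons measurable_fst.fst (meas_cons measurable_fst.snd measurable_snd)).prodMk
        measurable_fst.snd) hs
    have hm4 : Measurable fun p : ℂ × ℂ => nu μ m {ω | (p.1 ::ₘ p.2 ::ₘ ω, p.2) ∈ s} :=
      measurable_measure_prodMk_left (ν := nu μ m) hm3
    simp only [h1]
    rw [lintegral_const_mul _ (Measurable.lintegral_prod_right' hm4),
      lintegral_lintegral_swap hm4.aemeasurable]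
    have h2 : ∀ y, ∫⁻ x, nu μ m {ω | (x ::ₘ y ::ₘ ω, y) ∈ s} ∂μ =
        nu μ (m + 1) {ω | (y ::ₘ ω, y) ∈ s} := by
      intro y
      have ht' : MeasurableSet {ω : Cf | (y ::ₘ ω, y) ∈ s} :=
        ((meas_cons measurable_const measurable_id).prodMk measurable_const) hs
      rw [← lintegral_indicator_one ht', lint_nu_succ (measurable_one.indicator ht')]
      refine lintegral_congr fun x => ?_
      have ht2 : MeasurableSet {ω : Cf | (x ::ₘ y ::ₘ ω, y) ∈ s} :=
        ((meas_cons measurable_const (meas_cons measurable_const measurable_id)).prodMk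
          measurable_const) hs
      rw [← lintegral_indicator_one ht2]
      refine lintegral_congr fun ω => ?_
      simp only [indicator, mem_ofPred_eq, Multiset.cons_swap x y, Pi.one_apply]
    change _ + (m + 1 : ℝ≥0∞) * ∫⁻ y, ∫⁻ x, nu μ m {ω | (x ::ₘ y ::ₘ ω, y) ∈ s} ∂μ ∂μ = _
    simp only [h2]
    push_cast
    ring

theorem lint_nu_add (m : ℕ) : ∀ {F : Cf → ℝ≥0∞}, Measurable F →
    ∫⁻ ω, F ω ∂nu (μ + μ') m = ∑ p ∈ Finset.HasAntidiagonal.antidiagonal m,
      (m.choose p.1 : ℝ≥0∞) * ∫⁻ ω, ∫⁻ ω', F (ω + ω') ∂nu μ' p.2 ∂nu μ p.1 := by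
  induction m with
  | zero =>
    intro F hF
    have h1 : Measurable fun p : Cf × Cf => F (p.1 + p.2) :=
      hF.comp (meas_add measurable_fst measurable_snd)
    simp only [Finset.Nat.antidiagonal_zero, Finset.sum_singleton, Nat.choose_self, Nat.cast_one,
      one_mul]
    rw [lint_nu_zero hF, lint_nu_zero (Measurable.lintegral_prod_right' h1),
      lint_nu_zero (F := fun ω' => F (0 + ω')) (hF.comp (meas_add measurable_const measurable_id))]
    simp
  | succ m ih =>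
    intro F hF
    have h3 : Measurable fun p : (ℂ × Cf) × Cf => F (p.1.1 ::ₘ (p.1.2 + p.2)) :=
      hF.comp (meas_cons measurable_fst.fst (meas_add measurable_fst.snd measurable_snd))
    have h4 : ∀ b, Measurable fun p : ℂ × Cf => ∫⁻ ω', F (p.1 ::ₘ (p.2 + ω')) ∂nu μ' b :=
      fun b => Measurable.lintegral_prod_right' h3
    have h5 : ∀ a b, Measurable fun x : ℂ =>
        ∫⁻ ω, ∫⁻ ω', F (x ::ₘ (ω + ω')) ∂nu μ' b ∂nu μ a :=
      fun a b => Measurable.lintegral_prod_right' (h4 b)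
    rw [Finset.sum_antidiagonal_choose_succ_mul
      (fun a b => ∫⁻ ω, ∫⁻ ω', F (ω + ω') ∂nu μ' b ∂nu μ a), lint_nu_succ hF]
    have e1 : ∀ x, ∫⁻ ω, F (x ::ₘ ω) ∂nu (μ + μ') m = ∑ p ∈ Finset.HasAntidiagonal.antidiagonal m,
      (m.choose p.1 : ℝ≥0∞) * ∫⁻ ω, ∫⁻ ω', F (x ::ₘ (ω + ω')) ∂nu μ' p.2 ∂nu μ p.1 :=
      fun x => ih (F := fun ω => F (x ::ₘ ω)) (hF.comp (meas_cons measurable_const measurable_id))
    simp only [e1]
    rw [lintegral_add_measure, add_comm]
    congr 1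
    · rw [lintegral_finsetSum _ fun p _ => (h5 p.1 p.2).const_mul _]
      refine Finset.sum_congr rfl fun p _ => ?_
      rw [lintegral_const_mul _ (h5 _ _), lintegral_lintegral_swap (h4 _).aemeasurable]
      congr 1
      refine lintegral_congr fun ω => ?_
      rw [lint_nu_succ (F := fun ω' => F (ω + ω'))
        (hF.comp (meas_add measurable_const measurable_id))]
      simp only [Multiset.add_cons]
    · rw [lintegral_finsetSum _ fun p _ => (h5 p.1 p.2).const_mul _]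
      refine Finset.sum_congr rfl fun p hp => ?_
      rw [lintegral_const_mul _ (h5 _ _)]
      congr 1
      · rw [← Finset.HasAntidiagonal.mem_antidiagonal.1 hp, Nat.choose_symm_add]
      · have h1 : Measurable fun q : Cf × Cf => F (q.1 + q.2) :=
          hF.comp (meas_add measurable_fst measurable_snd)
        rw [lint_nu_succ (Measurable.lintegral_prod_right' h1)]
        simp only [Multiset.cons_add]

/-- the Poisson process with finite intensity measure `μ` -/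
noncomputable def Po (μ : Measure ℂ) : Measure Cf :=
  Measure.sum fun m => ENNReal.ofReal (Real.exp (-μ.real univ) / m !) • nu μ m

theorem lint_Po (F : Cf → ℝ≥0∞) : ∫⁻ ω, F ω ∂Po μ =
    ∑' m, ENNReal.ofReal (Real.exp (-μ.real univ) / m !) * ∫⁻ ω, F ω ∂nu μ m := by
  simp [Po, lintegral_sum_measure, lintegral_smul_measure]

theorem tsum_exp (c r : ℝ) (hr : 0 ≤ r) :
    ∑' m : ℕ, ENNReal.ofReal (Real.exp c / m !) * ENNReal.ofReal r ^ m =
      ENNReal.ofReal (Real.exp (c + r)) := by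
  have h := (NormedSpace.expSeries_div_hasSum_exp r).mul_left (Real.exp c)
  rw [← Real.exp_eq_exp_ℝ, ← Real.exp_add] at h
  rw [← h.tsum_eq, ENNReal.ofReal_tsum_of_nonneg (fun m => by positivity) h.summable]
  refine tsum_congr fun m => ?_
  rw [← ENNReal.ofReal_pow hr, ← ENNReal.ofReal_mul (by positivity)]
  congr 1
  ring

theorem laplace {h : ℂ → ℝ≥0∞} (hh : Measurable h) {g : Cf → ℝ≥0∞} (hg : Measurable g)
    (h0 : g 0 = 1) (hc : ∀ x ω, g (x ::ₘ ω) = h x * g ω) {r : ℝ} (hr : 0 ≤ r)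
    (hi : ∫⁻ x, h x ∂μ = ENNReal.ofReal r) :
    ∫⁻ ω, g ω ∂Po μ = ENNReal.ofReal (Real.exp (r - μ.real univ)) := by
  rw [lint_Po]
  simp only [lint_nu_mul hh hg h0 hc, hi]
  rw [tsum_exp _ _ hr]
  congr 2
  ring

instance Po_prob : IsProbabilityMeasure (Po μ) := by
  constructor
  have := laplace (μ := μ) (h := fun _ => 1) measurable_const (g := fun _ => 1) measurable_const
    rfl (by simp) (r := μ.real univ) measureReal_nonneg (by simp [Measure.real])
  simpa using this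

theorem mecke {s : Set (Cf × ℂ)} (hs : MeasurableSet s) :
    ∫⁻ ω, (N {x | (ω, x) ∈ s} ω : ℝ≥0∞) ∂Po μ = ∫⁻ x, Po μ {ω | (x ::ₘ ω, x) ∈ s} ∂μ := by
  have cst : Measurable fun n : ℕ => (n : ℝ≥0∞) := measurable_from_top
  have ht : MeasurableSet {p : ℂ × Cf | (p.1 ::ₘ p.2, p.1) ∈ s} :=
    (mcons.prodMk measurable_fst) hs
  rw [lint_Po, tsum_eq_zero_add' ENNReal.summable,
    lint_nu_zero (meas_Ns hs)]
  simp only [mecke_nu _ hs]
  have e : ∀ x, Po μ {ω | (x ::ₘ ω, x) ∈ s} =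
      ∑' m, ENNReal.ofReal (Real.exp (-μ.real univ) / m !) * nu μ m {ω | (x ::ₘ ω, x) ∈ s} := by
    intro x
    have ht1 : MeasurableSet {ω : Cf | (x ::ₘ ω, x) ∈ s} := measurable_prodMk_left ht
    rw [Po, Measure.sum_apply _ ht1]
    simp
  have ht0 : ∀ m, Measurable fun x => nu μ m {ω | (x ::ₘ ω, x) ∈ s} :=
    fun m => measurable_measure_prodMk_left ht
  simp only [e]
  rw [lintegral_tsum fun m => ((ht0 m).const_mul _).aemeasurable]
  simp only [N_zero, Nat.cast_zero, mul_zero, zero_add]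
  refine tsum_congr fun m => ?_
  rw [← mul_assoc, lintegral_const_mul _ (ht0 m)]
  congr 1
  have : (m + 1 : ℝ≥0∞) = ENNReal.ofReal (m + 1) := by
    rw [ENNReal.ofReal_add (by positivity) (by positivity)]; simp
  rw [this, ← ENNReal.ofReal_mul (by positivity)]
  congr 1
  rw [Nat.factorial_succ]
  push_cast
  field_simp

theorem lint_Po_add {F : Cf → ℝ≥0∞} (hF : Measurable F) :
    ∫⁻ ω, F ω ∂Po (μ + μ') = ∫⁻ ω, ∫⁻ ω', F (ω + ω') ∂Po μ' ∂Po μ := by
  have h1 : Measurable fun q : Cf × Cf => F (q.1 + q.2) :=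
    hF.comp (meas_add measurable_fst measurable_snd)
  have e : ∫⁻ ω, ∫⁻ ω', F (ω + ω') ∂Po μ' ∂Po μ = ∑' p : ℕ × ℕ,
      ENNReal.ofReal (Real.exp (-μ.real univ) / p.1 !) *
        (ENNReal.ofReal (Real.exp (-μ'.real univ) / p.2 !) *
          ∫⁻ ω, ∫⁻ ω', F (ω + ω') ∂nu μ' p.2 ∂nu μ p.1) := by
    rw [lint_Po, ENNReal.tsum_prod']
    refine tsum_congr fun a => ?_
    simp only [ENNReal.tsum_mul_left]
    congr 1
    simp only [lint_Po]
    rw [lintegral_tsum fun b =>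
      ((Measurable.lintegral_prod_right' (ν := nu μ' b) h1).const_mul _).aemeasurable]
    refine tsum_congr fun b => ?_
    exact lintegral_const_mul _ (Measurable.lintegral_prod_right' (ν := nu μ' b) h1)
  rw [e, lint_Po, ← Finset.HasAntidiagonal.sigmaAntidiagonalEquivProd.tsum_eq,
    ENNReal.tsum_sigma']
  refine tsum_congr fun m => ?_
  rw [lint_nu_add m hF, Finset.mul_sum, tsum_fintype, ← Finset.sum_coe_sort]
  refine Finset.sum_congr rfl fun p _ => ?_
  simp only [Finset.HasAntidiagonal.sigmaAntidiagonalEquivProd_apply, ← mul_assoc]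
  congr 1
  have hp := Finset.HasAntidiagonal.mem_antidiagonal.1 p.2
  rw [← ENNReal.ofReal_natCast, ← ENNReal.ofReal_mul (by positivity),
    ← ENNReal.ofReal_mul (by positivity)]
  congr 1
  rw [measureReal_add_apply, neg_add, Real.exp_add]
  have := Nat.add_choose_mul_factorial_mul_factorial p.1.2 p.1.1
  rw [add_comm, hp] at this
  rw [← this]
  have h3 : (m.choose p.1.1 : ℝ) ≠ 0 := by
    exact_mod_cast (Nat.choose_pos (by omega)).ne'
  push_cast
  field_simp

end Pool.Agent.Lib.MP_2af9b5_pr
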