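import Pool.Agent.Lib.MP_2af9b5_pr.Poi

open MeasureTheory ProbabilityTheory Set
open scoped ENNReal Classical Nat

namespace Pool.Agent.Lib.MP_2af9b5_pr

variable {μ : Measure ℂ} [IsFiniteMeasure μ]

theorem ae_supp {B : Set ℂ} (hB : MeasurableSet B) (h : μ B = 0) :
    ∀ᵐ ω ∂Po μ, ∀ x ∈ ω, x ∉ B := by
  have hs : MeasurableSet (Prod.snd ⁻¹' B : Set (Cf × ℂ)) := measurable_snd hB
  have h1 := mecke (μ := μ) hs
  have h2 : ∫⁻ x, Po μ {ω | (x ::ₘ ω, x) ∈ (Prod.snd ⁻¹' B : Set (Cf × ℂ))} ∂μ = 0 := by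
    refine le_antisymm ?_ zero_le
    rw [← h, ← lintegral_indicator_one hB]
    refine lintegral_mono fun x => ?_
    by_cases hx : x ∈ B
    · simp [hx]
    · simp [hx]
  rw [h2, lintegral_eq_zero_iff (meas_Ns hs)] at h1
  filter_upwards [h1] with ω hω
  have : N B ω = 0 := by simpa using hω
  exact N_eq_zero.1 this

theorem lint_split {R : Set ℂ} (hR : MeasurableSet R) {F : Cf × Cf → ℝ≥0∞} (hF : Measurable F) :
    ∫⁻ ω, F (res R ω, res Rᶜ ω) ∂Po μ =
      ∫⁻ ω, ∫⁻ ω', F (ω, ω') ∂Po (μ.restrict Rᶜ) ∂Po (μ.restrict R) := by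
  have h0 : Po μ = Po (μ.restrict R + μ.restrict Rᶜ) := by
    rw [Measure.restrict_add_restrict_compl hR]
  rw [h0, lint_Po_add (F := fun ω => F (res R ω, res Rᶜ ω))
    (hF.comp ((meas_res hR).prodMk (meas_res hR.compl)))]
  have a1 := ae_supp (μ := μ.restrict R) hR.compl (by simp [Measure.restrict_apply hR.compl])
  have a2 := ae_supp (μ := μ.restrict Rᶜ) hR (by simp [Measure.restrict_apply hR])
  refine lintegral_congr_ae ?_
  filter_upwards [a1] with ω h1
  refine lintegral_congr_ae ?_
  filter_upwards [a2] with ω' h2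
  rw [res_add, res_add, res_eq_self (B := R) (ω := ω) (by simpa using h1), res_eq_zero.2 h2,
    res_eq_zero.2 h1, res_eq_self (B := Rᶜ) (ω := ω') h2]
  simp

theorem lint_res {R : Set ℂ} (hR : MeasurableSet R) {F : Cf → ℝ≥0∞} (hF : Measurable F) :
    ∫⁻ ω, F (res R ω) ∂Po μ = ∫⁻ ω, F ω ∂Po (μ.restrict R) := by
  simpa using lint_split (μ := μ) hR (F := fun p => F p.1) (hF.comp measurable_fst)

theorem lint_indep {R : Set ℂ} (hR : MeasurableSet R) {F : Cf × Cf → ℝ≥0∞} (hF : Measurable F) :
    ∫⁻ ω, F (res R ω, res Rᶜ ω) ∂Po μ =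
      ∫⁻ ω, ∫⁻ ω', F (res R ω, res Rᶜ ω') ∂Po μ ∂Po μ := by
  rw [lint_split hR hF, ← lint_res hR (Measurable.lintegral_prod_right' hF)]
  refine lintegral_congr fun ω => ?_
  exact (lint_res hR.compl (F := fun ω' => F (res R ω, ω'))
    (hF.comp (measurable_const.prodMk measurable_id))).symm

theorem indep_set {R : Set ℂ} (hR : MeasurableSet R) {A B : Set Cf} (hA : MeasurableSet A)
    (hB : MeasurableSet B) :
    Po μ (res R ⁻¹' A ∩ res Rᶜ ⁻¹' B) = Po μ (res R ⁻¹' A) * Po μ (res Rᶜ ⁻¹' B) := by
  have h := lint_indep (μ := μ) hR (F := (A ×ˢ B).indicator 1)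
    (measurable_one.indicator (hA.prod hB))
  have hA' := meas_res hR hA
  have hB' := meas_res hR.compl hB
  rw [← lintegral_indicator_one (hA'.inter hB'), ← lintegral_indicator_one hA',
    ← lintegral_indicator_one hB', ← lintegral_mul_const _ (measurable_one.indicator hA')]
  refine Eq.trans ?_ (h.trans ?_)
  · refine lintegral_congr fun ω => ?_
    simp [indicator]
  · refine lintegral_congr fun ω => ?_
    rw [← lintegral_const_mul _ (measurable_one.indicator hB')]
    refine lintegral_congr fun ω' => ?_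
    by_cases h1 : res R ω ∈ A <;> by_cases h2 : res Rᶜ ω' ∈ B <;> simp [indicator, h1, h2]

theorem indep_family {ι : Type*} (I : Finset ι) {R : ι → Set ℂ} {A : ι → Set Cf}
    (hR : ∀ i ∈ I, MeasurableSet (R i)) (hA : ∀ i ∈ I, MeasurableSet (A i))
    (hd : ∀ i ∈ I, ∀ j ∈ I, i ≠ j → Disjoint (R i) (R j)) :
    Po μ (⋂ i ∈ I, res (R i) ⁻¹' A i) = ∏ i ∈ I, Po μ (res (R i) ⁻¹' A i) := by
  induction I using Finset.induction_on with
  | empty => simp
  | insert j I hj ih =>
    rw [Finset.prod_insert hj, Finset.set_biInter_insert, ← ih (fun i hi => hR i (by simp [hi]))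
      (fun i hi => hA i (by simp [hi])) (fun i hi k hk => hd i (by simp [hi]) k (by simp [hk]))]
    have hm : MeasurableSet (⋂ i ∈ I, res (R i) ⁻¹' A i) :=
      Finset.measurableSet_biInter _ fun i hi =>
        meas_res (hR i (by simp [hi])) (hA i (by simp [hi]))
    have e : (⋂ i ∈ I, res (R i) ⁻¹' A i) = res (R j)ᶜ ⁻¹' (⋂ i ∈ I, res (R i) ⁻¹' A i) := by
      ext ω
      simp only [mem_iInter, mem_preimage, res_res]
      refine forall₂_congr fun i hi => ?_
      have : R i ∩ (R j)ᶜ = R i := by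
        rw [inter_eq_left]
        exact (hd i (by simp [hi]) j (by simp) (by rintro rfl; exact hj hi)).subset_compl_right
      rw [this]
    conv_lhs => rw [e]
    rw [indep_set (hR j (by simp)) (hA j (by simp)) hm, ← e]

theorem tilt_eq {E V : Set ℂ} (hE : MeasurableSet E) (hV : MeasurableSet V) (hd : Disjoint E V)
    {t : ℝ} (ht : 0 ≤ t) :
    ∫⁻ ω, (if N E ω = 0 then ENNReal.ofReal t ^ N V ω else 0) ∂Po μ =
      ENNReal.ofReal (Real.exp (-μ.real E + (t - 1) * μ.real V)) := by
  have hu : μ.real univ = μ.real E + μ.real V + μ.real (E ∪ V)ᶜ := by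
    rw [← measureReal_union hd hV, measureReal_add_measureReal_compl (hE.union hV)]
  have := laplace (μ := μ) (h := fun x => V.indicator (fun _ => ENNReal.ofReal t) x +
      (E ∪ V)ᶜ.indicator 1 x)
    ((measurable_const.indicator hV).add (measurable_one.indicator (hE.union hV).compl))
    (g := fun ω => if N E ω = 0 then ENNReal.ofReal t ^ N V ω else 0)
    (Measurable.ite (meas_N hE (measurableSet_singleton 0))
      ((measurable_from_top (f := fun n : ℕ => ENNReal.ofReal t ^ n)).comp (meas_N hV))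
      measurable_const) (by simp) ?_ (r := t * μ.real V + μ.real (E ∪ V)ᶜ) (by positivity) ?_
  · rw [this, hu]
    congr 2
    ring
  · intro x ω
    simp only [N_cons]
    by_cases h1 : x ∈ E
    · have : x ∉ V := fun hc => Set.disjoint_left.1 hd h1 hc
      simp [h1, this]
    · by_cases h2 : x ∈ V
      · simp [h1, h2, pow_add]
      · simp [h1, h2]
  · rw [lintegral_add_left (measurable_const.indicator hV), lintegral_indicator_const hV,
      lintegral_indicator_one (hE.union hV).compl,
      ENNReal.ofReal_add (by positivity) (by positivity), ENNReal.ofReal_mul ht]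
    simp

theorem tilt_le {E V : Set ℂ} (hE : MeasurableSet E) (hV : MeasurableSet V) (hd : Disjoint E V)
    {t : ℝ} (ht : 1 ≤ t) (j : ℕ) :
    (Po μ).real {ω | N E ω = 0 ∧ j ≤ N V ω} ≤
      Real.exp (-μ.real E + (t - 1) * μ.real V) / t ^ j := by
  have hm : MeasurableSet {ω | N E ω = 0 ∧ j ≤ N V ω} :=
    (meas_N hE (measurableSet_singleton 0)).inter (meas_N hV measurableSet_Ici)
  have h1 : ENNReal.ofReal (t ^ j) * Po μ {ω | N E ω = 0 ∧ j ≤ N V ω} ≤
      ENNReal.ofReal (Real.exp (-μ.real E + (t - 1) * μ.real V)) := by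
    rw [← tilt_eq hE hV hd (by linarith), ← lintegral_indicator_const hm]
    refine lintegral_mono fun ω => ?_
    by_cases h : ω ∈ {ω | N E ω = 0 ∧ j ≤ N V ω}
    · rw [indicator_of_mem h, if_pos h.1, ENNReal.ofReal_pow (by linarith)]
      exact pow_le_pow_right₀ (by simpa using ht) h.2
    · simp [indicator_of_notMem h]
  rw [le_div_iff₀ (by positivity), mul_comm]
  have := ENNReal.toReal_mono ENNReal.ofReal_ne_top h1
  rwa [ENNReal.toReal_mul, ENNReal.toReal_ofReal (by positivity),
    ENNReal.toReal_ofReal (by positivity)] at this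

theorem tail_le {V : Set ℂ} (hV : MeasurableSet V) (j : ℕ) :
    (Po μ).real {ω | N V ω ≤ j} ≤ Real.exp (-μ.real V / 2) * 2 ^ j := by
  have hm : MeasurableSet {ω | N V ω ≤ j} := meas_N hV measurableSet_Iic
  have h1 : ENNReal.ofReal ((1 / 2) ^ j) * Po μ {ω | N V ω ≤ j} ≤
      ENNReal.ofReal (Real.exp (-μ.real ∅ + (1 / 2 - 1) * μ.real V)) := by
    rw [← tilt_eq MeasurableSet.empty hV (by simp) (by norm_num), ← lintegral_indicator_const hm]
    refine lintegral_mono fun ω => ?_
    by_cases h : ω ∈ {ω | N V ω ≤ j}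
    · rw [indicator_of_mem h, if_pos (N_eq_zero.2 (by simp)), ENNReal.ofReal_pow (by norm_num)]
      exact pow_le_pow_of_le_one zero_le (by
        rw [← ENNReal.ofReal_one]; exact ENNReal.ofReal_le_ofReal (by norm_num)) h
    · simp [indicator_of_notMem h]
  have := ENNReal.toReal_mono ENNReal.ofReal_ne_top h1
  rw [ENNReal.toReal_mul, ENNReal.toReal_ofReal (by positivity),
    ENNReal.toReal_ofReal (by positivity)] at this
  have e : (-μ.real ∅ + (1 / 2 - 1) * μ.real V) = -μ.real V / 2 := by simp; ring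
  rw [e, one_div, inv_pow, inv_mul_le_iff₀ (by positivity), mul_comm] at this
  exact this

theorem empty_eq {E : Set ℂ} (hE : MeasurableSet E) :
    Po μ {ω | N E ω = 0} = ENNReal.ofReal (Real.exp (-μ.real E)) := by
  have := tilt_eq (μ := μ) hE MeasurableSet.empty (by simp) (t := 1) (by norm_num)
  simp only [ENNReal.ofReal_one, one_pow, sub_self, zero_mul, add_zero] at this
  have hm : MeasurableSet {ω | N E ω = 0} := meas_N hE (measurableSet_singleton 0)
  rw [← this, ← lintegral_indicator_one hm]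
  refine lintegral_congr fun ω => ?_
  simp [indicator]

theorem ae_nodup [NullSingletonClass μ] : ∀ᵐ ω ∂Po μ, ω.Nodup := by
  have h : ∀ m, nu μ m {ω : Cf | ω.Nodup}ᶜ = 0 := by
    intro m
    induction m with
    | zero => simp [nu, Measure.dirac_apply' _ meas_nodup.compl]
    | succ m ih =>
      rw [nu, Measure.map_apply mcons meas_nodup.compl,
        Measure.prod_apply_symm (mcons meas_nodup.compl)]
      refine (lintegral_congr_ae ?_).trans lintegral_zero
      have : ∀ᵐ ω ∂nu μ m, ω.Nodup := by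
        rw [ae_iff]; exact ih
      filter_upwards [this] with ω hω
      refine measure_mono_null (t := (ω.toFinset : Set ℂ)) ?_ (Finset.measure_zero _ _)
      intro x hx
      simpa [hω] using hx
  rw [ae_iff]
  change Po μ {ω : Cf | ω.Nodup}ᶜ = 0
  rw [Po, Measure.sum_apply _ meas_nodup.compl]
  simp [h]

theorem nu_card (m : ℕ) : nu μ m {ω | N univ ω = m} = μ univ ^ m := by
  induction m with
  | zero =>
    have : MeasurableSet {ω : Cf | N univ ω = 0} := meas_N .univ (measurableSet_singleton 0)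
    simp [nu, Measure.dirac_apply' _ this]
  | succ m ih =>
    have : MeasurableSet {ω : Cf | N univ ω = m + 1} := meas_N .univ (measurableSet_singleton _)
    rw [nu, Measure.map_apply mcons this]
    have e : (fun p : ℂ × Cf => p.1 ::ₘ p.2) ⁻¹' {ω : Cf | N univ ω = m + 1} =
        univ ×ˢ {ω : Cf | N univ ω = m} := by
      ext p
      simp [N_cons]
      omega
    rw [e, Measure.prod_prod, ih, pow_succ']

theorem count_ge {R : Set ℂ} (hR : MeasurableSet R) (m : ℕ) :
    ENNReal.ofReal (Real.exp (-μ.real R) * μ.real R ^ m / m !) ≤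
      Po μ (res R ⁻¹' {ω | N univ ω = m}) := by
  have hm : MeasurableSet {ω : Cf | N univ ω = m} := meas_N .univ (measurableSet_singleton _)
  have h := lint_res (μ := μ) hR (F := {ω : Cf | N univ ω = m}.indicator 1)
    (measurable_one.indicator hm)
  rw [lintegral_indicator_one hm] at h
  have e : Po μ (res R ⁻¹' {ω | N univ ω = m}) = Po (μ.restrict R) {ω | N univ ω = m} := by
    rw [← h, ← lintegral_indicator_one (meas_res hR hm)]
    rfl
  rw [e, Po, Measure.sum_apply _ hm]
  refine le_trans ?_ (ENNReal.le_tsum m)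
  rw [Measure.smul_apply, nu_card, smul_eq_mul, Measure.restrict_apply_univ,
    measureReal_restrict_apply_univ, ← ofReal_measureReal (measure_ne_top μ R),
    ← ENNReal.ofReal_pow measureReal_nonneg, ← ENNReal.ofReal_mul (by positivity)]
  apply le_of_eq
  congr 1
  ring

theorem nu_smul (c : ℝ≥0∞) (hc : c ≠ ⊤) (m : ℕ) : nu (c • μ) m = c ^ m • nu μ m := by
  have : IsFiniteMeasure (c • μ) := Measure.smul_finite μ hc
  induction m with
  | zero => simp [nu]
  | succ m ih =>
    ext s hs
    rw [← lintegral_indicator_one hs, lint_nu_succ (measurable_one.indicator hs), ih,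
      Measure.smul_apply, ← lintegral_indicator_one hs,
      lint_nu_succ (measurable_one.indicator hs)]
    simp only [lintegral_smul_measure, smul_eq_mul]
    rw [lintegral_const_mul' _ _ (ENNReal.pow_ne_top hc), pow_succ', mul_assoc]

theorem nu_eq_map (m : ℕ) :
    (Measurable fun x : Fin m → ℂ => (Finset.univ.val.map x : Cf)) ∧
    nu μ m = (Measure.pi fun _ : Fin m => μ).map fun x => (Finset.univ.val.map x : Cf) := by
  induction m with
  | zero =>
    have : (fun x : Fin 0 → ℂ => (Finset.univ.val.map x : Cf)) = fun _ => 0 := by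
      ext1 x; simp
    rw [this]
    refine ⟨measurable_const, ?_⟩
    simp [nu, Measure.pi_of_empty]
  | succ m ih =>
    have e : (fun x : Fin (m + 1) → ℂ => (Finset.univ.val.map x : Cf)) =
        (fun p : ℂ × Cf => p.1 ::ₘ p.2) ∘
          Prod.map id (fun x : Fin m → ℂ => (Finset.univ.val.map x : Cf)) ∘
          MeasurableEquiv.piFinSuccAbove (fun _ => ℂ) 0 := by
      ext1 x
      simp [MeasurableEquiv.piFinSuccAbove, Fin.univ_succ, Fin.tail, Fin.insertNthEquiv]
      rfl
    have m2 : Measurable (Prod.map (id : ℂ → ℂ)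
        (fun x : Fin m → ℂ => (Finset.univ.val.map x : Cf))) := measurable_id.prodMap ih.1
    have m3 := (MeasurableEquiv.piFinSuccAbove (fun _ : Fin (m + 1) => ℂ) 0).measurable
    rw [e]
    refine ⟨mcons.comp (m2.comp m3), ?_⟩
    rw [← Measure.map_map mcons (m2.comp m3), ← Measure.map_map m2 m3,
      (measurePreserving_piFinSuccAbove (fun _ => μ) 0).map_eq,
      ← Measure.map_prod_map _ _ measurable_id ih.1, Measure.map_id, ← ih.2, nu]

end Pool.Agent.Lib.MP_2af9b5_pr
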