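import Pool.Agent.Lib.MP_2af9b5_pr.Large

open MeasureTheory ProbabilityTheory Set Metric Real
open scoped ENNReal Classical

namespace Pool.Agent.Lib.MP_2af9b5_pr

/-- unit vector -/
noncomputable def ex (φ : ℝ) : ℂ := Complex.exp (φ * Complex.I)

theorem norm_ex (φ : ℝ) : ‖ex φ‖ = 1 := Complex.norm_exp_ofReal_mul_I φ

theorem ex_arg (y : ℂ) : ‖y‖ * ex (Complex.arg y) = y := Complex.norm_mul_exp_arg_mul_I y

theorem ex_sub (φ ψ : ℝ) : ‖ex φ - ex ψ‖ ≤ |φ - ψ| := by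
  have : ex φ - ex ψ = (Complex.exp (Complex.I * (φ - ψ : ℝ)) - 1) * ex ψ := by
    rw [sub_mul, one_mul, ex, ex, ← Complex.exp_add]
    congr 2
    push_cast
    ring
  rw [this, norm_mul, norm_ex, mul_one]
  exact Real.norm_exp_I_mul_ofReal_sub_one_le

theorem dist_ex {s t : ℝ} (hs : 0 ≤ s) (φ ψ : ℝ) :
    dist (t * ex φ) (s * ex ψ) ≤ |t - s| + s * |φ - ψ| := by
  have : t * ex φ - s * ex ψ = ((t - s : ℝ) : ℂ) * ex φ + s * (ex φ - ex ψ) := by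
    push_cast; ring
  rw [Complex.dist_eq, this]
  refine (norm_add_le _ _).trans ?_
  rw [norm_mul, norm_mul, norm_ex, Complex.norm_real, Complex.norm_real, Real.norm_eq_abs,
    Real.norm_eq_abs, abs_of_nonneg hs, mul_one]
  gcongr
  exact ex_sub φ ψ

/-- disc through the origin -/
def dk (φ t : ℝ) : Set ℂ := ball (t * ex φ) t

theorem dk_mono (φ : ℝ) {s t : ℝ} (h : s ≤ t) : dk φ s ⊆ dk φ t := by
  rcases le_total s 0 with h0 | h0
  · simp [dk, ball_eq_empty.2 h0]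
  refine ball_subset_ball' ?_
  have := dist_ex h0 (t := t) φ φ
  rw [dist_comm, abs_of_nonneg (by linarith)] at this
  simp at this
  linarith

theorem dk_arg (y : ℂ) : dk (Complex.arg y) ‖y‖ = ball y ‖y‖ := by rw [dk, ex_arg]

theorem mem_dk {φ t : ℝ} (ht : 0 < t) {p : ℂ} :
    p ∈ dk φ t ↔ ‖p‖ ^ 2 < 2 * t * (p * (starRingEnd ℂ) (ex φ)).re := by
  rw [dk, mem_ball, Complex.dist_eq, ← sq_lt_sq₀ (norm_nonneg _) ht.le, Complex.sq_norm,
    Complex.sq_norm, Complex.normSq_sub, Complex.normSq_mul, Complex.normSq_eq_norm_sq (ex φ),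
    norm_ex]
  simp only [Complex.normSq_ofReal, map_mul, Complex.conj_ofReal]
  rw [mul_left_comm, Complex.re_ofReal_mul]
  constructor <;> intro h <;> nlinarith

theorem dk_lip {φ ψ t τ C d : ℝ} (hτ : 0 < τ) (hd : 0 < d) (ht : t ≤ C)
    (h : 2 * C ^ 2 * |φ - ψ| ≤ τ * d) {p : ℂ} (hp : d ≤ ‖p‖) (h1 : p ∈ dk ψ (t - τ)) :
    p ∈ dk φ t := by
  have h0 : 0 < t - τ := by
    by_contra hc
    simp [dk, ball_eq_empty.2 (not_lt.1 hc)] at h1
  rw [mem_dk h0] at h1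
  rw [mem_dk (by linarith)]
  have e : (p * (starRingEnd ℂ) (ex ψ)).re - (p * (starRingEnd ℂ) (ex φ)).re ≤ ‖p‖ * |φ - ψ| := by
    rw [← Complex.sub_re, ← mul_sub, ← map_sub]
    refine (Complex.re_le_norm _).trans ?_
    rw [norm_mul, Complex.norm_conj, abs_sub_comm]
    gcongr
    exact ex_sub ψ φ
  set c := (p * (starRingEnd ℂ) (ex φ)).re
  set c' := (p * (starRingEnd ℂ) (ex ψ)).re
  set l := ‖p‖
  set γ := |φ - ψ|
  have γ0 : 0 ≤ γ := abs_nonneg _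
  have a1 : t * (t - τ) ≤ C ^ 2 := by nlinarith
  have a2 : 2 * (t * (t - τ)) * γ ≤ τ * l := by nlinarith
  have a3 : l * (2 * (t * (t - τ)) * γ) ≤ l * (τ * l) := by gcongr
  have a4 : t * l ^ 2 < t * (2 * (t - τ) * c') := mul_lt_mul_of_pos_left h1 (by linarith)
  have a5 : t * (2 * (t - τ) * c') ≤ t * (2 * (t - τ) * (c + l * γ)) :=
    mul_le_mul_of_nonneg_left (mul_le_mul_of_nonneg_left (by linarith) (by linarith)) (by linarith)
  refine lt_of_mul_lt_mul_left (a := t - τ) ?_ h0.le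
  nlinarith

theorem sector_of {Nn : ℕ} (hN : 0 < Nn) {φ : ℝ} (h0 : 0 ≤ φ) (h1 : φ ≤ π) :
    ∃ j : Fin Nn, φ ∈ Icc (j * (π / Nn)) ((j + 1) * (π / Nn)) := by
  have hδ : 0 < π / Nn := by positivity
  have e : (Nn : ℝ) * (π / Nn) = π := by field_simp
  have f1 := Nat.floor_le (div_nonneg h0 hδ.le)
  have f2 := Nat.lt_floor_add_one (φ / (π / Nn))
  rw [le_div_iff₀ hδ] at f1
  rw [div_lt_iff₀ hδ] at f2
  by_cases h : ⌊φ / (π / Nn)⌋₊ < Nn
  · exact ⟨⟨_, h⟩, f1, f2.le⟩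
  · refine ⟨⟨Nn - 1, by omega⟩, ?_, ?_⟩
    · have : ((Nn - 1 : ℕ) : ℝ) ≤ ⌊φ / (π / Nn)⌋₊ := by exact_mod_cast (by omega)
      exact le_trans (by gcongr) f1
    · simp only [Nat.cast_pred hN, sub_add_cancel]
      linarith

/-- outer radius of the gain region -/
noncomputable def bet (τ R W : ℝ) : ℝ := max (max (R - 2 * τ + 0.495 * (W - τ)) (1.34 * (W - τ))) 0

theorem ray_ineq {τ R W Λ d C : ℝ} (hτ : 0 < τ) (hd : 0 < d) (h1 : d / 2 ≤ R) (h2 : R ≤ 2 * C)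
    (h3 : 0 ≤ W) (h4 : W ≤ 2 * C) (h5 : 0 ≤ Λ) (h6 : Λ ≤ R) (h7 : Λ ≤ W) :
    0.03 * W * d - 15 * C * τ ≤ bet τ R W ^ 2 - max R W ^ 2 - Λ ^ 2 := by
  have key : ∀ b, 0 ≤ b → b ≤ 3 * C → b - 2.5 * τ ≤ bet τ R W → b ^ 2 - 15 * C * τ ≤ bet τ R W ^ 2 := by
    intro b b0 b1 b2
    have b3 : 0 ≤ bet τ R W := le_max_right _ _
    have : b * τ ≤ 3 * C * τ := by gcongr
    rcases le_total (b - 2.5 * τ) 0 with h | h
    · nlinarith
    · nlinarith
  have k1 := key (R + 0.495 * W) (by linarith) (by linarith)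
    (le_trans (by linarith) ((le_max_left _ _).trans (le_max_left _ _)))
  have k2 := key (1.34 * W) (by linarith) (by linarith)
    (le_trans (by linarith) ((le_max_right _ _).trans (le_max_left _ _)))
  have l1 : Λ ^ 2 ≤ R ^ 2 := by gcongr
  have l2 : Λ ^ 2 ≤ W ^ 2 := by gcongr
  have m1 : W * d ≤ W * (2 * R) := by gcongr; linarith
  rcases le_total W R with h | h
  · rw [max_eq_left h]
    nlinarith [mul_le_mul_of_nonneg_left h h3]
  · rw [max_eq_right h]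
    have m2 : W * R ≤ W * W := by gcongr
    rcases le_total (0.83 * W) R with h' | h'
    · nlinarith [mul_le_mul_of_nonneg_left h' h3]
    · have : R ^ 2 ≤ (0.83 * W) ^ 2 := by gcongr; linarith
      nlinarith

/-- decoding of a Lipschitz sequence -/
def dec {Nn : ℕ} (a : ℕ) (inc : Fin Nn → Fin 3) (j : ℕ) : ℤ :=
  a + ∑ i ∈ Finset.range j, if h : i < Nn then ((inc ⟨i, h⟩ : ℕ) : ℤ) - 1 else 0

theorem lip_code (ρ : ℕ → ℕ) (Nn : ℕ)
    (h : ∀ j, j + 1 < Nn → ρ (j + 1) ≤ ρ j + 1 ∧ ρ j ≤ ρ (j + 1) + 1) :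
    ∃ inc : Fin Nn → Fin 3, ∀ j < Nn, dec (ρ 0) inc j = ρ j := by
  refine ⟨fun i => if hi : i + 1 < Nn then ⟨ρ (i + 1) + 1 - ρ i, by have := h i hi; omega⟩ else 1,
    fun j hj => ?_⟩
  induction j with
  | zero => simp [dec]
  | succ j ih =>
    have := ih (by omega)
    unfold dec at this ⊢
    rw [Finset.sum_range_succ, ← add_assoc, this, dif_pos (by omega)]
    simp only [dif_pos hj]
    have := h j hj
    push_cast
    omega

/-- labels for small sources -/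
abbrev ML (Nn : ℕ) := ℕ × (Fin Nn → Fin 3) × (Fin Nn → ℕ) × (Fin Nn → ℕ)

/-- gain region -/
def mG {Nn : ℕ} (τ : ℝ) (l : ML Nn) : Set ℂ :=
  ⋃ j : Fin Nn, Sec (j * (π / Nn)) ((j + 1) * (π / Nn))
    (max (dec l.1 l.2.1 j * τ) (l.2.2.1 j * τ)) (bet τ (dec l.1 l.2.1 j * τ) (l.2.2.1 j * τ))

/-- loss region -/
def mL {Nn : ℕ} (τ : ℝ) (l : ML Nn) : Set ℂ :=
  ⋃ j : Fin Nn, Fan (j * (π / Nn)) ((j + 1) * (π / Nn)) (l.2.2.2 j * τ)

/-- admissible labels -/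
def mF (Nn P Q : ℕ) : Finset (ML Nn) :=
  Finset.range (P + 1) ×ˢ Finset.univ ×ˢ (Fintype.piFinset fun _ => Finset.range (Q + 1)) ×ˢ
    Fintype.piFinset fun _ => Finset.range (Q + 1)

theorem card_mF (Nn P Q : ℕ) : (mF Nn P Q).card = (P + 1) * (3 * (Q + 1) ^ 2) ^ Nn := by
  simp [mF, mul_pow, pow_two, mul_assoc]

theorem sec_disj {δ : ℝ} (hδ : 0 < δ) {i j : ℕ} {φ : ℝ} (h1 : φ ∈ Icc (i * δ) ((i + 1) * δ))
    (h2 : φ ∈ Ioo (j * δ) ((j + 1) * δ)) : i = j := by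
  have a1 : (i : ℝ) < j + 1 := lt_of_mul_lt_mul_right (h1.1.trans_lt h2.2) hδ.le
  have a2 : (j : ℝ) < i + 1 := lt_of_mul_lt_mul_right (h2.1.trans_le h1.2) hδ.le
  have a3 : i < j + 1 := by exact_mod_cast a1
  have a4 : j < i + 1 := by exact_mod_cast a2
  omega

theorem cone {Nn : ℕ} (hN : 0 < Nn) (hδ : π / Nn ≤ 0.0025) {φ : ℝ} (h0 : 0 ≤ φ) (h1 : φ ≤ π) :
    ∃ J : Finset (Fin Nn), 0.0025 ≤ J.card * (π / Nn) ∧
      ∀ j ∈ J, ∀ ψ ∈ Icc (j * (π / Nn)) ((j + 1) * (π / Nn)), |ψ - φ| ≤ 0.01 := by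
  set δ := π / Nn with hδ'
  have δ0 : 0 < δ := by positivity
  have e : (Nn : ℝ) * δ = π := by rw [hδ']; field_simp
  obtain ⟨i, hi⟩ := sector_of hN h0 h1
  set c := ⌊0.005 / δ⌋₊ with hc
  have c1 : c * δ ≤ 0.005 := by rw [← le_div_iff₀ δ0]; exact Nat.floor_le (by positivity)
  have c2 : 0.005 < (c + 1) * δ := by rw [← div_lt_iff₀ δ0]; exact Nat.lt_floor_add_one _
  have c3 : c ≤ Nn := by
    have : (c : ℝ) ≤ Nn := le_of_mul_le_mul_right (by linarith [pi_gt_three]) δ0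
    exact_mod_cast this
  set j0 := min (i : ℕ) (Nn - c) with hj0
  refine ⟨(Finset.Ico j0 (j0 + c)).attachFin fun m hm => by
    have := Finset.mem_Ico.1 hm; omega, by simp; linarith, fun j hj ψ hψ => ?_⟩
  rw [Finset.mem_attachFin, Finset.mem_Ico] at hj
  have a1 : (j : ℝ) ≤ i + c := by exact_mod_cast (by omega : (j : ℕ) ≤ i + c)
  have a2 : (i : ℝ) ≤ j + c := by exact_mod_cast (by omega : (i : ℕ) ≤ j + c)
  have a3 : j * δ ≤ (i + c) * δ := by gcongr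
  have a4 : i * δ ≤ (j + c) * δ := by gcongr
  rw [abs_le]
  constructor <;> linarith [hi.1, hi.2, hψ.1, hψ.2]

end Pool.Agent.Lib.MP_2af9b5_pr
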