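import Pool.Agent.Lib.MP_2af9b5_pr.Part

open MeasureTheory ProbabilityTheory Set Metric Real
open scoped ENNReal Classical

namespace Pool.Agent.Lib.MP_2af9b5_pr

/-- the four directions -/
def dr : Fin 4 → ℂ := ![1, Complex.I, -1, -Complex.I]

/-- coordinate in a direction -/
def ph (j : Fin 4) (z : ℂ) : ℝ := ![z.re, z.im, -z.re, -z.im] j

/-- reflection in the line `ph j = h` -/
noncomputable def rf (j : Fin 4) (h : ℝ) (z : ℂ) : ℂ :=
  (starRingEnd ℂ) ((z - 2 * h * dr j) * (-(dr j)⁻¹ ^ 2))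

theorem norm_dr (j : Fin 4) : ‖dr j‖ = 1 := by fin_cases j <;> simp [dr]

theorem ph_rf (j : Fin 4) (h : ℝ) (z : ℂ) : ph j (rf j h z) = 2 * h - ph j z := by
  fin_cases j <;> simp [ph, rf, dr, pow_two] <;> ring

theorem ph_rf' {i j : Fin 4} (h1 : i ≠ j) (h2 : i ≠ j + 2) (h : ℝ) (z : ℂ) :
    ph i (rf j h z) = ph i z := by
  fin_cases j <;> fin_cases i <;> simp_all [ph, rf, dr, pow_two]

theorem ph_opp (j : Fin 4) (z : ℂ) : ph (j + 2) z = -ph j z := by
  fin_cases j <;> simp [ph]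

theorem ph_le (j : Fin 4) (z w : ℂ) : ph j z - ph j w ≤ dist z w := by
  have h1 := abs_le.1 (re_le_dist z w)
  have h2 := abs_le.1 (im_le_dist z w)
  fin_cases j <;> simp [ph] <;> linarith [h1.1, h1.2, h2.1, h2.2]

theorem mem_sq {n : ℝ} {z : ℂ} : z ∈ sq n ↔ ∀ j, ph j z ≤ √n / 2 := by
  simp only [sq, mem_ofPred_eq, abs_le, Fin.forall_fin_succ, ph]
  simp
  constructor
  · rintro ⟨⟨a, b⟩, c, d⟩; exact ⟨b, d, by linarith, by linarith⟩
  · rintro ⟨a, b, c, d⟩; exact ⟨⟨by linarith, a⟩, by linarith, b⟩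

theorem dist_rf (j : Fin 4) (h : ℝ) (z w : ℂ) : dist (rf j h z) (rf j h w) = dist z w := by
  rw [Complex.dist_eq, rf, rf, ← map_sub, Complex.norm_conj, ← sub_mul, norm_mul, Complex.dist_eq]
  simp [norm_dr]

theorem dist_rf_self (j : Fin 4) (h : ℝ) (z : ℂ) : dist (rf j h z) z = 2 * |h - ph j z| := by
  have : rf j h z - z = ((2 * (h - ph j z) : ℝ) : ℂ) * dr j := by
    fin_cases j <;> apply Complex.ext <;> simp [ph, rf, dr, pow_two] <;> ring
  rw [Complex.dist_eq, this, norm_mul, norm_dr, Complex.norm_real]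
  simp

theorem vol_rf (j : Fin 4) (h : ℝ) {L : Set ℂ} (hL : MeasurableSet L) :
    volume (rf j h ⁻¹' L) = volume L := by
  exact (vol_shift (2 * h * dr j) {w | w * (-(dr j)⁻¹ ^ 2) ∈ {z | (starRingEnd ℂ) z ∈ L}}).trans
    ((vol_unit (by simp [norm_dr]) _).trans (vol_conj hL))

theorem cont_rf (j : Fin 4) (h : ℝ) : Continuous (rf j h) := by
  unfold rf; fun_prop

theorem cont_ph (j : Fin 4) : Continuous (ph j) := by
  fin_cases j
  exacts [Complex.continuous_re, Complex.continuous_im, Complex.continuous_re.neg,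
    Complex.continuous_im.neg]

theorem vol_inter_ball {X : Set ℂ} (c : ℂ) {r s : ℝ} (hs : 0 ≤ s) (h : r ≤ s) :
    volume.real (X ∩ ball c s) ≤ volume.real (X ∩ ball c r) + 2 * π * s * (s - r) := by
  have : X ∩ ball c s ⊆ (X ∩ ball c r) ∪ (ball c s \ ball c r) := by
    intro z; simp only [mem_inter_iff, mem_union, mem_sdiff]; tauto
  refine ((measureReal_mono this (measure_union_ne_top (fin_of_sub inter_subset_right)
    (fin_of_sub sdiff_subset))).trans (measureReal_union_le _ _)).trans ?_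
  gcongr
  rcases le_total 0 r with h0 | h0
  · rw [ann_le c h0 h]
    nlinarith [mul_nonneg pi_pos.le (sq_nonneg (s - r))]
  · refine (measureReal_mono sdiff_subset (vball_ne _ _)).trans ?_
    rw [vball _ hs]
    nlinarith [mul_nonneg (mul_nonneg pi_pos.le hs) (neg_nonneg.2 h0),
      mul_nonneg pi_pos.le (sq_nonneg s)]

/-- labels for sinks -/
abbrev SL := (ℤ × ℤ) × (Fin 4 → ℤ × ℤ) × (Fin 4 → ℕ) × Finset (Fin 4) × Fin 4

/-- bounding box -/
def bx (n τ : ℝ) (c : Fin 4 → ℂ) : Set ℂ := {z | ∀ j, ph j z < ph j (c j) + 2 * τ} ∩ sq n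

theorem meas_bx (n τ : ℝ) (c : Fin 4 → ℂ) : MeasurableSet (bx n τ c) := by
  refine MeasurableSet.inter ?_ (meas_sq n)
  simp only [ofPred_forall]
  exact .iInter fun j => measurableSet_lt (cont_ph j).measurable measurable_const

/-- reflected region -/
def sE (n τ : ℝ) (c : Fin 4 → ℂ) (ρ : Fin 4 → ℕ) (j : Fin 4) : Set ℂ :=
  rf j (ph j (c j) + 2 * τ) ⁻¹' (bx n τ c ∩ ball (c j) ((ρ j - 11) * τ))

/-- the event of a small sink -/
def SinkEv (n τ t err : ℝ) (k R P : ℕ) (A : Finset (ℤ × ℤ)) : Set Cf :=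
  Fam (ι := SL) n t err k
    (A ×ˢ (Fintype.piFinset fun _ => box R) ×ˢ (Fintype.piFinset fun _ => Finset.range (P + 1)) ×ˢ
      Finset.univ ×ˢ Finset.univ)
    (fun l => ⋃ j ∈ l.2.2.2.1, sE n τ (fun j => pt τ (l.1 + l.2.1 j)) l.2.2.1 j)
    fun l => bx n τ (fun j => pt τ (l.1 + l.2.1 j)) ∩
      ball (pt τ (l.1 + l.2.1 l.2.2.2.2)) ((l.2.2.1 l.2.2.2.2 + 2) * τ)

theorem SinkEv_le (n τ : ℝ) {t : ℝ} (ht : 1 ≤ t) (err : ℝ) (k R P : ℕ) (A : Finset (ℤ × ℤ)) :
    (PP n).real (SinkEv n τ t err k R P A) ≤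
      A.card * (((2 * R + 1) ^ 2) ^ 4 * (P + 1) ^ 4 * 64) * (exp err / t ^ k) := by
  refine (fam_le n ht _ _ _ _ _).trans (le_of_eq ?_)
  simp [card_box]
  left
  left
  ring

theorem mem_SinkEv {n τ t Lr D : ℝ} {k R P : ℕ} {A : Finset (ℤ × ℤ)} {ω : Cf} {B : Set ℂ} {b : ℂ}
    (hS : ∀ x ∈ ω, x ∈ sq n) (g1 : G1 n k Lr ω) (hB : Src k Bᶜ ω) (hb : b ∈ ω) (hb' : b ∈ B)
    (hD : ∀ q ∈ ω, q ∈ B → dist q b ≤ D) (hτ : 0 < τ) (hR : D ≤ τ * R) (hP : Lr ≤ τ * P)
    (hA : idx τ b ∈ A) (I : Finset (Fin 4)) (hI : ∀ j ∈ I, ph j b + D + τ * P ≤ √n / 2)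
    (hI0 : I.Nonempty) (ht : t - 1 ≤ I.card) :
    ω ∈ SinkEv n τ t (104 * π * (P + 2) * τ ^ 2) k R P A := by
  have h1 : ∀ j, ∃ q ∈ ω, q ∈ B ∧ ∀ w ∈ ω, w ∈ B → ph j w ≤ ph j q := fun j => by
    obtain ⟨q, a1, a2, a3⟩ := exists_min ω B ⟨b, hb, hb'⟩ fun z => -ph j z
    exact ⟨q, a1, a2, fun w h1 h2 => neg_le_neg_iff.1 (a3 w h1 h2)⟩
  choose q q1 q2 q3 using h1
  have h2 : ∀ j, ∃ ρ : ℕ, k + 1 ≤ N (ball (q j) (ρ * τ)) ω := fun j =>
    ⟨P, (g1 _ (hS _ (q1 j))).trans (N_mono' _ (ball_subset_ball (by linarith)))⟩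
  set ρ : Fin 4 → ℕ := fun j => Nat.find (h2 j) with hρ
  have r1 : ∀ j, k + 1 ≤ N (ball (q j) (ρ j * τ)) ω := fun j => Nat.find_spec (h2 j)
  have r2 : ∀ j, ρ j ≤ P := fun j => Nat.find_min' (h2 j)
    ((g1 _ (hS _ (q1 j))).trans (N_mono' _ (ball_subset_ball (by linarith))))
  have r3 : ∀ j, ∀ x ∈ ω, dist x (q j) < (ρ j - 1) * τ → x ∈ B := by
    intro j x hx h
    by_contra hc
    have h0 : ρ j ≠ 0 := by
      intro h0
      rw [h0] at h
      have := dist_nonneg (x := x) (y := q j)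
      simp at h
      linarith
    apply Nat.find_min (h2 j) (m := ρ j - 1) (by change _ < ρ j; omega)
    refine (hB _ (q1 j) (by simpa using q2 j) x hx hc).trans (N_mono' _ (ball_subset_ball ?_))
    rw [Nat.cast_sub (by omega), dist_comm]
    simpa using h.le
  set c : Fin 4 → ℂ := fun j => pt τ (idx τ (q j)) with hc
  have d1 : ∀ j, dist (q j) (c j) < 2 * τ := fun j => dist_pt hτ _
  have inB : ∀ x ∈ ω, x ∈ B → x ∈ bx n τ c := fun x h1 h2 =>
    ⟨fun j => by linarith [q3 j x h1 h2, ph_le j (q j) (c j), d1 j], hS x h1⟩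
  have near : ∀ j, ∀ x ∈ sE n τ c ρ j, dist x (q j) < (ρ j - 1) * τ := by
    intro j x hx
    have a1 : dist (rf j (ph j (c j) + 2 * τ) x) (c j) < (ρ j - 11) * τ := hx.2
    have a2 := dist_rf_self j (ph j (c j) + 2 * τ) (q j)
    have a3 := ph_le j (q j) (c j)
    have a4 := ph_le j (c j) (q j)
    rw [dist_comm] at a4
    rw [abs_of_nonneg (by linarith [d1 j])] at a2
    have a5 := dist_triangle4 (rf j (ph j (c j) + 2 * τ) x) (c j) (q j)
      (rf j (ph j (c j) + 2 * τ) (q j))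
    rw [dist_rf, dist_comm (c j), dist_comm (q j) (rf _ _ _)] at a5
    linarith [d1 j]
  have out : ∀ j, ∀ x ∈ sE n τ c ρ j, ph j (c j) + 2 * τ < ph j x := by
    intro j x hx
    have := hx.1.1 j
    rw [ph_rf] at this
    linarith
  have mE : ∀ j, MeasurableSet (sE n τ c ρ j) := fun j =>
    (cont_rf _ _).measurable ((meas_bx _ _ _).inter measurableSet_ball)
  have vE : ∀ j, volume.real (sE n τ c ρ j) =
      volume.real (bx n τ c ∩ ball (c j) ((ρ j - 11) * τ)) := fun j => by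
    rw [Measure.real, sE, vol_rf _ _ ((meas_bx _ _ _).inter measurableSet_ball), Measure.real]
  obtain ⟨j0, -, hj0⟩ := I.exists_min_image (fun j => volume.real (sE n τ c ρ j)) hI0
  refine ⟨(idx τ b, fun j => idx τ (q j) - idx τ b, ρ, I, j0), ?_, ?_, ?_, ?_⟩
  · simp only [Finset.mem_product, Fintype.mem_piFinset, Finset.mem_range, Finset.mem_univ,
      and_true]
    exact ⟨hA, fun j => mem_box hτ ((hD _ (q1 j) (q2 j)).trans hR), fun j => by linarith [r2 j]⟩
  · simp only [add_sub_cancel]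
    refine ⟨Finset.measurableSet_biUnion _ fun j _ => mE j,
      (meas_bx _ _ _).inter measurableSet_ball, ?_, ?_, fin_of_sub inter_subset_right, ?_⟩
    · rw [Set.disjoint_left]
      simp only [mem_iUnion]
      rintro x ⟨j, -, hx⟩ hx'
      linarith [out j x hx, hx'.1.1 j]
    · simp only [iUnion_subset_iff]
      intro j hj x hx
      rw [mem_sq]
      intro i
      by_cases e1 : i = j
      · have : (ρ j : ℝ) * τ ≤ P * τ := by gcongr; exact r2 j
        subst e1
        linarith [hI i hj, near i x hx, ph_le i x (q i), ph_le i (q i) b, hD _ (q1 i) (q2 i)]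
      by_cases e2 : i = j + 2
      · have := mem_sq.1 (hS _ (q1 j)) (j + 2)
        rw [ph_opp] at this
        rw [e2, ph_opp]
        linarith [out j x hx, ph_le j (q j) (c j), d1 j]
      · rw [← ph_rf' e1 e2 (ph j (c j) + 2 * τ)]
        exact mem_sq.1 hx.1.2 i
    · rw [measureReal_biUnion_finset _ (fun j _ => mE j) fun j _ =>
        fin_of_sub (c := q j) (r := (ρ j - 1) * τ) fun x hx => near j x hx]
      · have a1 := Finset.card_nsmul_le_sum I _ _ hj0
        have a2 := vol_inter_ball (X := bx n τ c) (c j0) (r := (ρ j0 - 11) * τ)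
          (s := (ρ j0 + 2) * τ) (by positivity) (by linarith)
        rw [← vE] at a2
        have a3 : 2 * π * ((ρ j0 + 2) * τ) * ((ρ j0 + 2) * τ - (ρ j0 - 11) * τ) ≤
            26 * π * (P + 2) * τ ^ 2 := by
          rw [show 2 * π * ((ρ j0 + 2) * τ) * ((ρ j0 + 2) * τ - (ρ j0 - 11) * τ) =
            26 * π * (ρ j0 + 2) * τ ^ 2 by ring]
          gcongr
          exact r2 j0
        have a4 : (I.card : ℝ) ≤ 4 := by exact_mod_cast (Finset.card_le_univ I).trans (by simp)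
        have a5 := mul_le_mul_of_nonneg_right ht
          (measureReal_nonneg (μ := volume) (s := bx n τ c ∩ ball (c j0) ((ρ j0 + 2) * τ)))
        have a6 := mul_le_mul_of_nonneg_left (a2.trans (add_le_add le_rfl a3))
          (Nat.cast_nonneg I.card)
        have a7 := mul_le_mul_of_nonneg_right a4
          (show 0 ≤ 26 * π * (P + 2) * τ ^ 2 by positivity)
        rw [nsmul_eq_mul] at a1
        change (t - 1) * volume.real (bx n τ c ∩ ball (c j0) ((ρ j0 + 2) * τ)) ≤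
          ∑ j ∈ I, volume.real (sE n τ c ρ j) + _
        linarith
      · intro i _ j _ hij
        rw [Function.onFun, Set.disjoint_left]
        intro x hi hj
        by_cases e2 : i = j + 2
        · have a1 := out i x hi
          have a2 := out j x hj
          have a3 := (inB b hb hb').1 i
          have a4 := (inB b hb hb').1 j
          have a5 : ph i x = -ph j x := by rw [e2, ph_opp]
          have a6 : ph i b = -ph j b := by rw [e2, ph_opp]
          linarith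
        · have := hj.1.1 i
          rw [ph_rf' hij e2] at this
          linarith [out i x hi]
  · simp only [add_sub_cancel, N_eq_zero, mem_iUnion, not_exists]
    intro x hx j _ h
    linarith [out j x h, (inB x hx (r3 j x hx (near j x h))).1 j]
  · simp only [add_sub_cancel]
    have s : ball (q j0) (ρ j0 * τ) ⊆ ball (c j0) ((ρ j0 + 2) * τ) :=
      ball_subset_ball' (by linarith [d1 j0])
    by_cases h : ∃ w ∈ ω, w ∈ Bᶜ ∩ ball (q j0) (ρ j0 * τ)
    · obtain ⟨w, a1, a2, a3⟩ := exists_min ω _ h fun z => dist (q j0) z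
      refine (Nat.le_succ k).trans ((hB _ (q1 j0) (by simpa using q2 j0) w a1 a2.1).trans
        (N_mono fun x hx hx' => ?_))
      have a4 : x ∈ ball (q j0) (ρ j0 * τ) := ball_subset_ball (mem_ball'.1 a2.2).le hx'
      refine ⟨inB x hx ?_, s a4⟩
      by_contra hc
      linarith [a3 x hx ⟨hc, a4⟩, mem_ball'.1 hx']
    · refine (Nat.le_succ k).trans ((r1 j0).trans (N_mono fun x hx hx' => ⟨inB x hx ?_, s hx'⟩))
      by_contra hc
      exact h ⟨x, hx, hc, hx'⟩

end Pool.Agent.Lib.MP_2af9b5_pr
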