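import Pool.Agent.Lib.MP_2af9b5_pr.Ray

open MeasureTheory ProbabilityTheory Set Metric Real
open scoped ENNReal Classical

namespace Pool.Agent.Lib.MP_2af9b5_pr

theorem meas_mL {Nn : ℕ} (τ : ℝ) (l : ML Nn) : MeasurableSet (mL τ l) :=
  .iUnion fun _ => meas_Fan _ _ _

theorem meas_mG {Nn : ℕ} (τ : ℝ) (l : ML Nn) : MeasurableSet (mG τ l) :=
  .iUnion fun _ => meas_Sec _ _ _ _

theorem fin_Fan (a b s : ℝ) : volume (Fan a b s) ≠ ⊤ :=
  fin_of_sub (c := 0) (r := s + 1) fun z hz => by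
    have : ‖z‖ ≤ s := hz.1
    simp; linarith

theorem fin_Sec (a b r s : ℝ) : volume (Sec a b r s) ≠ ⊤ :=
  fin_of_sub (c := 0) (r := s) fun z hz => by simpa using hz.1.2

theorem fin_mL {Nn : ℕ} (τ : ℝ) (l : ML Nn) : volume (mL τ l) ≠ ⊤ := by
  rw [mL]
  exact ne_top_of_le_ne_top (ENNReal.sum_ne_top.2 fun j _ => fin_Fan _ _ _)
    (measure_iUnion_fintype_le _ _)

theorem dist_le_ray {p a : ℂ} {ψ : ℝ} (ha : a = ‖a‖ * ex ψ) :
    dist p a ≤ |‖p‖ - ‖a‖| + ‖a‖ * |Complex.arg p - ψ| := by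
  have := dist_ex (t := ‖p‖) (norm_nonneg a) (Complex.arg p) ψ
  rwa [ex_arg, ← ha] at this

theorem ceil_bd {τ x : ℝ} (hτ : 0 < τ) (hx : 0 ≤ x) :
    x ≤ ⌈x / τ⌉₊ * τ ∧ ⌈x / τ⌉₊ * τ < x + τ := by
  have h1 := Nat.le_ceil (x / τ)
  have h2 := Nat.ceil_lt_add_one (div_nonneg hx hτ.le)
  rw [div_le_iff₀ hτ] at h1
  rw [div_add_one hτ.ne', lt_div_iff₀ hτ] at h2
  exact ⟨h1, h2⟩

theorem small_norm {k Nn P Q : ℕ} {τ σ C d d0 : ℝ} {A O : Cf} {u : ℂ} (hk : 1 ≤ k) (hN : 0 < Nn)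
    (hτ : 0 < τ) (h0 : 0 ∈ A) (hup : ∀ a ∈ A, 0 ≤ a.im) (hu : u ∈ A) (hu' : ∀ a ∈ A, ‖a‖ ≤ ‖u‖)
    (hσ : σ / 2 ≤ ‖u‖) (hσ' : ‖u‖ ≤ σ) (hd : ∀ p ∈ O, ∀ a ∈ A, d ≤ dist p a)
    (h35 : 0.35 * ‖u‖ ≤ d) (hd0 : d0 ≤ d)
    (hout : ∀ p ∈ O, ∀ a ∈ A, k + 1 ≤ N (ball p (dist p a)) O)
    (hC : ∀ φ ∈ Icc 0 π, k ≤ N (dk φ C) O) (hδ1 : 8 * C ^ 2 * (π / Nn) ≤ τ * d0)
    (hδ2 : π / Nn ≤ 0.0025) (hτC : 2 * τ ≤ C) (hτd : 4 * τ ≤ d0) (hσC : σ ≤ C) (hP : C ≤ P * τ)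
    (hQ : σ ≤ Q * τ) :
    ∃ l ∈ mF Nn P Q, Disjoint (mL τ l) (mG τ l) ∧ 0 ∈ mL τ l ∧
      volume.real (mL τ l) + (0.000018 * σ * d0 - 24 * C * τ) ≤ volume.real (mG τ l) ∧
      (∀ p ∈ O, p ∉ mL τ l) ∧ (∀ p ∈ O, p ∉ mG τ l) ∧ (∀ p ∈ A, p ∉ mG τ l) ∧
      (∀ y, y ∈ mG τ l ∨ (y ∈ A ∧ y ∉ mL τ l) → k ≤ N (ball y ‖y‖) O) ∧
      ∀ z ∈ mG τ l, 0 ≤ z.im ∧ ‖z‖ ≤ 3 * C := by
  set δ := π / Nn with hδ
  have δ0 : 0 < δ := by positivity
  have eδ : (Nn : ℝ) * δ = π := by rw [hδ]; field_simp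
  have d00 : 0 < d0 := by linarith
  have C0 : 0 < C := by linarith
  have σ0 : 0 ≤ σ := (norm_nonneg u).trans hσ'
  have hO : ∀ p ∈ O, d ≤ ‖p‖ := fun p hp => by simpa using hd p hp 0 h0
  have inI : ∀ j : ℕ, j < Nn → ∀ φ ∈ Icc (j * δ) ((j + 1) * δ), φ ∈ Icc 0 π := by
    intro j hj φ hφ
    have : (j : ℝ) + 1 ≤ Nn := by exact_mod_cast hj
    exact ⟨le_trans (by positivity) hφ.1, hφ.2.trans (by rw [← eδ]; gcongr)⟩
  have wid : ∀ j : ℕ, ∀ φ ∈ Icc (j * δ) ((j + 1) * δ), ∀ ψ ∈ Icc (j * δ) ((j + 1) * δ),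
      |φ - ψ| ≤ δ := fun j φ h1 ψ h2 => abs_le.2 ⟨by linarith [h1.1, h2.2], by linarith [h1.2, h2.1]⟩
  have lip : ∀ φ ψ t, |φ - ψ| ≤ δ → t + τ ≤ 2 * C → k ≤ N (dk ψ t) O → k ≤ N (dk φ (t + τ)) O := by
    intro φ ψ t h1 h2 h3
    refine h3.trans (N_mono fun p hp h4 => dk_lip hτ d00 h2 (ψ := ψ) ?_ (hd0.trans (hO p hp)) ?_)
    · have : 2 * (2 * C) ^ 2 * |φ - ψ| ≤ 2 * (2 * C) ^ 2 * δ := by gcongr
      linarith
    · rwa [add_sub_cancel_right]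
  set S : ℕ → Set ℕ := fun j => {r | ∀ φ ∈ Icc (j * δ) ((j + 1) * δ), k ≤ N (dk φ (r * τ)) O}
    with hS
  set ρ : ℕ → ℕ := fun j => sInf (S j) with hρ
  have big : ∀ j < Nn, ∀ r : ℕ, C ≤ r * τ → r ∈ S j := fun j hj r hr φ hφ =>
    (hC φ (inI j hj φ hφ)).trans (N_mono' _ (dk_mono φ hr))
  have r1 : ∀ j < Nn, ρ j ∈ S j := fun j hj =>
    Nat.sInf_mem ⟨_, big j hj _ (ceil_bd hτ C0.le).1⟩
  have r2 : ∀ j < Nn, ρ j * τ ≤ C + τ := fun j hj => by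
    have : ρ j ≤ ⌈C / τ⌉₊ := Nat.sInf_le (big j hj _ (ceil_bd hτ C0.le).1)
    exact le_trans (by gcongr) (ceil_bd hτ C0.le).2.le
  have r3 : ∀ j : ℕ, ∀ ψ ∈ Icc (j * δ) ((j + 1) * δ), ∀ t, 0 ≤ t → t ≤ C + τ → k ≤ N (dk ψ t) O →
      ρ j * τ ≤ t + 2 * τ := by
    intro j ψ hψ t t0 t1 h
    have c := ceil_bd hτ (show 0 ≤ t + τ by linarith)
    have : ρ j ≤ ⌈(t + τ) / τ⌉₊ := Nat.sInf_le fun φ hφ =>
      (lip φ ψ t (wid j φ hφ ψ hψ) (by linarith) h).trans (N_mono' _ (dk_mono φ c.1))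
    exact le_trans (by gcongr) (c.2.le.trans (by linarith))
  have r4 : ∀ j < Nn, d0 / 2 ≤ ρ j * τ := by
    intro j hj
    obtain ⟨p, hp, h⟩ := N_pos (lt_of_lt_of_le hk (r1 j hj (j * δ) ⟨le_rfl, by linarith⟩))
    have a1 := norm_le_norm_add_norm_sub' p (ρ j * τ * ex (j * δ))
    have a2 : dist p (((ρ j * τ : ℝ) : ℂ) * ex (j * δ)) < ρ j * τ := h
    rw [norm_mul, norm_ex, norm_mul, Complex.norm_natCast, Complex.norm_real,
      Real.norm_of_nonneg hτ.le] at a1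
    rw [Complex.dist_eq] at a2
    push_cast at a2
    linarith [hO p hp]
  obtain ⟨inc, hinc⟩ := lip_code ρ Nn fun j hj => by
    have m1 : ((j + 1 : ℕ) : ℝ) * δ ∈ Icc (j * δ) ((j + 1) * δ) := by
      push_cast; exact ⟨by linarith, le_rfl⟩
    have m2 : ((j + 1 : ℕ) : ℝ) * δ ∈ Icc (((j + 1 : ℕ) : ℝ) * δ) ((((j + 1 : ℕ) : ℝ) + 1) * δ) :=
      ⟨le_rfl, by linarith⟩
    constructor
    · refine Nat.sInf_le fun φ hφ => ?_
      have := lip φ _ _ (wid _ φ hφ _ m2) (by linarith [r2 j (by omega)]) (r1 j (by omega) _ m1)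
      rwa [Nat.cast_add, Nat.cast_one, add_one_mul]
    · refine Nat.sInf_le fun φ hφ => ?_
      have := lip φ _ _ (wid _ φ hφ _ m1) (by linarith [r2 _ hj]) (r1 _ hj _ m2)
      rwa [Nat.cast_add (ρ _), Nat.cast_one, add_one_mul]
  obtain ⟨J, hJ, hJ'⟩ := cone hN hδ2 (Complex.arg_nonneg_iff.2 (hup u hu)) (Complex.arg_le_pi u)
  have hw : ∀ j : Fin Nn, ∃ a ∈ A, ∃ ψ, a = ‖a‖ * ex ψ ∧
      (∀ φ ∈ Icc (j * δ) ((j + 1) * δ), |φ - ψ| ≤ 0.01) ∧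
      (∀ b ∈ A, Complex.arg b ∈ Icc (j * δ) ((j + 1) * δ) → ‖b‖ ≤ ‖a‖) ∧ (j ∈ J → σ / 2 ≤ ‖a‖) := by
    intro j
    by_cases h : j ∈ J
    · exact ⟨u, hu, _, (ex_arg u).symm, hJ' j h, fun b hb _ => hu' b hb, fun _ => hσ⟩
    by_cases h' : ∃ b ∈ A, b ∈ {b : ℂ | Complex.arg b ∈ Icc (j * δ) ((j + 1) * δ)}
    · obtain ⟨a, a1, a2, a3⟩ := exists_min A _ h' fun b => -‖b‖
      exact ⟨a, a1, _, (ex_arg a).symm, fun φ hφ => (wid j φ hφ _ a2).trans (by linarith),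
        fun b b1 b2 => neg_le_neg_iff.1 (a3 b b1 b2), fun hc => absurd hc h⟩
    · exact ⟨0, h0, j * δ, by simp, fun φ hφ =>
        (wid j φ hφ _ ⟨le_rfl, by linarith⟩).trans (by linarith),
        fun b b1 b2 => absurd ⟨b, b1, b2⟩ h', fun hc => absurd hc h⟩
  choose a a1 ψ a2 a3 a4 a5 using hw
  set w : Fin Nn → ℕ := fun j => ⌈‖a j‖ / τ⌉₊ with hw
  have w1 : ∀ j, ‖a j‖ ≤ w j * τ := fun j => (ceil_bd hτ (norm_nonneg _)).1
  have w2 : ∀ j, w j * τ < ‖a j‖ + τ := fun j => (ceil_bd hτ (norm_nonneg _)).2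
  have w3 : ∀ j, w j ≤ Q := fun j => Nat.ceil_le.2 (by
    rw [div_le_iff₀ hτ]; linarith [hu' _ (a1 j)])
  set T : Fin Nn → Set ℕ := fun j => {r | ∀ b ∈ A, Complex.arg b ∈ Icc (j * δ) ((j + 1) * δ) →
    ‖b‖ < ρ j * τ → ‖b‖ ≤ r * τ} with hT
  set la : Fin Nn → ℕ := fun j => sInf (T j) with hla
  have l1 : ∀ j, la j ≤ ρ j := fun j => Nat.sInf_le fun b _ _ h => h.le
  have l2 : ∀ j, la j ≤ w j := fun j => Nat.sInf_le fun b b1 b2 _ => (a4 j b b1 b2).trans (w1 j)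
  have l3 : ∀ j, la j ∈ T j := fun j => Nat.sInf_mem ⟨ρ j, fun b _ _ h => h.le⟩
  have l1' : ∀ j, (la j : ℝ) * τ ≤ ρ j * τ := fun j => by gcongr; exact l1 j
  have l2' : ∀ j, (la j : ℝ) * τ ≤ w j * τ := fun j => by gcongr; exact l2 j
  set l : ML Nn := (ρ 0, inc, w, la) with hl
  have eG : mG τ l = ⋃ j : Fin Nn, Sec (j * δ) ((j + 1) * δ) (max (ρ j * τ) (w j * τ))
      (bet τ (ρ j * τ) (w j * τ)) := by
    refine iUnion_congr fun j => ?_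
    simp only [hl, hinc j j.2, Int.cast_natCast]
    rfl
  have eL : mL τ l = ⋃ j : Fin Nn, Fan (j * δ) ((j + 1) * δ) (la j * τ) := rfl
  have aC : ∀ b ∈ A, ‖b‖ ≤ C := fun b hb => (hu' b hb).trans (hσ'.trans hσC)
  refine ⟨l, ?_, ?_, ?_, ?_, ?_, ?_, ?_, ?_, ?_⟩
  · simp only [mF, hl, Finset.mem_product, Finset.mem_range, Finset.mem_univ,
      Fintype.mem_piFinset, true_and]
    have : ρ 0 ≤ P := Nat.sInf_le (big 0 hN P hP)
    exact ⟨by omega, fun j => by linarith [w3 j], fun j => by linarith [w3 j, l2 j]⟩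
  · rw [eG, eL, Set.disjoint_left]
    simp only [mem_iUnion]
    rintro p ⟨i, hi⟩ ⟨j, hj⟩
    obtain rfl : i = j := Fin.ext (sec_disj δ0 hi.2 hj.2)
    have b1 : ‖p‖ ≤ la i * τ := hi.1
    linarith [(max_lt_iff.1 hj.1.1).1, l1' i]
  · refine mem_iUnion.2 ⟨⟨0, hN⟩, ?_, ?_⟩
    · simp only [norm_zero, mem_Iic]; positivity
    · simpa using δ0.le
  · have v1 : volume.real (mL τ l) ≤ ∑ j : Fin Nn, δ * ((la j * τ) ^ 2 / 2) := by
      refine (measureReal_iUnion_fintype_le _).trans (Finset.sum_le_sum fun j _ => ?_)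
      refine (vol_Fan (by linarith) (by positivity)).trans (le_of_eq ?_)
      ring
    have v2 : ∑ j : Fin Nn, δ * ((bet τ (ρ j * τ) (w j * τ) ^ 2 - max (ρ j * τ) (w j * τ) ^ 2) / 2)
        ≤ volume.real (mG τ l) := by
      rw [eG, measureReal_iUnion_fintype _ (fun _ => meas_Sec _ _ _ _) fun _ => fin_Sec _ _ _ _]
      · refine Finset.sum_le_sum fun j _ => le_trans (le_of_eq (by ring)) (vol_Sec (by positivity)
          (by linarith) (inI j j.2 _ ⟨by linarith, le_rfl⟩).2 (by positivity) (le_max_right _ _))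
      · intro i j hij
        refine Set.disjoint_left.2 fun p hi hj => hij (Fin.ext (sec_disj δ0 ?_ hj.2))
        exact Ioo_subset_Icc_self hi.2
    have v3 : ∀ j : Fin Nn, δ * ((la j * τ) ^ 2 / 2) +
        (0.015 * δ * d0 * (w j * τ) - 7.5 * C * τ * δ) ≤
        δ * ((bet τ (ρ j * τ) (w j * τ) ^ 2 - max (ρ j * τ) (w j * τ) ^ 2) / 2) := by
      intro j
      have := mul_le_mul_of_nonneg_left (ray_ineq (C := C) hτ d00 (r4 j j.2)
        (by linarith [r2 j j.2]) (by positivity) (by linarith [w2 j, aC _ (a1 j)]) (by positivity)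
        (l1' j) (l2' j)) δ0.le
      linarith
    have v4 := Finset.sum_le_sum fun j (_ : j ∈ Finset.univ) => v3 j
    rw [Finset.sum_add_distrib, Finset.sum_sub_distrib, ← Finset.mul_sum _ _ (0.015 * δ * d0),
      Finset.sum_const,
      Finset.card_univ, Fintype.card_fin, nsmul_eq_mul] at v4
    have v5 : J.card * (σ / 2) ≤ ∑ j : Fin Nn, (w j : ℝ) * τ := by
      rw [← nsmul_eq_mul]
      exact (Finset.card_nsmul_le_sum J _ _ fun j hj => (a5 j hj).trans (w1 j)).trans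
        (Finset.sum_le_sum_of_subset_of_nonneg (Finset.subset_univ _) fun _ _ _ => by positivity)
    have v6 := mul_le_mul_of_nonneg_left v5 (show 0 ≤ 0.015 * δ * d0 by positivity)
    have v7 := mul_le_mul_of_nonneg_left hJ (show 0 ≤ σ * d0 by positivity)
    have v8 : (Nn : ℝ) * (7.5 * C * τ * δ) = 7.5 * π * (C * τ) := by rw [← eδ]; ring
    have v9 := mul_le_mul_of_nonneg_right pi_lt_d2.le (show 0 ≤ C * τ by positivity)
    have v10 : 0 ≤ σ * d0 := by positivity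
    have v11 : 0 ≤ C * τ := by positivity
    rw [v8] at v4
    rw [← hδ] at v7
    linarith
  · intro p hp h
    obtain ⟨j, h1, h2⟩ := mem_iUnion.1 (eL ▸ h)
    have h1 : ‖p‖ ≤ la j * τ := h1
    have h3 : la j ≠ 0 := by
      intro h0
      rw [h0] at h1
      simp only [Nat.cast_zero, zero_mul] at h1
      linarith [hO p hp]
    have h4 : la j - 1 ∉ T j := Nat.notMem_of_lt_sInf (by change _ < la j; omega)
    simp only [hT, mem_ofPred_eq, not_forall, not_le] at h4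
    obtain ⟨b, b1, b2, b3, b4⟩ := h4
    rw [Nat.cast_pred (by omega)] at b4
    have h5 := r3 j _ h2 ‖p‖ (norm_nonneg _) (by linarith [l1' j, r2 j j.2]) (by
      have := hout p hp 0 h0
      rw [dk_arg]
      rw [dist_zero_right] at this
      omega)
    have h6 := dist_le_ray (p := p) (ex_arg b).symm
    have h7 : ‖b‖ * |Complex.arg p - Complex.arg b| ≤ C * δ := by
      gcongr
      exacts [aC b b1, wid j _ h2 _ b2]
    have h8 : |‖p‖ - ‖b‖| ≤ 2 * τ := abs_le.2 ⟨by linarith, by linarith⟩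
    have h9 : C * δ ≤ d0 / 16 := by
      refine le_of_mul_le_mul_left ?_ C0
      nlinarith
    linarith [hd p hp b b1]
  · intro p hp h
    obtain ⟨j, ⟨h1, h2⟩, h3⟩ := mem_iUnion.1 (eG ▸ h)
    have h3 := Ioo_subset_Icc_self h3
    obtain ⟨h4, h5⟩ := max_lt_iff.1 h1
    have h6 := dist_le_ray (p := p) (a2 j)
    have h7 : ‖a j‖ * |Complex.arg p - ψ j| ≤ ‖a j‖ * 0.01 := by gcongr; exact a3 j _ h3
    rw [abs_of_nonneg (by linarith [w1 j])] at h6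
    have n0 := norm_nonneg (a j)
    rcases lt_max_iff.1 h2 with h2 | h2
    swap
    · linarith [norm_nonneg p]
    rcases lt_max_iff.1 h2 with h2 | h2
    · have h8 := r3 j _ h3 (‖p‖ - 0.495 * ‖a j‖) (by linarith [w1 j])
        (by linarith [w2 j, r2 j j.2]) (by
          refine (Nat.le_succ k).trans ((hout p hp _ (a1 j)).trans (N_mono' _ ?_))
          refine ball_subset_ball' ?_
          have := dist_ex (t := ‖p‖) (s := ‖p‖ - 0.495 * ‖a j‖) (by linarith [w1 j])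
            (Complex.arg p) (Complex.arg p)
          rw [ex_arg, sub_self, abs_zero, mul_zero, abs_of_nonneg (by linarith)] at this
          linarith)
      linarith [w2 j]
    · linarith [hd p hp _ (a1 j), w2 j, hu' _ (a1 j)]
  · intro p hp h
    obtain ⟨j, ⟨h1, -⟩, h3⟩ := mem_iUnion.1 (eG ▸ h)
    linarith [(max_lt_iff.1 h1).2, a4 j p hp (Ioo_subset_Icc_self h3), w1 j]
  · intro y hy
    have : ∃ j : Fin Nn, Complex.arg y ∈ Icc (j * δ) ((j + 1) * δ) ∧ ρ j * τ ≤ ‖y‖ := by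
      rcases hy with h | ⟨h1, h2⟩
      · obtain ⟨j, ⟨h1, -⟩, h3⟩ := mem_iUnion.1 (eG ▸ h)
        exact ⟨j, Ioo_subset_Icc_self h3, (max_lt_iff.1 h1).1.le⟩
      · obtain ⟨j, hj⟩ := sector_of hN (Complex.arg_nonneg_iff.2 (hup y h1)) (Complex.arg_le_pi y)
        refine ⟨j, hj, not_lt.1 fun hc => h2 (mem_iUnion.2 ⟨j, l3 j y h1 hj hc, hj⟩)⟩
    obtain ⟨j, h1, h2⟩ := this
    rw [← dk_arg]
    exact (r1 j j.2 _ h1).trans (N_mono' _ (dk_mono _ h2))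
  · intro z h
    obtain ⟨j, ⟨-, h2⟩, h3⟩ := mem_iUnion.1 (eG ▸ h)
    refine ⟨Complex.arg_nonneg_iff.1 (inI j j.2 _ (Ioo_subset_Icc_self h3)).1, h2.le.trans ?_⟩
    have := w2 j
    have := aC _ (a1 j)
    have := r2 j j.2
    exact max_le (max_le (by linarith) (by linarith)) (by linarith)

end Pool.Agent.Lib.MP_2af9b5_pr
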