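import Pool.Agent.Lib.MP_2af9b5_pr.Cover

open MeasureTheory ProbabilityTheory Set Metric Real
open scoped ENNReal Classical

namespace Pool.Agent.Lib.MP_2af9b5_pr

theorem val_toFinset {ω : Cf} (h : ω.Nodup) : ω.toFinset.val = ω := by
  rw [Multiset.toFinset_val, Multiset.dedup_eq_self.2 h]

/-- some point is marked -/
def Zex (k : ℕ) (Lr : ℝ) : Set Cf := {ω | ∃ x ∈ ω, (x, ω) ∈ Zev k Lr}

theorem meas_Zex (k : ℕ) (Lr : ℝ) : MeasurableSet (Zex k Lr) :=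
  meas_exists (w := id) measurable_id (measurable_swap (meas_Zev k Lr))

theorem zero_of_Z {n Lr : ℝ} {k : ℕ} {ω : Cf} (hS : ∀ x ∈ ω, x ∈ sq n) (h : ω.Nodup)
    (g1 : G1 n k Lr ω) (hZ : ω ∈ Zex k Lr) : ¬NoZero k ω.toFinset := by
  obtain ⟨x, hx, hZ⟩ := hZ
  intro hc
  obtain ⟨y, hy⟩ := hc x (Multiset.mem_toFinset.2 hx)
  obtain ⟨y1, -, y2, y3⟩ := edge_iff.1 hy
  rw [val_toFinset h] at y3
  rw [Multiset.mem_toFinset] at y1
  rcases lt_or_ge (dist y x) Lr with h1 | h1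
  · have := hZ y y1 y2.symm h1
    simp only at this
    omega
  · have := (g1 y (hS y y1)).trans (N_mono' ω (ball_subset_ball h1))
    omega

theorem meas_idx (τ : ℝ) : Measurable (idx τ) :=
  ((Complex.measurable_re.div_const τ).floor).prodMk ((Complex.measurable_im.div_const τ).floor)

/-- a marked point in a cell -/
def Zc (τ Lr : ℝ) (k : ℕ) (i : ℤ × ℤ) : Set Cf := {ω | ∃ x ∈ ω, idx τ x = i ∧ (x, ω) ∈ Zev k Lr}

theorem meas_Zs (τ Lr : ℝ) (k : ℕ) (i : ℤ × ℤ) :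
    MeasurableSet {p : Cf × ℂ | idx τ p.2 = i ∧ (p.2, p.1) ∈ Zev k Lr} :=
  ((meas_idx τ).comp measurable_snd (measurableSet_singleton i)).inter
    (measurable_swap (meas_Zev k Lr))

theorem meas_Zc (τ Lr : ℝ) (k : ℕ) (i : ℤ × ℤ) : MeasurableSet (Zc τ Lr k i) :=
  meas_exists (w := id) measurable_id (meas_Zs τ Lr k i)

theorem Zc_local {τ Lr : ℝ} (hτ : 0 < τ) (hL : 0 ≤ Lr) (k : ℕ) (i : ℤ × ℤ) :
    res (ball (pt τ i) (2 * Lr + 2 * τ)) ⁻¹' (Zc τ Lr k i)ᶜ = (Zc τ Lr k i)ᶜ := by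
  rw [preimage_compl, compl_inj_iff]
  ext ω
  constructor
  · rintro ⟨x, hx, rfl, h⟩
    refine ⟨x, (mem_res.1 hx).1, rfl, fun y hy h1 h2 => (h y (mem_res.2 ⟨hy, ?_⟩) h1 h2).trans
      (N_le (res_le _ _))⟩
    have := dist_triangle y x (pt τ (idx τ x))
    rw [mem_ball]
    simp only at h2
    linarith [dist_pt hτ x]
  · rintro ⟨x, hx, rfl, h⟩
    refine ⟨x, mem_res.2 ⟨hx, by rw [mem_ball]; linarith [dist_pt hτ x]⟩, rfl,
      fun y hy h1 h2 => (h y (mem_res.1 hy).1 h1 h2).trans ?_⟩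
    simp only [N_res] at h2 ⊢
    refine N_mono' _ (subset_inter Subset.rfl (ball_subset_ball' ?_))
    linarith [dist_pt hτ x, dist_triangle y x (pt τ (idx τ x))]

theorem sum_le_two {p S : ℝ} (hp : p ≤ 1 / 2) (hS : 0 ≤ S) (h : 1 - p ≤ exp (-S)) : S ≤ 2 * p := by
  have h1 : (1 - p) * (S + 1) ≤ exp (-S) * exp S :=
    mul_le_mul h (add_one_le_exp S) (by linarith) (exp_pos _).le
  rw [← exp_add, neg_add_cancel, exp_zero] at h1
  nlinarith

theorem far_pt {τ : ℝ} (hτ : 0 < τ) {K : ℕ} {i j : ℤ × ℤ} (h : i ≠ j) (h1 : i.1 % K = j.1 % K)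
    (h2 : i.2 % K = j.2 % K) : K * τ ≤ dist (pt τ i) (pt τ j) := by
  have key : ∀ a b : ℤ, a ≠ b → a % K = b % K → K * τ ≤ |τ * a - τ * b| := by
    intro a b h1 h2
    have := Int.le_of_dvd (abs_pos.2 (sub_ne_zero.2 h1))
      ((dvd_abs _ _).2 (Int.ModEq.dvd (show b ≡ a [ZMOD K] from h2.symm)))
    rw [← mul_sub, abs_mul, abs_of_pos hτ, mul_comm]
    gcongr
    exact_mod_cast this
  by_cases e : i.1 = j.1
  · exact (key _ _ (fun e' => h (Prod.ext e e')) h2).trans (im_le_dist (pt τ i) (pt τ j))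
  · exact (key _ _ e h1).trans (re_le_dist (pt τ i) (pt τ j))

theorem sum_Zc_le {n τ Lr : ℝ} (k : ℕ) {K : ℕ} (hτ : 0 < τ) (hL : 0 ≤ Lr)
    (hK : 4 * Lr + 4 * τ ≤ K * τ) (hp : (PP n).real (Zex k Lr) ≤ 1 / 2) (I : Finset (ℤ × ℤ)) :
    ∑ i ∈ I, (PP n).real (Zc τ Lr k i) ≤ K ^ 2 * (2 * (PP n).real (Zex k Lr)) := by
  have K0 : (0 : ℤ) < K := by
    have : (0 : ℝ) < K := pos_of_mul_pos_left (b := τ) (by linarith) hτ.le
    exact_mod_cast this
  rw [← Finset.sum_fiberwise_of_maps_to (g := fun i : ℤ × ℤ => (i.1 % K, i.2 % K))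
    (t := Finset.Ico (0 : ℤ) K ×ˢ Finset.Ico (0 : ℤ) K) fun i _ => by
      simp [Int.emod_nonneg _ K0.ne', Int.emod_lt_of_pos _ K0]]
  refine (Finset.sum_le_card_nsmul _ _ (2 * (PP n).real (Zex k Lr)) fun c _ => ?_).trans
    (le_of_eq (by simp [pow_two]))
  set J := I.filter fun i : ℤ × ℤ => (i.1 % K, i.2 % K) = c
  refine sum_le_two hp (Finset.sum_nonneg fun _ _ => measureReal_nonneg) ?_
  have h1 := indep_family (μ := mu n) J (R := fun i => ball (pt τ i) (2 * Lr + 2 * τ))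
    (A := fun i => (Zc τ Lr k i)ᶜ) (fun _ _ => measurableSet_ball)
    (fun i _ => (meas_Zc τ Lr k i).compl) fun i hi j hj hij => ball_disjoint_ball (by
      have a := (Finset.mem_filter.1 hi).2.trans (Finset.mem_filter.1 hj).2.symm
      linarith [far_pt hτ hij (congrArg Prod.fst a) (congrArg Prod.snd a)])
  simp only [Zc_local hτ hL] at h1
  have h2 : (PP n).real (Zex k Lr)ᶜ ≤ (PP n).real (⋂ i ∈ J, (Zc τ Lr k i)ᶜ) := by
    refine measureReal_mono (fun ω hω => ?_) (measure_ne_top _ _)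
    simp only [mem_iInter]
    rintro i - ⟨x, h1, -, h2⟩
    exact hω ⟨x, h1, h2⟩
  rw [probReal_compl_eq_one_sub (meas_Zex k Lr), measureReal_def, measureReal_def, h1,
    ENNReal.toReal_prod, ← measureReal_def] at h2
  rw [← Finset.sum_neg_distrib, exp_sum]
  refine h2.trans (Finset.prod_le_prod (fun _ _ => ENNReal.toReal_nonneg) fun i _ => ?_)
  rw [← Measure.real, probReal_compl_eq_one_sub (meas_Zc τ Lr k i)]
  exact one_sub_le_exp_neg _

theorem N_Zc_le {τ Lr t : ℝ} {k : ℕ} (hτ : 0 < τ) (hL : 4 * τ ≤ Lr) (ht : 1 ≤ t) (i : ℤ × ℤ)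
    {ω : Cf} (h : ω.Nodup) :
    (N {x | idx τ x = i ∧ (x, ω) ∈ Zev k Lr} ω : ℝ≥0∞) ≤ (Zc τ Lr k i).indicator 1 ω +
      ENNReal.ofReal (t ^ (k + 1))⁻¹ * ENNReal.ofReal (2 * t) ^ N (ball (pt τ i) (6 * τ)) ω := by
  set B := {x | idx τ x = i ∧ (x, ω) ∈ Zev k Lr} with hB
  rcases lt_trichotomy (N B ω) 1 with h1 | h1 | h1
  · simp [Nat.lt_one_iff.1 h1]
  · obtain ⟨x, hx, hx'⟩ := N_pos (h1 ▸ one_pos : 0 < N B ω)
    rw [h1, indicator_of_mem (show ω ∈ Zc τ Lr k i from ⟨x, hx, hx'⟩)]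
    simp
  obtain ⟨x, hx, y, hy, hne⟩ := Finset.one_lt_card.1
    (show 1 < (⟨res B ω, Multiset.nodup_of_le (res_le B ω) h⟩ : Finset ℂ).card from h1)
  obtain ⟨x1, x2, x3⟩ := mem_res.1 hx
  obtain ⟨y1, y2, -⟩ := mem_res.1 hy
  have d1 := dist_pt hτ x
  have d2 := dist_pt hτ y
  rw [x2] at d1
  rw [y2] at d2
  have d3 := dist_triangle_right y x (pt τ i)
  have a1 : k + 1 ≤ N (ball (pt τ i) (6 * τ)) ω :=
    (x3 y y1 hne.symm (by simp only; linarith)).trans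
      (N_mono' _ (ball_subset_ball' (by simp only; linarith)))
  have a2 : N B ω ≤ N (ball (pt τ i) (6 * τ)) ω := N_mono' _ fun z hz => by
    have := dist_pt hτ z
    rw [hz.1] at this
    rw [mem_ball]; linarith
  set v := N (ball (pt τ i) (6 * τ)) ω
  refine le_add_left ?_
  rw [← ENNReal.ofReal_pow (by linarith), ← ENNReal.ofReal_mul (by positivity),
    ← ENNReal.ofReal_natCast]
  refine ENNReal.ofReal_le_ofReal ?_
  rw [inv_mul_eq_div, le_div_iff₀ (by positivity), mul_pow]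
  have a3 : (N B ω : ℝ) ≤ 2 ^ v := by exact_mod_cast a2.trans Nat.lt_two_pow_self.le
  exact mul_le_mul a3 (pow_le_pow_right₀ ht a1) (by positivity) (by positivity)

theorem EZ_le {n τ Lr t : ℝ} (k : ℕ) {K : ℕ} (hτ : 0 < τ) (hL : 4 * τ ≤ Lr)
    (hK : 4 * Lr + 4 * τ ≤ K * τ) (ht : 1 ≤ t) (hp : (PP n).real (Zex k Lr) ≤ 1 / 2) :
    (EZ n k Lr).toReal ≤ K ^ 2 * (2 * (PP n).real (Zex k Lr)) +
      (√n / τ + 2) ^ 2 * (exp (2 * t * (π * (6 * τ) ^ 2)) / t ^ (k + 1)) := by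
  have mp : ∀ i, Measurable fun ω => ENNReal.ofReal (2 * t) ^ N (ball (pt τ i) (6 * τ)) ω :=
    fun i => (measurable_of_countable _).comp (meas_N measurableSet_ball)
  have h1 : EZ n k Lr ≤ ∫⁻ ω, (N {x | (ω, x) ∈ Prod.swap ⁻¹' Zev k Lr} ω : ℝ≥0∞) ∂PP n := by
    rw [mecke (measurable_swap (meas_Zev k Lr))]
    refine lintegral_mono fun x => measure_mono fun ω hω y hy h1 h2 => ?_
    exact (hω y ((Multiset.mem_cons.1 hy).resolve_left h1) h1 h2).trans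
      (N_le (Multiset.le_cons_self _ _))
  have h2 : ∫⁻ ω, (N {x | (ω, x) ∈ Prod.swap ⁻¹' Zev k Lr} ω : ℝ≥0∞) ∂PP n ≤
      ∫⁻ ω, ∑ i ∈ allA τ n, ((Zc τ Lr k i).indicator 1 ω + ENNReal.ofReal (t ^ (k + 1))⁻¹ *
        ENNReal.ofReal (2 * t) ^ N (ball (pt τ i) (6 * τ)) ω) ∂PP n := by
    refine lintegral_mono_ae ?_
    filter_upwards [ae_sq n, ae_nodup (μ := mu n)] with ω a1 a2
    refine le_trans ?_ (Finset.sum_le_sum fun i _ => N_Zc_le hτ hL ht i a2)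
    simp only [← cm_apply]
    refine le_trans ?_ (measure_biUnion_finset_le _ _)
    rw [cm_apply, cm_apply]
    exact Nat.cast_le.2 (N_mono fun x hx h => mem_iUnion₂.2 ⟨_, mem_allA hτ (a1 x hx), rfl, h⟩)
  have h3 : ∀ i, ∫⁻ ω, ((Zc τ Lr k i).indicator 1 ω + ENNReal.ofReal (t ^ (k + 1))⁻¹ *
        ENNReal.ofReal (2 * t) ^ N (ball (pt τ i) (6 * τ)) ω) ∂PP n ≤
      ENNReal.ofReal ((PP n).real (Zc τ Lr k i) +
        exp (2 * t * (π * (6 * τ) ^ 2)) / t ^ (k + 1)) := by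
    intro i
    have a1 := tilt_eq (μ := mu n) (E := ∅) (V := ball (pt τ i) (6 * τ)) .empty measurableSet_ball
      (by simp) (t := 2 * t) (by linarith)
    simp only [show ∀ ω, N ∅ ω = 0 from fun ω => N_eq_zero.2 (by simp), if_true] at a1
    rw [lintegral_add_left (measurable_one.indicator (meas_Zc τ Lr k i)),
      lintegral_indicator_one (meas_Zc τ Lr k i), lintegral_const_mul _ (mp i), a1,
      ENNReal.ofReal_add measureReal_nonneg (by positivity), ofReal_measureReal,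
      ← ENNReal.ofReal_mul (by positivity), inv_mul_eq_div]
    gcongr
    have a2 := mu_le (n := n) (vball_ne (pt τ i) (6 * τ))
    rw [vball _ (by positivity)] at a2
    have a3 := measureReal_nonneg (μ := mu n) (s := ball (pt τ i) (6 * τ))
    simp only [measureReal_empty]
    nlinarith
  have h4 := h1.trans (h2.trans ((lintegral_finsetSum _ fun i _ =>
    (measurable_one.indicator (meas_Zc τ Lr k i)).add ((mp i).const_mul _)).le.trans
    (Finset.sum_le_sum fun i _ => h3 i)))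
  rw [← ENNReal.ofReal_sum_of_nonneg fun _ _ => by positivity] at h4
  refine (ENNReal.toReal_le_of_le_ofReal (by positivity) h4).trans ?_
  rw [Finset.sum_add_distrib, Finset.sum_const, nsmul_eq_mul]
  gcongr
  exacts [sum_Zc_le k hτ (by linarith) hK hp _, card_allA hτ]

end Pool.Agent.Lib.MP_2af9b5_pr
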